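import Mathlib

/-!
The homogeneous lift `AA c` of the quintic Lattes map `x ↦ -x (x² - c)² / (c x² - 1)²`, where
`c² = 2 c - 5`, and its algebraic identities.
-/

set_option autoImplicit false
set_option linter.unusedSectionVars false

namespace Pool.Agent.TH147.DM

section Ring

variable {R : Type*} [CommRing R] {c : R}

/-- The first component of the quintic map. -/
def A0 (c x y : R) : R := -(x * (x ^ 2 - c * y ^ 2) ^ 2)

/-- The second component of the quintic map. -/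
def A1 (c x y : R) : R := y * (c * x ^ 2 - y ^ 2) ^ 2

/-- The quintic map on pairs. -/
def AA (c : R) (p : R × R) : R × R := (A0 c p.1 p.2, A1 c p.1 p.2)

/-- The determinant of two pairs. -/
def det2 (p q : R × R) : R := p.1 * q.2 - p.2 * q.1

/-- The quotient of the determinants. -/
def K1 (c : R) (p q : R × R) : R :=
  (5 - 2 * c) * p.1 ^ 4 * q.1 ^ 4 + 2 * c * p.1 ^ 4 * q.1 ^ 2 * q.2 ^ 2 - p.1 ^ 4 * q.2 ^ 4
    + (20 + 4 * c) * p.1 ^ 3 * p.2 * q.1 ^ 3 * q.2 + (4 - 12 * c) * p.1 ^ 3 * p.2 * q.1 * q.2 ^ 3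
    + 2 * c * p.1 ^ 2 * p.2 ^ 2 * q.1 ^ 4 + (24 - 20 * c) * p.1 ^ 2 * p.2 ^ 2 * q.1 ^ 2 * q.2 ^ 2
    + 2 * c * p.1 ^ 2 * p.2 ^ 2 * q.2 ^ 4 + (4 - 12 * c) * p.1 * p.2 ^ 3 * q.1 ^ 3 * q.2
    + (20 + 4 * c) * p.1 * p.2 ^ 3 * q.1 * q.2 ^ 3 - p.2 ^ 4 * q.1 ^ 4
    + 2 * c * p.2 ^ 4 * q.1 ^ 2 * q.2 ^ 2 + (5 - 2 * c) * p.2 ^ 4 * q.2 ^ 4

/-- The quartic form vanishing at `0, ∞, 1, -1`. -/
def SS (p : R × R) : R := p.1 * p.2 * (p.1 ^ 2 - p.2 ^ 2)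

/-- The critical form. -/
def JJ (c : R) (p : R × R) : R :=
  (p.1 ^ 2 - c * p.2 ^ 2) * (c * p.1 ^ 2 - p.2 ^ 2) *
    (p.1 ^ 4 + (4 * c - 2) * p.1 ^ 2 * p.2 ^ 2 + p.2 ^ 4)

/-- The product of the quotients along the orbits. -/
def Kn (c : R) (n : ℕ) (p q : R × R) : R :=
  ∏ i ∈ Finset.range n, K1 c ((AA c)^[i] p) ((AA c)^[i] q)

lemma det_AA (hc : c ^ 2 = 2 * c - 5) (p q : R × R) :
    det2 (AA c p) (AA c q) = det2 p q * K1 c p q := by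
  obtain ⟨x, y⟩ := p
  obtain ⟨v, w⟩ := q
  simp only [det2, AA, A0, A1, K1]
  linear_combination (1*c^2*x^4*y*v*w^4 - 1*c^2*x*y^4*v^4*w - 2*c*x^4*y*v^3*w^2 + 2*c*x^4*y*v*w^4
    + 2*c*x^3*y^2*v^4*w - 2*c*x^2*y^3*v*w^4 - 2*c*x*y^4*v^4*w + 2*c*x*y^4*v^2*w^3 - 1*x^5*v^4*w
    + 1*x^4*y*v^5 - 4*x^4*y*v^3*w^2 - 1*x^4*y*v*w^4 + 4*x^3*y^2*v^4*w - 4*x^3*y^2*v^2*w^3
    + 4*x^2*y^3*v^3*w^2 - 4*x^2*y^3*v*w^4 + 1*x*y^4*v^4*w + 4*x*y^4*v^2*w^3 - 1*x*y^4*w^5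
    + 1*y^5*v*w^4) * hc

lemma SS_AA (hc : c ^ 2 = 2 * c - 5) (p : R × R) : SS (AA c p) = -(SS p * JJ c p ^ 2) := by
  obtain ⟨x, y⟩ := p
  simp only [SS, AA, A0, A1, JJ]
  linear_combination (1*c^6*x^13*y^7 - 1*c^6*x^7*y^13 - 2*c^5*x^15*y^5 + 2*c^5*x^13*y^7
    - 6*c^5*x^11*y^9 + 6*c^5*x^9*y^11 - 2*c^5*x^7*y^13 + 2*c^5*x^5*y^15 + 1*c^4*x^17*y^3
    - 4*c^4*x^15*y^5 + 11*c^4*x^13*y^7 - 11*c^4*x^11*y^9 + 11*c^4*x^9*y^11 - 11*c^4*x^7*y^13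
    + 4*c^4*x^5*y^15 - 1*c^4*x^3*y^17 + 2*c^3*x^17*y^3 - 4*c^3*x^15*y^5 + 8*c^3*x^13*y^7
    - 14*c^3*x^11*y^9 + 14*c^3*x^9*y^11 - 8*c^3*x^7*y^13 + 4*c^3*x^5*y^15 - 2*c^3*x^3*y^17
    - 1*c^2*x^17*y^3 - 2*c^2*x^15*y^5 + 3*c^2*x^13*y^7 - 3*c^2*x^11*y^9 + 3*c^2*x^9*y^11
    - 3*c^2*x^7*y^13 + 2*c^2*x^5*y^15 + 1*c^2*x^3*y^17 + 2*c*x^15*y^5 - 2*c*x^13*y^7
    + 2*c*x^11*y^9 - 2*c*x^9*y^11 + 2*c*x^7*y^13 - 2*c*x^5*y^15 - 1*x^13*y^7 + 2*x^11*y^9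
    - 2*x^9*y^11 + 1*x^7*y^13) * hc

lemma K1_diag (hc : c ^ 2 = 2 * c - 5) (p : R × R) : K1 c p p = -(c * JJ c p) := by
  obtain ⟨x, y⟩ := p
  simp only [K1, JJ]
  linear_combination (-4*c^2*x^4*y^4 + 3*c*x^6*y^2 - 6*c*x^4*y^4 + 3*c*x^2*y^6 + 1*x^8 + 4*x^6*y^2
    + 6*x^4*y^4 + 4*x^2*y^6 + 1*y^8) * hc

lemma det_iter (hc : c ^ 2 = 2 * c - 5) (n : ℕ) (p q : R × R) :
    det2 ((AA c)^[n] p) ((AA c)^[n] q) = det2 p q * Kn c n p q := by
  induction n with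
  | zero => simp [Kn]
  | succ n ih =>
    rw [Function.iterate_succ_apply', Function.iterate_succ_apply', det_AA hc, ih, Kn, Kn,
      Finset.prod_range_succ, mul_assoc]

lemma AA_smul (t : R) (p : R × R) : AA c (t * p.1, t * p.2) = (t ^ 5 * (AA c p).1, t ^ 5 * (AA c p).2) := by
  simp only [AA, A0, A1]
  ext <;> simp <;> ring

lemma AA_iter_smul (n : ℕ) (t : R) (p : R × R) : (AA c)^[n] (t * p.1, t * p.2) =
    (t ^ 5 ^ n * ((AA c)^[n] p).1, t ^ 5 ^ n * ((AA c)^[n] p).2) := by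
  induction n with
  | zero => simp
  | succ n ih =>
    rw [Function.iterate_succ_apply', ih, AA_smul, Function.iterate_succ_apply', ← pow_mul,
      ← pow_succ]

end Ring

section Hom

variable {R S : Type*} [CommRing R] [CommRing S]

lemma map_AA (f : R →+* S) (c : R) (p : R × R) :
    AA (f c) (f p.1, f p.2) = (f (AA c p).1, f (AA c p).2) := by
  simp [AA, A0, A1]

lemma map_AA_iter (f : R →+* S) (c : R) (n : ℕ) (p : R × R) :
    (AA (f c))^[n] (f p.1, f p.2) = (f ((AA c)^[n] p).1, f ((AA c)^[n] p).2) := by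
  induction n with
  | zero => rfl
  | succ n ih => rw [Function.iterate_succ_apply', ih, map_AA, Function.iterate_succ_apply']

lemma map_K1 (f : R →+* S) (c : R) (p q : R × R) :
    K1 (f c) (f p.1, f p.2) (f q.1, f q.2) = f (K1 c p q) := by
  simp only [K1, map_add, map_sub, map_mul, map_pow, map_ofNat]

lemma map_Kn (f : R →+* S) (c : R) (n : ℕ) (p q : R × R) :
    Kn (f c) n (f p.1, f p.2) (f q.1, f q.2) = f (Kn c n p q) := by
  simp only [Kn, map_prod]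
  refine Finset.prod_congr rfl fun i _ => ?_
  rw [map_AA_iter, map_AA_iter, map_K1]

end Hom

section Domain

variable {R : Type*} [CommRing R] [IsDomain R] [CharZero R] {c : R}

lemma c_ne (hc : c ^ 2 = 2 * c - 5) : c ≠ 0 := by
  rintro rfl
  have : (5 : R) = 0 := by linear_combination hc
  exact absurd this (by norm_num)

lemma c_sq_ne (hc : c ^ 2 = 2 * c - 5) : c ^ 2 - 1 ≠ 0 := by
  intro h
  have h1 : 2 * (c - 3) = 0 := by linear_combination h - hc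
  have h3 : c = 3 := by
    rcases mul_eq_zero.1 h1 with h2 | h2
    · exact absurd h2 (by norm_num)
    · linear_combination h2
  rw [h3] at h
  exact absurd h (by norm_num)

lemma AA_ne (hc : c ^ 2 = 2 * c - 5) {p : R × R} (hp : p ≠ 0) : AA c p ≠ 0 := by
  intro h
  apply hp
  obtain ⟨x, y⟩ := p
  have h0 : -(x * (x ^ 2 - c * y ^ 2) ^ 2) = 0 := congrArg Prod.fst h
  have h1 : y * (c * x ^ 2 - y ^ 2) ^ 2 = 0 := congrArg Prod.snd h
  rw [neg_eq_zero, mul_eq_zero] at h0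
  rw [mul_eq_zero] at h1
  have hy : x = 0 → y = 0 := by
    rintro rfl
    rcases h1 with h1 | h1
    · exact h1
    · have : y ^ 4 = 0 := by linear_combination h1
      exact pow_eq_zero_iff (by norm_num) |>.1 this
  have hx : y = 0 → x = 0 := by
    rintro rfl
    rcases h0 with h0 | h0
    · exact h0
    · have : x ^ 4 = 0 := by linear_combination h0
      exact pow_eq_zero_iff (by norm_num) |>.1 this
  rcases h0 with h0 | h0
  · rw [h0, hy h0]; rfl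
  rcases h1 with h1 | h1
  · rw [h1, hx h1]; rfl
  have h2 : x ^ 2 - c * y ^ 2 = 0 := pow_eq_zero_iff (by norm_num) |>.1 h0
  have h3 : c * x ^ 2 - y ^ 2 = 0 := pow_eq_zero_iff (by norm_num) |>.1 h1
  have h4 : (c ^ 2 - 1) * y ^ 2 = 0 := by linear_combination h3 - c * h2
  have h5 : y = 0 := by
    rcases mul_eq_zero.1 h4 with h6 | h6
    · exact absurd h6 (c_sq_ne hc)
    · exact pow_eq_zero_iff (by norm_num) |>.1 h6
  rw [h5, hx h5]; rfl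

lemma AA_iter_ne (hc : c ^ 2 = 2 * c - 5) {p : R × R} (hp : p ≠ 0) (n : ℕ) :
    (AA c)^[n] p ≠ 0 := by
  induction n with
  | zero => exact hp
  | succ n ih => rw [Function.iterate_succ_apply']; exact AA_ne hc ih

lemma SS_iter (hc : c ^ 2 = 2 * c - 5) {p : R × R} (hp : SS p = 0) (n : ℕ) :
    SS ((AA c)^[n] p) = 0 := by
  induction n with
  | zero => exact hp
  | succ n ih => rw [Function.iterate_succ_apply', SS_AA hc, ih]; simp

/-- the special points are not critical -/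
lemma JJ_ne_of_SS (hc : c ^ 2 = 2 * c - 5) {p : R × R} (hp : p ≠ 0) (hS : SS p = 0) :
    JJ c p ≠ 0 := by
  have h0 := c_ne hc
  have h1 := c_sq_ne hc
  have hc1 : c - 1 ≠ 0 := fun h => h1 (by linear_combination (c + 1) * h)
  obtain ⟨x, y⟩ := p
  simp only [SS] at hS
  simp only [JJ]
  have key : ∀ {x y : R}, x = 0 → y ≠ 0 →
      (x ^ 2 - c * y ^ 2) * (c * x ^ 2 - y ^ 2) *
        (x ^ 4 + (4 * c - 2) * x ^ 2 * y ^ 2 + y ^ 4) ≠ 0 := by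
    rintro x y rfl hy
    have : ((0 : R) ^ 2 - c * y ^ 2) * (c * 0 ^ 2 - y ^ 2) *
        (0 ^ 4 + (4 * c - 2) * 0 ^ 2 * y ^ 2 + y ^ 4) = c * y ^ 8 := by ring
    rw [this]
    exact mul_ne_zero h0 (pow_ne_zero _ hy)
  rcases mul_eq_zero.1 hS with h | h
  · rcases mul_eq_zero.1 h with h | h
    · exact key h fun hy => hp (by rw [h, hy]; rfl)
    · rw [h]
      have hx : x ≠ 0 := fun hx => hp (by rw [h, hx]; rfl)
      have : (x ^ 2 - c * (0 : R) ^ 2) * (c * x ^ 2 - 0 ^ 2) *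
        (x ^ 4 + (4 * c - 2) * x ^ 2 * 0 ^ 2 + 0 ^ 4) = c * x ^ 8 := by ring
      rw [this]
      exact mul_ne_zero h0 (pow_ne_zero _ hx)
  · have h2 : x ^ 2 = y ^ 2 := by linear_combination h
    have hx : y ≠ 0 := by
      intro hy
      rw [hy] at h2
      have : x = 0 := pow_eq_zero_iff (by norm_num) |>.1 (h2.trans (by norm_num))
      exact hp (by rw [this, hy]; rfl)
    have : (x ^ 2 - c * y ^ 2) * (c * x ^ 2 - y ^ 2) *
        (x ^ 4 + (4 * c - 2) * x ^ 2 * y ^ 2 + y ^ 4) = -(4 * c * (c - 1) ^ 2 * y ^ 8) := by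
      have e : x ^ 4 = y ^ 4 := by linear_combination (x ^ 2 + y ^ 2) * h2
      rw [e, h2]; ring
    rw [this]
    exact neg_ne_zero.2 (mul_ne_zero (mul_ne_zero (mul_ne_zero (by norm_num) h0)
      (pow_ne_zero _ hc1)) (pow_ne_zero _ hx))

/-- no critical point is periodic, in algebraic form -/
lemma Kn_ne (hc : c ^ 2 = 2 * c - 5) {p : R × R} (hp : p ≠ 0) (n : ℕ)
    (h : SS ((AA c)^[n] p) = 0 → SS p = 0) : Kn c n p p ≠ 0 := by
  rw [Kn, Finset.prod_ne_zero_iff]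
  intro i hi
  rw [K1_diag hc, neg_ne_zero]
  refine mul_ne_zero (c_ne hc) ?_
  intro hJ
  have h1 : SS ((AA c)^[i + 1] p) = 0 := by
    rw [Function.iterate_succ_apply', SS_AA hc, hJ]; simp
  have h2 : SS ((AA c)^[n] p) = 0 := by
    obtain ⟨k, rfl⟩ : ∃ k, n = k + (i + 1) := ⟨n - (i + 1), by have := Finset.mem_range.1 hi; omega⟩
    rw [Function.iterate_add_apply]
    exact SS_iter hc h1 k
  exact JJ_ne_of_SS hc (AA_iter_ne hc hp i) (SS_iter hc (h h2) i) hJ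

end Domain

end Pool.Agent.TH147.DM
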