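import Pool.Agent.TH147.DM.Zall

/-!
Maps commuting with an iterate.
-/

set_option autoImplicit false
set_option linter.unusedSectionVars false

open Polynomial

namespace Pool.Agent.TH147.DM

open Pool.Agent.Results.MP_0a826e_ag.LattesDiagonal

/-- the value vector -/
noncomputable def GV (G : Fin 5 → MvPolynomial (Fin 5) ℂ) (v : Fin 5 → ℂ) : Fin 5 → ℂ :=
  fun i => MvPolynomial.eval v (G i)

/-- `G` is a family of forms of degree `q` without common zero which commutes with the `n`-th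
iterate up to a constant. -/
structure Good (a b : ℂ) (n q : ℕ) (l : ℂ) (G : Fin 5 → MvPolynomial (Fin 5) ℂ) : Prop where
  hom : ∀ i, (G i).IsHomogeneous q
  ne : ∀ v, v ≠ 0 → GV G v ≠ 0
  lne : l ≠ 0
  rel : ∀ v, GV G ((PV a b)^[n] v) = l • (PV a b)^[n] (GV G v)

lemma hom_smul {σ : Type*} [Fintype σ] {p : MvPolynomial σ ℂ} {q : ℕ} (hp : p.IsHomogeneous q)
    (t : ℂ) (x : σ → ℂ) : MvPolynomial.eval (t • x) p = t ^ q * MvPolynomial.eval x p := by
  rw [MvPolynomial.eval_eq', MvPolynomial.eval_eq', Finset.mul_sum]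
  refine Finset.sum_congr rfl fun d hd => ?_
  have h1 : ∑ i, d i = q := by
    have := hp (MvPolynomial.mem_support_iff.1 hd)
    rw [Finsupp.weight_apply, Finsupp.sum_fintype _ _ (by simp)] at this
    simpa using this
  simp only [Pi.smul_apply, smul_eq_mul, mul_pow, Finset.prod_mul_distrib,
    Finset.prod_pow_eq_pow_sum, h1]
  ring

/-- block scaling -/
def sc (e : Fin 4 → ℕ) (t : ℂ) (x : Fin 4 → ℂ) : Fin 4 → ℂ := fun i => t ^ e i * x i

/-- block scaling of polynomials -/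
noncomputable def se (e : Fin 4 → ℕ) (p : M4) : M4[X] :=
  MvPolynomial.aeval (fun i => C (MvPolynomial.X i) * X ^ e i) p

lemma map_se (e : Fin 4 → ℕ) (p : M4) (x : Fin 4 → ℂ) :
    (se e p).map (MvPolynomial.eval x) = MvPolynomial.aeval (fun i => C (x i) * X ^ e i) p := by
  induction p using MvPolynomial.induction_on with
  | C r => simp [se]
  | add p q hp hq =>
    rw [se, map_add, Polynomial.map_add, map_add]
    rw [se] at hp hq
    rw [hp, hq]
  | mul_X p i hp =>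
    rw [se, map_mul, Polynomial.map_mul, map_mul]
    rw [se] at hp
    rw [hp, MvPolynomial.aeval_X, MvPolynomial.aeval_X, Polynomial.map_mul, Polynomial.map_C,
      Polynomial.map_pow, Polynomial.map_X, MvPolynomial.eval_X]

lemma eval_map_se (e : Fin 4 → ℕ) (p : M4) (x : Fin 4 → ℂ) (t : ℂ) :
    ((se e p).map (MvPolynomial.eval x)).eval t = MvPolynomial.eval (sc e t x) p := by
  rw [map_se, eval_aeval_poly]
  congr 2
  ext i
  simp only [eval_mul, eval_C, eval_pow, eval_X, sc]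
  ring

lemma se_natDegree {e : Fin 4 → ℕ} (he : ∀ i, e i ≤ 1) {p : M4} {q : ℕ} (hp : p.totalDegree ≤ q) :
    (se e p).natDegree ≤ q := by
  rw [natDegree_le_iff_coeff_eq_zero]
  intro k hk
  refine MvPolynomial.funext fun x => ?_
  rw [← coeff_map, map_se, map_zero]
  refine coeff_eq_zero_of_natDegree_lt (lt_of_le_of_lt ?_ hk)
  have := MvPolynomial.aeval_natDegree_le p hp (fun i => C (x i) * X ^ e i) (n := 1) fun i =>
    (natDegree_C_mul_X_pow_le _ _).trans (he i)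
  rwa [mul_one] at this

lemma sc_one (e : Fin 4 → ℕ) (x : Fin 4 → ℂ) : sc e 1 x = x := by
  ext i; simp [sc]

lemma FF_iter_sc {a b : ℂ} {e : Fin 4 → ℕ} (h1 : e 1 = e 0) (h2 : e 3 = e 2) (n : ℕ) (t : ℂ)
    (x : Fin 4 → ℂ) : (FF a b)^[n] (sc e t x) = sc e (t ^ 5 ^ n) ((FF a b)^[n] x) := by
  have e1 : sc e t x = quad (t ^ e 0 * x 0, t ^ e 0 * x 1) (t ^ e 2 * x 2, t ^ e 2 * x 3) := by
    ext i
    fin_cases i <;> simp [sc, quad, h1, h2]
  have e2 : (FF a b)^[n] x = quad ((AA a)^[n] (x 0, x 1)) ((AA b)^[n] (x 2, x 3)) := by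
    rw [← FF_iter_quad, quad_eta]
  have e3 := AA_iter_smul (c := a) n (t ^ e 0) (x 0, x 1)
  have e4 := AA_iter_smul (c := b) n (t ^ e 2) (x 2, x 3)
  rw [e1, FF_iter_quad, e3, e4, e2]
  have e5 : ∀ k : ℕ, (t ^ 5 ^ n) ^ k = (t ^ k) ^ 5 ^ n := fun k => pow_right_comm _ _ _
  ext i
  fin_cases i <;> simp [sc, quad, h1, h2, e5]

section Pair

variable {a b c : ℂ} {n q : ℕ} {l : ℂ} {h₁ h₂ : M4}

lemma pair_scale (ha : a ^ 2 = 2 * a - 5) (hb : b ^ 2 = 2 * b - 5) (hc : c ^ 2 = 2 * c - 5)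
    (hn : 1 ≤ n) (hl : l ≠ 0) (hbig : q < 5 ^ n)
    (hd1 : h₁.totalDegree ≤ q) (hd2 : h₂.totalDegree ≤ q)
    (hrel : ∀ x, (AA c)^[n] (MvPolynomial.eval x h₁, MvPolynomial.eval x h₂) =
      (l⁻¹ * MvPolynomial.eval ((FF a b)^[n] x) h₁, l⁻¹ * MvPolynomial.eval ((FF a b)^[n] x) h₂))
    {e : Fin 4 → ℕ} (he : ∀ i, e i ≤ 1) (h1 : e 1 = e 0) (h2 : e 3 = e 2) :
    ∃ m : ℕ, ∀ t x, MvPolynomial.eval (sc e t x) h₁ = t ^ m * MvPolynomial.eval x h₁ ∧
      MvPolynomial.eval (sc e t x) h₂ = t ^ m * MvPolynomial.eval x h₂ := by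
  set P : M4[X] × M4[X] := (se e h₁, se e h₂) with hP
  by_cases hP0 : P = 0
  · have e1 : se e h₁ = 0 := congrArg Prod.fst hP0
    have e2 : se e h₂ = 0 := congrArg Prod.snd hP0
    refine ⟨0, fun t x => ?_⟩
    have z1 : ∀ t x, MvPolynomial.eval (sc e t x) h₁ = 0 := fun t x => by
      rw [← eval_map_se, e1]; simp
    have z2 : ∀ t x, MvPolynomial.eval (sc e t x) h₂ = 0 := fun t x => by
      rw [← eval_map_se, e2]; simp
    have z3 := z1 1 x
    have z4 := z2 1 x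
    rw [sc_one] at z3 z4
    rw [z1, z2, z3, z4]
    simp
  · have hR : Rel a b c n l⁻¹ (fun _ => X ^ 5 ^ n) P := by
      intro x
      have key : ∀ t : ℂ, (((AA (C c))^[n] (P.1.map (MvPolynomial.eval x),
          P.2.map (MvPolynomial.eval x))).1.eval t, ((AA (C c))^[n] (P.1.map (MvPolynomial.eval x),
          P.2.map (MvPolynomial.eval x))).2.eval t) =
          ((C l⁻¹ * (P.1.map (MvPolynomial.eval ((FF a b)^[n] x))).comp (X ^ 5 ^ n)).eval t,
          (C l⁻¹ * (P.2.map (MvPolynomial.eval ((FF a b)^[n] x))).comp (X ^ 5 ^ n)).eval t) := by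
        intro t
        rw [eval_AA_iter]
        simp only [hP, eval_mul, eval_C, eval_comp, eval_pow, eval_X, eval_map_se]
        rw [hrel, FF_iter_sc h1 h2]
      ext1
      · exact Polynomial.funext fun t => congrArg Prod.fst (key t)
      · exact Polynomial.funext fun t => congrArg Prod.snd (key t)
    have hmd : md P ≤ q := max_le (se_natDegree he hd1) (se_natDegree he hd2)
    have hmon := hR.monomial ha hb hc hn (inv_ne_zero hl) hP0 (lt_of_le_of_lt hmd hbig)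
    have f1 : se e h₁ = C (lv P).1 * X ^ md P := congrArg Prod.fst hmon
    have f2 : se e h₂ = C (lv P).2 * X ^ md P := congrArg Prod.snd hmon
    have key : ∀ (h w : M4), se e h = C w * X ^ md P → ∀ t x,
        MvPolynomial.eval (sc e t x) h = t ^ md P * MvPolynomial.eval x h := by
      intro h w hw t x
      have g1 : ∀ t, MvPolynomial.eval (sc e t x) h = MvPolynomial.eval x w * t ^ md P := by
        intro t
        rw [← eval_map_se, hw]
        simp
      have g2 := g1 1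
      rw [sc_one, one_pow, mul_one] at g2
      rw [g1, g2, mul_comm]
    exact ⟨md P, fun t x => ⟨key _ _ f1 t x, key _ _ f2 t x⟩⟩

/-- the first block -/
def e01 : Fin 4 → ℕ := ![1, 1, 0, 0]

/-- the second block -/
def e23 : Fin 4 → ℕ := ![0, 0, 1, 1]

lemma sc_sc (t : ℂ) (x : Fin 4 → ℂ) : sc e01 t (sc e23 t x) = t • x := by
  ext i
  fin_cases i <;> simp [sc, e01, e23]

lemma bideg (ha : a ^ 2 = 2 * a - 5) (hb : b ^ 2 = 2 * b - 5) (hc : c ^ 2 = 2 * c - 5)
    (hn : 1 ≤ n) (hl : l ≠ 0) (hbig : q < 5 ^ n)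
    (hd1 : h₁.IsHomogeneous q) (hd2 : h₂.IsHomogeneous q)
    (hrel : ∀ x, (AA c)^[n] (MvPolynomial.eval x h₁, MvPolynomial.eval x h₂) =
      (l⁻¹ * MvPolynomial.eval ((FF a b)^[n] x) h₁, l⁻¹ * MvPolynomial.eval ((FF a b)^[n] x) h₂)) :
    ∃ m m' : ℕ, m + m' = q ∧ ∀ t x,
      (MvPolynomial.eval (sc e01 t x) h₁ = t ^ m * MvPolynomial.eval x h₁ ∧
      MvPolynomial.eval (sc e01 t x) h₂ = t ^ m * MvPolynomial.eval x h₂) ∧
      (MvPolynomial.eval (sc e23 t x) h₁ = t ^ m' * MvPolynomial.eval x h₁ ∧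
      MvPolynomial.eval (sc e23 t x) h₂ = t ^ m' * MvPolynomial.eval x h₂) := by
  obtain ⟨m, hm⟩ := pair_scale (e := e01) ha hb hc hn hl hbig hd1.totalDegree_le
    hd2.totalDegree_le hrel (by intro i; fin_cases i <;> simp [e01]) rfl rfl
  obtain ⟨m', hm'⟩ := pair_scale (e := e23) ha hb hc hn hl hbig hd1.totalDegree_le
    hd2.totalDegree_le hrel (by intro i; fin_cases i <;> simp [e23]) rfl rfl
  have key : ∀ x : Fin 4 → ℂ, ∀ w : ℂ, w ≠ 0 → (∀ t : ℂ, t ^ q * w = t ^ m * (t ^ m' * w)) →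
      m + m' = q := by
    intro x w hw h
    have h3 := h 2
    have h4 : (2 : ℂ) ^ (m + m') = 2 ^ q := by
      rw [pow_add]
      refine mul_right_cancel₀ hw ?_
      rw [h3, mul_assoc]
    have h5 : (2 : ℕ) ^ (m + m') = 2 ^ q := by exact_mod_cast h4
    exact Nat.pow_right_injective le_rfl h5
  by_cases h0 : ∀ x, MvPolynomial.eval x h₁ = 0 ∧ MvPolynomial.eval x h₂ = 0
  · refine ⟨q, 0, by omega, fun t x => ?_⟩
    rw [(h0 _).1, (h0 _).2, (h0 _).1, (h0 _).2, (h0 _).1, (h0 _).2]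
    simp
  · refine ⟨m, m', ?_, fun t x => ⟨hm t x, hm' t x⟩⟩
    push Not at h0
    obtain ⟨x, hx⟩ := h0
    by_cases hx1 : MvPolynomial.eval x h₁ = 0
    · refine key x _ (hx hx1) fun t => ?_
      rw [← hom_smul hd2, ← sc_sc, (hm _ _).2, (hm' _ _).2]
    · refine key x _ hx1 fun t => ?_
      rw [← hom_smul hd1, ← sc_sc, (hm _ _).1, (hm' _ _).1]

end Pair

end Pool.Agent.TH147.DM
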