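import Pool.Agent.TH147.DM.Core

/-!
Maps commuting with an iterate: determination of the base part.
-/

set_option autoImplicit false
set_option linter.unusedSectionVars false

open Polynomial

namespace Pool.Agent.TH147.DM

open Pool.Agent.Results.MP_0a826e_ag.LattesDiagonal

/-- the coordinates as polynomials in the fibre coordinate -/
noncomputable def fse (G : Fin 5 → MvPolynomial (Fin 5) ℂ) (i : Fin 5) : M4[X] :=
  MvPolynomial.finSuccEquiv ℂ 4 (G i)

/-- the base part -/
noncomputable def HH (G : Fin 5 → MvPolynomial (Fin 5) ℂ) (i : Fin 4) : M4 :=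
  (fse G i.succ).coeff 0

/-- the value of the base part -/
noncomputable def HV (G : Fin 5 → MvPolynomial (Fin 5) ℂ) (x : Fin 4 → ℂ) : Fin 4 → ℂ :=
  fun i => MvPolynomial.eval x (HH G i)

lemma fse_eval (G : Fin 5 → MvPolynomial (Fin 5) ℂ) (i : Fin 5) (x : Fin 4 → ℂ) (z : ℂ) :
    ((fse G i).map (MvPolynomial.eval x)).eval z = GV G (Fin.cons z x) i :=
  (MvPolynomial.eval_eq_eval_mv_eval' x z (G i)).symm

variable {a b : ℂ} {n q : ℕ} {l : ℂ} {G : Fin 5 → MvPolynomial (Fin 5) ℂ}

lemma Good.relA (h : Good a b n q l G) : Rel a b a n l⁻¹ (phi a b n) (fse G 1, fse G 2) := by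
  intro x
  have key : ∀ z : ℂ, (((AA (C a))^[n] ((fse G 1).map (MvPolynomial.eval x),
      (fse G 2).map (MvPolynomial.eval x))).1.eval z, ((AA (C a))^[n]
      ((fse G 1).map (MvPolynomial.eval x), (fse G 2).map (MvPolynomial.eval x))).2.eval z) =
      ((C l⁻¹ * ((fse G 1).map (MvPolynomial.eval ((FF a b)^[n] x))).comp (phi a b n x)).eval z,
      (C l⁻¹ * ((fse G 2).map (MvPolynomial.eval ((FF a b)^[n] x))).comp (phi a b n x)).eval z) := by
    intro z
    rw [eval_AA_iter]
    simp only [eval_mul, eval_C, eval_comp, fse_eval]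
    have h1 := h.rel (Fin.cons z x)
    rw [PV_iter_cons] at h1
    rw [h1]
    set w := GV G (Fin.cons z x)
    have h2 : (PV a b)^[n] w = vec ((phi a b n (quad (w 1, w 2) (w 3, w 4))).eval (w 0))
        ((AA a)^[n] (w 1, w 2)) ((AA b)^[n] (w 3, w 4)) := by
      rw [← PV_iter_vec, vec_eta]
    rw [h2]
    ext
    · show _ = l⁻¹ * (l * ((AA a)^[n] (w 1, w 2)).1)
      rw [inv_mul_cancel_left₀ h.lne]
    · show _ = l⁻¹ * (l * ((AA a)^[n] (w 1, w 2)).2)
      rw [inv_mul_cancel_left₀ h.lne]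
  ext1
  · exact Polynomial.funext fun t => congrArg Prod.fst (key t)
  · exact Polynomial.funext fun t => congrArg Prod.snd (key t)

lemma Good.relB (h : Good a b n q l G) : Rel a b b n l⁻¹ (phi a b n) (fse G 3, fse G 4) := by
  intro x
  have key : ∀ z : ℂ, (((AA (C b))^[n] ((fse G 3).map (MvPolynomial.eval x),
      (fse G 4).map (MvPolynomial.eval x))).1.eval z, ((AA (C b))^[n]
      ((fse G 3).map (MvPolynomial.eval x), (fse G 4).map (MvPolynomial.eval x))).2.eval z) =
      ((C l⁻¹ * ((fse G 3).map (MvPolynomial.eval ((FF a b)^[n] x))).comp (phi a b n x)).eval z,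
      (C l⁻¹ * ((fse G 4).map (MvPolynomial.eval ((FF a b)^[n] x))).comp (phi a b n x)).eval z) := by
    intro z
    rw [eval_AA_iter]
    simp only [eval_mul, eval_C, eval_comp, fse_eval]
    have h1 := h.rel (Fin.cons z x)
    rw [PV_iter_cons] at h1
    rw [h1]
    set w := GV G (Fin.cons z x)
    have h2 : (PV a b)^[n] w = vec ((phi a b n (quad (w 1, w 2) (w 3, w 4))).eval (w 0))
        ((AA a)^[n] (w 1, w 2)) ((AA b)^[n] (w 3, w 4)) := by
      rw [← PV_iter_vec, vec_eta]
    rw [h2]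
    ext
    · show _ = l⁻¹ * (l * ((AA b)^[n] (w 3, w 4)).1)
      rw [inv_mul_cancel_left₀ h.lne]
    · show _ = l⁻¹ * (l * ((AA b)^[n] (w 3, w 4)).2)
      rw [inv_mul_cancel_left₀ h.lne]
  ext1
  · exact Polynomial.funext fun t => congrArg Prod.fst (key t)
  · exact Polynomial.funext fun t => congrArg Prod.snd (key t)

lemma Good.fse_natDegree_le (h : Good a b n q l G) (i : Fin 5) : (fse G i).natDegree ≤ q := by
  rw [fse, MvPolynomial.natDegree_finSuccEquiv]
  exact (MvPolynomial.degreeOf_le_totalDegree _ _).trans (h.hom i).totalDegree_le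

/-- the base part does not depend on the fibre coordinate -/
lemma Good.indep (ha : a ^ 2 = 2 * a - 5) (hb : b ^ 2 = 2 * b - 5) (hn : 1 ≤ n)
    (hbig : q < 5 ^ (n / 2)) (h : Good a b n q l G) (i : Fin 4) :
    (fse G i.succ).natDegree = 0 := by
  have key : ∀ (c : ℂ) (i j : Fin 5), c ^ 2 = 2 * c - 5 →
      Rel a b c n l⁻¹ (phi a b n) (fse G i, fse G j) →
      (fse G i).natDegree = 0 ∧ (fse G j).natDegree = 0 := by
    intro c i j hc hR
    by_cases hP : (fse G i, fse G j) = (0 : M4[X] × M4[X])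
    · rw [show fse G i = 0 from congrArg Prod.fst hP, show fse G j = 0 from congrArg Prod.snd hP]
      simp
    · have hmd : md (fse G i, fse G j) < 5 ^ (n / 2) :=
        lt_of_le_of_lt (max_le (h.fse_natDegree_le i) (h.fse_natDegree_le j)) hbig
      have := Rel.deg_zero ha hb hc hn (inv_ne_zero h.lne) hP hR hmd
      rw [md] at this
      have h1 := le_max_left (fse G i, fse G j).1.natDegree (fse G i, fse G j).2.natDegree
      have h2 := le_max_right (fse G i, fse G j).1.natDegree (fse G i, fse G j).2.natDegree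
      rw [this] at h1 h2
      exact ⟨Nat.le_zero.1 h1, Nat.le_zero.1 h2⟩
  have h1 := key a 1 2 ha h.relA
  have h2 := key b 3 4 hb h.relB
  fin_cases i
  · exact h1.1
  · exact h1.2
  · exact h2.1
  · exact h2.2

/-- the standing assumptions and independence -/
structure Good' (a b : ℂ) (n q : ℕ) (l : ℂ) (G : Fin 5 → MvPolynomial (Fin 5) ℂ) : Prop
    extends Good a b n q l G where
  ha : a ^ 2 = 2 * a - 5
  hb : b ^ 2 = 2 * b - 5
  hn : 2 ≤ n
  hq : 1 ≤ q
  hbig : q < 5 ^ (n / 2)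

namespace Good'

lemma succ_eval (h : Good' a b n q l G) (z : ℂ) (x : Fin 4 → ℂ) (i : Fin 4) :
    GV G (Fin.cons z x) i.succ = HV G x i := by
  have h1 := h.toGood.indep h.ha h.hb (by have := h.hn; omega) h.hbig i
  rw [← fse_eval, eq_C_of_natDegree_eq_zero h1]
  simp [HV, HH]

lemma gv_eq (h : Good' a b n q l G) (z : ℂ) (x : Fin 4 → ℂ) :
    GV G (Fin.cons z x) = Fin.cons (((fse G 0).map (MvPolynomial.eval x)).eval z) (HV G x) := by
  ext i
  refine Fin.cases ?_ (fun j => ?_) i
  · rw [Fin.cons_zero, fse_eval]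
  · rw [Fin.cons_succ, h.succ_eval]

lemma hom_HH (h : Good' a b n q l G) (i : Fin 4) : (HH G i).IsHomogeneous q :=
  (h.hom i.succ).finSuccEquiv_coeff_isHomogeneous 0 q (zero_add q)

lemma rel_cons (h : Good' a b n q l G) (z : ℂ) (x : Fin 4 → ℂ) :
    (Fin.cons (((fse G 0).map (MvPolynomial.eval ((FF a b)^[n] x))).eval ((phi a b n x).eval z))
      (HV G ((FF a b)^[n] x)) : Fin 5 → ℂ) =
    l • Fin.cons ((phi a b n (HV G x)).eval (((fse G 0).map (MvPolynomial.eval x)).eval z))
      ((FF a b)^[n] (HV G x)) := by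
  have h1 := h.rel (Fin.cons z x)
  rw [PV_iter_cons, h.gv_eq, h.gv_eq, PV_iter_cons] at h1
  exact h1

lemma rel_H (h : Good' a b n q l G) (x : Fin 4 → ℂ) :
    HV G ((FF a b)^[n] x) = l • (FF a b)^[n] (HV G x) := by
  have h1 := h.rel_cons 0 x
  ext i
  have := congrFun h1 i.succ
  simpa using this

lemma rel_0 (h : Good' a b n q l G) (x : Fin 4 → ℂ) :
    ((fse G 0).map (MvPolynomial.eval ((FF a b)^[n] x))).comp (phi a b n x) =
      C l * (phi a b n (HV G x)).comp ((fse G 0).map (MvPolynomial.eval x)) := by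
  refine Polynomial.funext fun z => ?_
  have := congrFun (h.rel_cons z x) 0
  simpa using this

/-- the leading coefficient in the fibre coordinate -/
noncomputable def kap (G : Fin 5 → MvPolynomial (Fin 5) ℂ) : ℂ := GV G (Fin.cons 1 0) 0

lemma lc0 (h : Good' a b n q l G) (x : Fin 4 → ℂ) :
    LC ((fse G 0).map (MvPolynomial.eval x)) q (kap G) := by
  refine ⟨natDegree_map_le.trans (h.toGood.fse_natDegree_le 0), ?_⟩
  have h0 : ((fse G 0).coeff q).IsHomogeneous 0 :=
    (h.hom 0).finSuccEquiv_coeff_isHomogeneous q 0 (add_zero q)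
  have h1 : ∀ x, MvPolynomial.eval x ((fse G 0).coeff q) =
      MvPolynomial.eval 0 ((fse G 0).coeff q) := by
    intro x
    have := hom_smul h0 0 x
    rw [zero_smul, pow_zero, one_mul] at this
    exact this.symm
  rw [coeff_map, h1, ← coeff_map]
  have h2 : (fse G 0).map (MvPolynomial.eval 0) = C (kap G) * X ^ q := by
    refine Polynomial.funext fun z => ?_
    rw [fse_eval]
    have h3 : (Fin.cons z 0 : Fin 5 → ℂ) = z • Fin.cons 1 0 := by
      ext i
      refine Fin.cases ?_ (fun j => ?_) i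
      · simp
      · simp
    rw [h3]
    simp only [GV, hom_smul (h.hom 0), eval_mul, eval_C, eval_pow, eval_X, kap]
    ring
  rw [h2, coeff_C_mul_X_pow, if_pos rfl]

lemma HV_zero (h : Good' a b n q l G) : HV G 0 = 0 := by
  ext i
  have := hom_smul (h.hom_HH i) 0 0
  rw [zero_smul, zero_pow (by have := h.hq; omega), zero_mul] at this
  exact this

lemma kap_ne (h : Good' a b n q l G) : kap G ≠ 0 := by
  intro h0
  have h1 : (Fin.cons 1 0 : Fin 5 → ℂ) ≠ 0 := by
    intro h2
    exact one_ne_zero (congrFun h2 0)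
  apply h.ne _ h1
  ext i
  refine Fin.cases ?_ (fun j => ?_) i
  · exact h0
  · rw [h.succ_eval, h.HV_zero]; rfl

lemma deg0 (h : Good' a b n q l G) (x : Fin 4 → ℂ) :
    ((fse G 0).map (MvPolynomial.eval x)).natDegree = q := (h.lc0 x).natDegree_eq h.kap_ne

lemma HV_ne (h : Good' a b n q l G) {x : Fin 4 → ℂ} (hx : x ≠ 0) : HV G x ≠ 0 := by
  intro h0
  obtain ⟨z, hz⟩ := exists_root_of_LC (h.lc0 x) h.kap_ne (by have := h.hq; omega)
  refine h.ne (Fin.cons z x) ?_ ?_
  · intro h1
    apply hx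
    ext i
    exact congrFun h1 i.succ
  · rw [h.gv_eq, hz, h0]
    ext i
    refine Fin.cases ?_ (fun j => ?_) i <;> simp

lemma lt_pow (h : Good' a b n q l G) : q < 5 ^ n :=
  lt_of_lt_of_le h.hbig (Nat.pow_le_pow_right (by norm_num) (Nat.div_le_self _ _))

lemma lt_pow' (h : Good' a b n q l G) : q < 5 ^ (n - 1) :=
  lt_of_lt_of_le h.hbig (Nat.pow_le_pow_right (by norm_num) (by have := h.hn; omega))

/-- the scalar claim at a point -/
lemma pq_pt (h : Good' a b n q l G) {x : Fin 4 → ℂ} (hx : PQ (HV G x) ≠ 0) :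
    ∃ s : ℕ, q = 5 ^ s ∧ PQ (HV G x) = kap G ^ 5 * PQ ((FF a b)^[s] x) := by
  obtain ⟨s, τ, hs, hr, he⟩ := scalar_claim q n n (fun i => PQ ((FF a b)^[i] x))
    (fun i => PQ ((FF a b)^[i] (HV G x))) ((fse G 0).map (MvPolynomial.eval x))
    ((fse G 0).map (MvPolynomial.eval ((FF a b)^[n] x))) l h.lne h.hq (h.deg0 x) h.hn h.lt_pow'
    hx (h.rel_0 x)
  refine ⟨s, hs, ?_⟩
  have hτ : τ = kap G := by
    have h1 := (h.lc0 x).co
    rw [hr, coeff_C_mul, hs] at h1
    have h2 := (cmp_natDegree (fun i => PQ ((FF a b)^[i] x)) s).2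
    rw [Monic, leadingCoeff, (cmp_natDegree (fun i => PQ ((FF a b)^[i] x)) s).1] at h2
    rw [h2, mul_one] at h1
    exact h1
  rw [← hτ]
  exact he

/-- the scalar claim everywhere -/
lemma pq_all (h : Good' a b n q l G) {x₀ : Fin 4 → ℂ} (hx : PQ (HV G x₀) ≠ 0) :
    ∃ s : ℕ, q = 5 ^ s ∧ ∀ x, PQ (HV G x) = kap G ^ 5 * PQ ((FF a b)^[s] x) := by
  obtain ⟨s, hs, -⟩ := h.pq_pt hx
  refine ⟨s, hs, fun x => ?_⟩
  set w : M4 := PQ (HH G) with hw
  have hwx : ∀ x, MvPolynomial.eval x w = PQ (HV G x) := by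
    intro x
    simp only [hw, PQ, map_add, map_mul, map_pow, HV]
  have hw0 : w ≠ 0 := by
    intro h0
    apply hx
    rw [← hwx, h0, map_zero]
  set w' : M4 := w - MvPolynomial.C (kap G ^ 5) * PQ (Fp a b s) with hw'
  have hwx' : ∀ x, MvPolynomial.eval x w' = PQ (HV G x) - kap G ^ 5 * PQ ((FF a b)^[s] x) := by
    intro x
    rw [hw', map_sub, map_mul, hwx, MvPolynomial.eval_C, eval_PQ_Fp]
  have hprod : w * w' = 0 := by
    refine MvPolynomial.funext fun x => ?_
    rw [map_mul, map_zero, hwx, hwx']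
    by_cases h1 : PQ (HV G x) = 0
    · rw [h1, zero_mul]
    · obtain ⟨s', hs', h2⟩ := h.pq_pt h1
      have : s' = s := Nat.pow_right_injective (le_refl 2 |>.trans (by norm_num)) (hs'.symm.trans hs)
      rw [← this, h2]
      ring
  have h3 := (mul_eq_zero.1 hprod).resolve_left hw0
  have h4 := hwx' x
  rw [h3, map_zero] at h4
  linear_combination -h4

end Good'

end Pool.Agent.TH147.DM
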