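import Pool.Agent.TH147.DM.Core2

/-!
Maps commuting with an iterate: the base part is an iterate of the base map.
-/

set_option autoImplicit false
set_option linter.unusedSectionVars false

open Polynomial

namespace Pool.Agent.TH147.DM

open Pool.Agent.Results.MP_0a826e_ag.LattesDiagonal

variable {a b : ℂ} {n q : ℕ} {l : ℂ} {G : Fin 5 → MvPolynomial (Fin 5) ℂ}

/-- a form of positive degree has a nontrivial zero on every line through two vectors -/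
lemma two_var {h : M4} (hq : 1 ≤ q) (hh : h.IsHomogeneous q) (p p' : Fin 4 → ℂ) :
    ∃ u v : ℂ, (u ≠ 0 ∨ v ≠ 0) ∧ MvPolynomial.eval (u • p + v • p') h = 0 := by
  set A : ℂ[X] := MvPolynomial.aeval (fun i => X * C (p i) + C (p' i)) h with hA
  have hAe : ∀ t, A.eval t = MvPolynomial.eval (t • p + (1 : ℂ) • p') h := by
    intro t
    rw [hA, eval_aeval_poly]
    congr 2
    ext i
    simp
    ring
  set B : ℂ[X] := MvPolynomial.aeval (fun i => C (p i) + X * C (p' i)) h with hB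
  have hBe : ∀ t, B.eval t = MvPolynomial.eval ((1 : ℂ) • p + t • p') h := by
    intro t
    rw [hB, eval_aeval_poly]
    congr 2
    ext i
    simp
    ring
  by_cases hd : A.natDegree = 0
  · have hA0 : ∀ t, A.eval t = A.coeff 0 := by
      intro t
      rw [eq_C_of_natDegree_eq_zero hd]; simp
    have h1 : ∀ t : ℂ, t ≠ 0 → (B - C (A.coeff 0) * X ^ q).eval t = 0 := by
      intro t ht
      rw [eval_sub, eval_mul, eval_C, eval_pow, eval_X, hBe, ← hA0 t⁻¹, hAe]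
      have h2 : (1 : ℂ) • p + t • p' = t • (t⁻¹ • p + (1 : ℂ) • p') := by
        rw [smul_add, smul_smul, mul_inv_cancel₀ ht, smul_smul, mul_one]
      rw [h2, hom_smul hh]
      ring
    have h2 := poly_zero_of_ne h1 0
    rw [eval_sub, eval_mul, eval_C, eval_pow, eval_X, zero_pow (by omega), mul_zero, sub_zero,
      hBe] at h2
    exact ⟨1, 0, Or.inl one_ne_zero, h2⟩
  · obtain ⟨t, ht⟩ := IsAlgClosed.exists_root A (by
      intro h0
      exact hd (natDegree_eq_of_degree_eq_some (n := 0) (by exact_mod_cast h0)))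
    exact ⟨t, 1, Or.inr one_ne_zero, (hAe t).symm.trans ht⟩

lemma two_var_fst {h : M4} (hq : 1 ≤ q) (hh : h.IsHomogeneous q) :
    ∃ p : ℂ × ℂ, p ≠ 0 ∧ MvPolynomial.eval (quad p 0) h = 0 := by
  obtain ⟨u, v, huv, h0⟩ := two_var hq hh ![1, 0, 0, 0] ![0, 1, 0, 0]
  refine ⟨(u, v), ?_, ?_⟩
  · intro h1
    rcases huv with h2 | h2
    · exact h2 (congrArg Prod.fst h1)
    · exact h2 (congrArg Prod.snd h1)
  · have : u • ![(1 : ℂ), 0, 0, 0] + v • ![0, 1, 0, 0] = quad (u, v) 0 := by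
      ext i
      fin_cases i <;> simp [quad]
    rw [← this]
    exact h0

lemma two_var_snd {h : M4} (hq : 1 ≤ q) (hh : h.IsHomogeneous q) :
    ∃ p : ℂ × ℂ, p ≠ 0 ∧ MvPolynomial.eval (quad 0 p) h = 0 := by
  obtain ⟨u, v, huv, h0⟩ := two_var hq hh ![0, 0, 1, 0] ![0, 0, 0, 1]
  refine ⟨(u, v), ?_, ?_⟩
  · intro h1
    rcases huv with h2 | h2
    · exact h2 (congrArg Prod.fst h1)
    · exact h2 (congrArg Prod.snd h1)
  · have : u • ![(0 : ℂ), 0, 1, 0] + v • ![0, 0, 0, 1] = quad 0 (u, v) := by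
      ext i
      fin_cases i <;> simp [quad]
    rw [← this]
    exact h0

lemma sc01_quad (t : ℂ) (p p' : ℂ × ℂ) : sc e01 t (quad p p') = quad (t * p.1, t * p.2) p' := by
  ext i
  fin_cases i <;> simp [sc, e01, quad]

lemma sc23_quad (t : ℂ) (p p' : ℂ × ℂ) : sc e23 t (quad p p') = quad p (t * p'.1, t * p'.2) := by
  ext i
  fin_cases i <;> simp [sc, e23, quad]

lemma sc01_zero (p p' : ℂ × ℂ) : sc e01 0 (quad p p') = quad 0 p' := by
  rw [sc01_quad, zero_mul, zero_mul]; rfl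

lemma sc23_zero (p p' : ℂ × ℂ) : sc e23 0 (quad p p') = quad p 0 := by
  rw [sc23_quad, zero_mul, zero_mul]; rfl

namespace Good'

lemma pairA (h : Good' a b n q l G) (x : Fin 4 → ℂ) :
    (AA a)^[n] (MvPolynomial.eval x (HH G 0), MvPolynomial.eval x (HH G 1)) =
      (l⁻¹ * MvPolynomial.eval ((FF a b)^[n] x) (HH G 0),
        l⁻¹ * MvPolynomial.eval ((FF a b)^[n] x) (HH G 1)) := by
  have h1 := h.rel_H x
  have h2 : (FF a b)^[n] (HV G x) = quad ((AA a)^[n] (HV G x 0, HV G x 1))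
      ((AA b)^[n] (HV G x 2, HV G x 3)) := by
    rw [← FF_iter_quad, quad_eta]
  rw [h2] at h1
  have e1 : MvPolynomial.eval ((FF a b)^[n] x) (HH G 0) =
      l * ((AA a)^[n] (HV G x 0, HV G x 1)).1 := congrFun h1 0
  have e2 : MvPolynomial.eval ((FF a b)^[n] x) (HH G 1) =
      l * ((AA a)^[n] (HV G x 0, HV G x 1)).2 := congrFun h1 1
  rw [e1, e2, inv_mul_cancel_left₀ h.lne, inv_mul_cancel_left₀ h.lne]
  rfl

lemma pairB (h : Good' a b n q l G) (x : Fin 4 → ℂ) :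
    (AA b)^[n] (MvPolynomial.eval x (HH G 2), MvPolynomial.eval x (HH G 3)) =
      (l⁻¹ * MvPolynomial.eval ((FF a b)^[n] x) (HH G 2),
        l⁻¹ * MvPolynomial.eval ((FF a b)^[n] x) (HH G 3)) := by
  have h1 := h.rel_H x
  have h2 : (FF a b)^[n] (HV G x) = quad ((AA a)^[n] (HV G x 0, HV G x 1))
      ((AA b)^[n] (HV G x 2, HV G x 3)) := by
    rw [← FF_iter_quad, quad_eta]
  rw [h2] at h1
  have e1 : MvPolynomial.eval ((FF a b)^[n] x) (HH G 2) =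
      l * ((AA b)^[n] (HV G x 2, HV G x 3)).1 := congrFun h1 2
  have e2 : MvPolynomial.eval ((FF a b)^[n] x) (HH G 3) =
      l * ((AA b)^[n] (HV G x 2, HV G x 3)).2 := congrFun h1 3
  rw [e1, e2, inv_mul_cancel_left₀ h.lne, inv_mul_cancel_left₀ h.lne]
  rfl

/-- bidegrees of the base part -/
structure Bi (G : Fin 5 → MvPolynomial (Fin 5) ℂ) (q m m' k k' : ℕ) : Prop where
  s1 : m + m' = q
  s2 : k + k' = q
  A : ∀ t x, HV G (sc e01 t x) = ![t ^ m * HV G x 0, t ^ m * HV G x 1, t ^ k * HV G x 2,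
    t ^ k * HV G x 3]
  B : ∀ t x, HV G (sc e23 t x) = ![t ^ m' * HV G x 0, t ^ m' * HV G x 1, t ^ k' * HV G x 2,
    t ^ k' * HV G x 3]

lemma exists_bi (h : Good' a b n q l G) : ∃ m m' k k', Bi G q m m' k k' := by
  have hn : 1 ≤ n := by have := h.hn; omega
  obtain ⟨m, m', h1, h2⟩ := bideg h.ha h.hb h.ha hn h.lne h.lt_pow (h.hom_HH 0) (h.hom_HH 1) h.pairA
  obtain ⟨k, k', h3, h4⟩ := bideg h.ha h.hb h.hb hn h.lne h.lt_pow (h.hom_HH 2) (h.hom_HH 3) h.pairB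
  refine ⟨m, m', k, k', h1, h3, fun t x => ?_, fun t x => ?_⟩
  · ext i
    fin_cases i
    · exact (h2 t x).1.1
    · exact (h2 t x).1.2
    · exact (h4 t x).1.1
    · exact (h4 t x).1.2
  · ext i
    fin_cases i
    · exact (h2 t x).2.1
    · exact (h2 t x).2.2
    · exact (h4 t x).2.1
    · exact (h4 t x).2.2

lemma quad_ne_fst {p : ℂ × ℂ} (p' : ℂ × ℂ) (hp : p ≠ 0) : quad p p' ≠ 0 := fun h =>
  hp (Prod.ext (congrFun h 0) (congrFun h 1))

lemma quad_ne_snd (p : ℂ × ℂ) {p' : ℂ × ℂ} (hp : p' ≠ 0) : quad p p' ≠ 0 := fun h =>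
  hp (Prod.ext (congrFun h 2) (congrFun h 3))

/-- the two possibilities for the bidegrees -/
lemma bi_cases (h : Good' a b n q l G) {m m' k k' : ℕ} (hB : Bi G q m m' k k') :
    (m = q ∧ m' = 0 ∧ k = 0 ∧ k' = q) ∨ (m = 0 ∧ m' = q ∧ k = q ∧ k' = 0) := by
  have hq := h.hq
  have h1 := hB.s1
  have h2 := hB.s2
  have hp : ((1, 0) : ℂ × ℂ) ≠ 0 := fun h => one_ne_zero (congrArg Prod.fst h)
  -- the second block is zero
  have c1 : m' = 0 ∨ k' = 0 := by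
    by_contra hcon
    push Not at hcon
    apply h.HV_ne (quad_ne_fst 0 hp)
    rw [← sc23_zero (1, 0) 0, hB.B, zero_pow hcon.1, zero_pow hcon.2]
    ext i; fin_cases i <;> simp
  have c2 : m = 0 ∨ k = 0 := by
    by_contra hcon
    push Not at hcon
    apply h.HV_ne (quad_ne_snd 0 hp)
    rw [← sc01_zero 0 (1, 0), hB.A, zero_pow hcon.1, zero_pow hcon.2]
    ext i; fin_cases i <;> simp
  omega

/-- the swapped case does not occur -/
lemma no_swap (h : Good' a b n q l G) (hB : Bi G q 0 q q 0) : False := by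
  have hq := h.hq
  have hv : ∀ p p', HV G (quad 0 p') = ![HV G (quad p p') 0, HV G (quad p p') 1, 0, 0] := by
    intro p p'
    rw [← sc01_zero p p', hB.A]
    simp [zero_pow (show q ≠ 0 by omega)]
  obtain ⟨p, hp, hp0⟩ := two_var_snd hq (h.hom_HH 1)
  have h1 : PQ (HV G (quad 0 p)) ≠ 0 := by
    have h2 := hv 0 p
    have h3 : HV G (quad 0 p) 0 ≠ 0 := by
      intro h4
      apply h.HV_ne (quad_ne_snd 0 hp)
      have h5 : HV G (quad 0 p) 1 = 0 := hp0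
      rw [h2, h4, h5]
      ext i; fin_cases i <;> simp
    rw [h2]
    simp only [PQ, Matrix.cons_val_zero, Matrix.cons_val]
    simpa using h3
  obtain ⟨s, -, hs⟩ := h.pq_all h1
  apply h1
  rw [hs, FF_iter_quad]
  have h0 : (AA a)^[s] (0 : ℂ × ℂ) = 0 := Function.iterate_fixed (by simp [AA, A0, A1]) s
  rw [h0]
  simp [PQ, quad]

lemma coeffs {A B C D : ℂ} (h : ∀ T : ℂ, A * T ^ 5 + B * T ^ 4 + C * T ^ 3 + D * T ^ 2 = 0) :
    A = 0 ∧ B = 0 ∧ C = 0 ∧ D = 0 := by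
  have h1 := h 1
  have h2 := h (-1)
  have h3 := h 2
  have h4 := h (-2)
  norm_num at h1 h2 h3 h4
  refine ⟨?_, ?_, ?_, ?_⟩
  · linear_combination (-1 / 6 : ℂ) * h1 + (1 / 6 : ℂ) * h2 + (1 / 48 : ℂ) * h3 - (1 / 48 : ℂ) * h4
  · linear_combination (-1 / 6 : ℂ) * h1 - (1 / 6 : ℂ) * h2 + (1 / 24 : ℂ) * h3 + (1 / 24 : ℂ) * h4
  · linear_combination (2 / 3 : ℂ) * h1 - (2 / 3 : ℂ) * h2 - (1 / 48 : ℂ) * h3 + (1 / 48 : ℂ) * h4
  · linear_combination (2 / 3 : ℂ) * h1 + (2 / 3 : ℂ) * h2 - (1 / 24 : ℂ) * h3 - (1 / 24 : ℂ) * h4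

/-- **The base part is projectively an iterate of the base map.** -/
theorem split (h : Good' a b n q l G) : ∃ s, q = 5 ^ s ∧ Bi G q q 0 0 q ∧
    ∀ x, HV G x 0 * (FF a b)^[s] x 1 = HV G x 1 * (FF a b)^[s] x 0 ∧
      HV G x 2 * (FF a b)^[s] x 3 = HV G x 3 * (FF a b)^[s] x 2 := by
  have hq := h.hq
  obtain ⟨m, m', k, k', hB⟩ := h.exists_bi
  rcases h.bi_cases hB with ⟨q1, q2, q3, q4⟩ | ⟨q1, q2, q3, q4⟩
  swap
  · rw [q1, q2, q3, q4] at hB
    exact (h.no_swap hB).elim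
  rw [q1, q2, q3, q4] at hB
  have hv : ∀ p p', HV G (quad p 0) = ![HV G (quad p p') 0, HV G (quad p p') 1, 0, 0] := by
    intro p p'
    rw [← sc23_zero p p', hB.B]
    simp [zero_pow (show q ≠ 0 by omega)]
  obtain ⟨p, hp, hp0⟩ := two_var_fst hq (h.hom_HH 1)
  have h1 : PQ (HV G (quad p 0)) ≠ 0 := by
    have h2 := hv p 0
    have h3 : HV G (quad p 0) 0 ≠ 0 := by
      intro h4
      apply h.HV_ne (quad_ne_fst 0 hp)
      have h5 : HV G (quad p 0) 1 = 0 := hp0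
      rw [h2, h4, h5]
      ext i; fin_cases i <;> simp
    rw [h2]
    simp only [PQ, Matrix.cons_val_zero, Matrix.cons_val]
    simpa using h3
  obtain ⟨s, hqs, hs⟩ := h.pq_all h1
  refine ⟨s, hqs, hB, ?_⟩
  set κ := kap G with hκ
  have hκ0 : κ ≠ 0 := h.kap_ne
  have hcomp : ∀ x, (HV G x 0 ^ 5 = κ ^ 5 * (FF a b)^[s] x 0 ^ 5) ∧
      (HV G x 0 ^ 4 * HV G x 2 = κ ^ 5 * ((FF a b)^[s] x 0 ^ 4 * (FF a b)^[s] x 2)) ∧
      (HV G x 0 ^ 3 * HV G x 2 * HV G x 3 =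
        κ ^ 5 * ((FF a b)^[s] x 0 ^ 3 * (FF a b)^[s] x 2 * (FF a b)^[s] x 3)) ∧
      (HV G x 0 * HV G x 1 * HV G x 2 ^ 3 =
        κ ^ 5 * ((FF a b)^[s] x 0 * (FF a b)^[s] x 1 * (FF a b)^[s] x 2 ^ 3)) := by
    intro x
    have hT : ∀ T : ℂ, (HV G x 0 ^ 5 - κ ^ 5 * (FF a b)^[s] x 0 ^ 5) * T ^ 5 +
        (HV G x 0 ^ 4 * HV G x 2 - κ ^ 5 * ((FF a b)^[s] x 0 ^ 4 * (FF a b)^[s] x 2)) * T ^ 4 +
        (HV G x 0 ^ 3 * HV G x 2 * HV G x 3 -
          κ ^ 5 * ((FF a b)^[s] x 0 ^ 3 * (FF a b)^[s] x 2 * (FF a b)^[s] x 3)) * T ^ 3 +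
        (HV G x 0 * HV G x 1 * HV G x 2 ^ 3 -
          κ ^ 5 * ((FF a b)^[s] x 0 * (FF a b)^[s] x 1 * (FF a b)^[s] x 2 ^ 3)) * T ^ 2 = 0 := by
      intro T
      obtain ⟨t, ht⟩ := IsAlgClosed.exists_pow_nat_eq T (n := q) (by omega)
      have h2 := hs (sc e01 t x)
      rw [hB.A, FF_iter_sc (e := e01) rfl rfl, ← hqs, ht] at h2
      simp only [PQ, sc, e01, Matrix.cons_val_zero, Matrix.cons_val, pow_zero, pow_one,
        one_mul] at h2
      linear_combination h2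
    obtain ⟨c1, c2, c3, c4⟩ := coeffs hT
    exact ⟨sub_eq_zero.1 c1, sub_eq_zero.1 c2, sub_eq_zero.1 c3, sub_eq_zero.1 c4⟩
  -- generic equalities
  have hgen : ∀ x, (FF a b)^[s] x 0 ≠ 0 → (FF a b)^[s] x 2 ≠ 0 →
      HV G x 0 * (FF a b)^[s] x 1 = HV G x 1 * (FF a b)^[s] x 0 ∧
      HV G x 2 * (FF a b)^[s] x 3 = HV G x 3 * (FF a b)^[s] x 2 := by
    intro x hf0 hf2
    obtain ⟨c1, c2, c3, c4⟩ := hcomp x
    set f0 := (FF a b)^[s] x 0
    set f1 := (FF a b)^[s] x 1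
    set f2 := (FF a b)^[s] x 2
    set f3 := (FF a b)^[s] x 3
    set g0 := HV G x 0
    set g1 := HV G x 1
    set g2 := HV G x 2
    set g3 := HV G x 3
    have hg0 : g0 ≠ 0 := by
      intro h0
      rw [h0, zero_pow (by norm_num)] at c1
      exact mul_ne_zero (pow_ne_zero 5 hκ0) (pow_ne_zero 5 hf0) c1.symm
    have hg2 : g2 ≠ 0 := by
      intro h0
      rw [h0, mul_zero] at c2
      exact mul_ne_zero (pow_ne_zero 5 hκ0) (mul_ne_zero (pow_ne_zero 4 hf0) hf2) c2.symm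
    have d1 : g2 * f0 = g0 * f2 := by
      refine mul_left_cancel₀ (mul_ne_zero (pow_ne_zero 4 hg0) (pow_ne_zero 4 hf0)) ?_
      linear_combination f0 ^ 5 * c2 - f0 ^ 4 * f2 * c1
    have d2 : g3 * f0 = g0 * f3 := by
      refine mul_left_cancel₀ (mul_ne_zero (mul_ne_zero (pow_ne_zero 3 hg0) hg2)
        (mul_ne_zero (pow_ne_zero 3 hf0) hf2)) ?_
      linear_combination f0 ^ 4 * f2 * c3 - f0 ^ 3 * f2 * f3 * c2
    have d3 : g2 * f3 = g3 * f2 := by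
      refine mul_left_cancel₀ hf0 ?_
      linear_combination f3 * d1 - f2 * d2
    refine ⟨?_, d3⟩
    -- g1 f0 = g0 f1
    have d4 : g2 ^ 2 * f0 ^ 2 = g0 ^ 2 * f2 ^ 2 := by
      linear_combination (g2 * f0 + g0 * f2) * d1
    refine mul_left_cancel₀ (mul_ne_zero (mul_ne_zero (pow_ne_zero 3 hg0) hg2)
      (pow_ne_zero 2 hf2)) ?_
    linear_combination f1 * f2 ^ 2 * c2 - f0 ^ 3 * c4 + g0 * g1 * g2 * f0 * d4
  -- polynomial identities
  have hW0 : Fp a b s 0 * Fp a b s 2 ≠ 0 := by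
    obtain ⟨x, hx⟩ := FF_surj h.ha h.hb s (fun _ => 1)
    intro h0
    have h2 := congrArg (MvPolynomial.eval x) h0
    rw [map_mul, eval_Fp, eval_Fp, hx, map_zero] at h2
    norm_num at h2
  have hpoly : ∀ W : M4, (∀ x, (FF a b)^[s] x 0 ≠ 0 → (FF a b)^[s] x 2 ≠ 0 →
      MvPolynomial.eval x W = 0) → ∀ x, MvPolynomial.eval x W = 0 := by
    intro W hW
    have h2 : (Fp a b s 0 * Fp a b s 2) * W = 0 := by
      refine MvPolynomial.funext fun x => ?_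
      rw [map_mul, map_mul, map_zero, eval_Fp, eval_Fp]
      by_cases h3 : (FF a b)^[s] x 0 = 0
      · rw [h3]; simp
      · by_cases h4 : (FF a b)^[s] x 2 = 0
        · rw [h4]; simp
        · rw [hW x h3 h4, mul_zero]
    intro x
    rw [(mul_eq_zero.1 h2).resolve_left hW0, map_zero]
  intro x
  constructor
  · have h2 := hpoly (HH G 0 * Fp a b s 1 - HH G 1 * Fp a b s 0) (fun x h3 h4 => by
      rw [map_sub, map_mul, map_mul, eval_Fp, eval_Fp]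
      exact sub_eq_zero.2 (hgen x h3 h4).1) x
    rw [map_sub, map_mul, map_mul, eval_Fp, eval_Fp] at h2
    exact sub_eq_zero.1 h2
  · have h2 := hpoly (HH G 2 * Fp a b s 3 - HH G 3 * Fp a b s 2) (fun x h3 h4 => by
      rw [map_sub, map_mul, map_mul, eval_Fp, eval_Fp]
      exact sub_eq_zero.2 (hgen x h3 h4).2) x
    rw [map_sub, map_mul, map_mul, eval_Fp, eval_Fp] at h2
    exact sub_eq_zero.1 h2

/-- **The induced maps on the projective lines.** -/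
theorem concl (h : Good' a b n q l G) : ∃ s, q = 5 ^ s ∧ ∀ v : Fin 5 → ℂ,
    ((v 1, v 2) ≠ (0 : ℂ × ℂ) → (GV G v 1, GV G v 2) ≠ (0 : ℂ × ℂ) ∧
      pt (GV G v 1) (GV G v 2) = (fm a)^[s] (pt (v 1) (v 2))) ∧
    ((v 1, v 2) = (0 : ℂ × ℂ) → (GV G v 1, GV G v 2) = (0 : ℂ × ℂ)) ∧
    ((v 3, v 4) ≠ (0 : ℂ × ℂ) → (GV G v 3, GV G v 4) ≠ (0 : ℂ × ℂ) ∧
      pt (GV G v 3) (GV G v 4) = (fm b)^[s] (pt (v 3) (v 4))) ∧
    ((v 3, v 4) = (0 : ℂ × ℂ) → (GV G v 3, GV G v 4) = (0 : ℂ × ℂ)) := by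
  have hq := h.hq
  obtain ⟨s, hqs, hB, hdet⟩ := h.split
  refine ⟨s, hqs, fun v => ?_⟩
  set x : Fin 4 → ℂ := quad (v 1, v 2) (v 3, v 4) with hx
  have hv : v = Fin.cons (v 0) x := (vec_eta v).symm
  have hG : GV G v = Fin.cons (((fse G 0).map (MvPolynomial.eval x)).eval (v 0)) (HV G x) := by
    rw [← h.gv_eq, ← hv]
  have g1 : GV G v 1 = HV G x 0 := by rw [hG]; rfl
  have g2 : GV G v 2 = HV G x 1 := by rw [hG]; rfl
  have g3 : GV G v 3 = HV G x 2 := by rw [hG]; rfl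
  have g4 : GV G v 4 = HV G x 3 := by rw [hG]; rfl
  have hF : (FF a b)^[s] x = quad ((AA a)^[s] (v 1, v 2)) ((AA b)^[s] (v 3, v 4)) :=
    FF_iter_quad s _ _
  obtain ⟨d1, d2⟩ := hdet x
  rw [g1, g2, g3, g4]
  have f0 : (FF a b)^[s] x 0 = ((AA a)^[s] (v 1, v 2)).1 := by rw [hF]; rfl
  have f1 : (FF a b)^[s] x 1 = ((AA a)^[s] (v 1, v 2)).2 := by rw [hF]; rfl
  have f2 : (FF a b)^[s] x 2 = ((AA b)^[s] (v 3, v 4)).1 := by rw [hF]; rfl
  have f3 : (FF a b)^[s] x 3 = ((AA b)^[s] (v 3, v 4)).2 := by rw [hF]; rfl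
  rw [f0, f1] at d1
  rw [f2, f3] at d2
  have hz1 : HV G (quad (v 1, v 2) 0) = ![HV G x 0, HV G x 1, 0, 0] := by
    rw [← sc23_zero (v 1, v 2) (v 3, v 4), hB.B]
    simp [zero_pow (show q ≠ 0 by omega), hx]
  have hz2 : HV G (quad 0 (v 3, v 4)) = ![0, 0, HV G x 2, HV G x 3] := by
    rw [← sc01_zero (v 1, v 2) (v 3, v 4), hB.A]
    simp [zero_pow (show q ≠ 0 by omega), hx]
  have n1 : (v 1, v 2) ≠ (0 : ℂ × ℂ) → (HV G x 0, HV G x 1) ≠ (0 : ℂ × ℂ) := by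
    intro hne h0
    apply h.HV_ne (quad_ne_fst 0 hne)
    rw [hz1, show HV G x 0 = 0 from congrArg Prod.fst h0, show HV G x 1 = 0 from congrArg Prod.snd h0]
    ext i; fin_cases i <;> simp
  have n2 : (v 3, v 4) ≠ (0 : ℂ × ℂ) → (HV G x 2, HV G x 3) ≠ (0 : ℂ × ℂ) := by
    intro hne h0
    apply h.HV_ne (quad_ne_snd 0 hne)
    rw [hz2, show HV G x 2 = 0 from congrArg Prod.fst h0, show HV G x 3 = 0 from congrArg Prod.snd h0]
    ext i; fin_cases i <;> simp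
  refine ⟨fun hne => ⟨n1 hne, ?_⟩, fun h0 => ?_, fun hne => ⟨n2 hne, ?_⟩, fun h0 => ?_⟩
  · have e := fm_iter_pt a s (v 1, v 2)
    rw [show pt (v 1) (v 2) = pt (v 1, v 2).1 (v 1, v 2).2 from rfl, e,
      pt_det (n1 hne) (AA_iter_ne h.ha hne s)]
    exact d1
  · rw [h0] at hz1
    have h2 : quad (0 : ℂ × ℂ) 0 = 0 := quad_zero
    rw [h2, h.HV_zero] at hz1
    exact Prod.ext (congrFun hz1 0).symm (congrFun hz1 1).symm
  · have e := fm_iter_pt b s (v 3, v 4)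
    rw [show pt (v 3) (v 4) = pt (v 3, v 4).1 (v 3, v 4).2 from rfl, e,
      pt_det (n2 hne) (AA_iter_ne h.hb hne s)]
    exact d2
  · rw [h0] at hz2
    have h2 : quad (0 : ℂ × ℂ) 0 = 0 := quad_zero
    rw [h2, h.HV_zero] at hz2
    exact Prod.ext (congrFun hz2 2).symm (congrFun hz2 3).symm

end Good'

end Pool.Agent.TH147.DM
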