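import Pool.Agent.TH147.DM.Zall

/-!
Preperiodic points are dense in the quadric.
-/

set_option autoImplicit false
set_option linter.unusedSectionVars false

open Polynomial

namespace Pool.Agent.TH147.DM

open Pool.Agent.Results.MP_0a826e_ag.LattesDiagonal

variable {a b r : ℂ}

/-- vectors with a finite orbit -/
def VPer (a b : ℂ) (v : Fin 5 → ℂ) : Prop :=
  ∃ i k : ℕ, 1 ≤ k ∧ (PV a b)^[i + k] v = (PV a b)^[i] v

lemma chain {c : ℂ} {p : ℂ × ℂ} {i π : ℕ} {γ : ℂ} (hγ : γ ≠ 0)
    (h : (AA c)^[i + π] p = (γ * ((AA c)^[i] p).1, γ * ((AA c)^[i] p).2)) (k : ℕ) :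
    ∃ γ' : ℂ, γ' ≠ 0 ∧
      (AA c)^[i + k * π] p = (γ' * ((AA c)^[i] p).1, γ' * ((AA c)^[i] p).2) := by
  induction k with
  | zero => exact ⟨1, one_ne_zero, by simp⟩
  | succ k ih =>
    obtain ⟨γ', h1, h2⟩ := ih
    refine ⟨γ ^ 5 ^ (k * π) * γ', mul_ne_zero (pow_ne_zero _ hγ) h1, ?_⟩
    rw [show i + (k + 1) * π = k * π + (i + π) by ring, Function.iterate_add_apply, h,
      AA_iter_smul]
    rw [show i + k * π = k * π + i by ring, Function.iterate_add_apply] at h2
    rw [h2, mul_assoc, mul_assoc]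

lemma scale_fix {c : ℂ} {p : ℂ × ℂ} {i m N : ℕ} {γ α : ℂ}
    (h : (AA c)^[i + m] p = (γ * ((AA c)^[i] p).1, γ * ((AA c)^[i] p).2))
    (hN : N + 5 ^ i = 5 ^ (i + m)) (hα : α ^ N * γ = 1) :
    (AA c)^[i + m] (α * p.1, α * p.2) = (AA c)^[i] (α * p.1, α * p.2) := by
  rw [AA_iter_smul, AA_iter_smul, h, ← hN, pow_add]
  ext
  · show α ^ N * α ^ 5 ^ i * (γ * _) = _
    linear_combination (α ^ 5 ^ i * ((AA c)^[i] p).1) * hα
  · show α ^ N * α ^ 5 ^ i * (γ * _) = _
    linear_combination (α ^ 5 ^ i * ((AA c)^[i] p).2) * hα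

lemma pow_bound (i k π : ℕ) (hπ : 1 ≤ π) : k + 5 ^ i ≤ 5 ^ (i + k * π) := by
  have h1 : k + 1 ≤ 5 ^ k := by
    induction k with
    | zero => simp
    | succ k ih => rw [pow_succ]; omega
  have h2 : 5 ^ k ≤ 5 ^ (k * π) := Nat.pow_le_pow_right (by norm_num) (Nat.le_mul_of_pos_right k hπ)
  have h3 : 1 ≤ 5 ^ i := Nat.one_le_pow _ _ (by norm_num)
  rw [pow_add]
  nlinarith

/-- infinitely many preperiodic vectors over a preperiodic base vector -/
lemma fibre {x : Fin 4 → ℂ} {i P : ℕ} (hP : 1 ≤ P)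
    (h : (FF a b)^[i + P] x = (FF a b)^[i] x) : {ζ : ℂ | VPer a b (Fin.cons ζ x)}.Infinite := by
  set x' := (FF a b)^[i] x with hx'
  have hfix : (FF a b)^[P] x' = x' := by
    rw [hx', ← Function.iterate_add_apply, add_comm P i, h]
  set g := phi a b P x' with hg
  have hdeg : 2 ≤ g.natDegree := by
    rw [hg, phi_natDegree]
    calc 2 ≤ 5 ^ 1 := by norm_num
      _ ≤ 5 ^ P := Nat.pow_le_pow_right (by norm_num) hP
  have hret : ∀ (j : ℕ) (w : ℂ), (PV a b)^[P * j] (Fin.cons w x') =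
      Fin.cons ((fun w => g.eval w)^[j] w) x' := by
    intro j
    induction j with
    | zero => intro w; simp
    | succ j ih =>
      intro w
      rw [mul_add, mul_one, Function.iterate_add_apply, PV_iter_cons, hfix, ih,
        Function.iterate_succ_apply]
  intro hfin
  apply perSet_infinite hdeg
  refine (hfin.image fun ζ => (phi a b i x).eval ζ).subset ?_
  intro w hw
  obtain ⟨ζ, hζ⟩ := phi_surj (a := a) (b := b) i x w
  refine ⟨ζ, ?_, hζ⟩
  obtain ⟨i', k', hk', hw'⟩ := hw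
  refine ⟨P * i' + i, P * k', Nat.le_trans hP (Nat.le_mul_of_pos_right P hk'), ?_⟩
  rw [show P * i' + i + P * k' = P * (i' + k') + i by ring, Function.iterate_add_apply,
    Function.iterate_add_apply, PV_iter_cons, hζ, ← hx', hret, hret, hw']

/-- common return times of the backward orbit -/
lemma exists_return (ha : a ^ 2 = 2 * a - 5) (hb : b = 2 - a) (hr : r ^ 2 = a) {z : ℕ → ℂ}
    (hz : Back a r z) (n : ℕ) : ∃ i π : ℕ, 1 ≤ π ∧
      (fm a)^[i + π] (z n : PLine) = (fm a)^[i] (z n : PLine) ∧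
      (fm b)^[i + π] (z n : PLine) = (fm b)^[i] (z n : PLine) := by
  have h1 := (main ha hb hr hz n).1
  have h2 : ¬ Function.Injective (fun k : ℕ =>
      (splitMap 5 (PP a) (QQ a) (PP b) (QQ b))^[k] (chart (z n, z n))) := by
    intro hinj
    exact Set.infinite_range_of_injective hinj h1
  unfold Function.Injective at h2
  push Not at h2
  obtain ⟨k, k', hkk, hne⟩ := h2
  have key : ∀ k k' : ℕ, k < k' → (splitMap 5 (PP a) (QQ a) (PP b) (QQ b))^[k] (chart (z n, z n)) =
      (splitMap 5 (PP a) (QQ a) (PP b) (QQ b))^[k'] (chart (z n, z n)) →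
      ∃ i π : ℕ, 1 ≤ π ∧ (fm a)^[i + π] (z n : PLine) = (fm a)^[i] (z n : PLine) ∧
      (fm b)^[i + π] (z n : PLine) = (fm b)^[i] (z n : PLine) := by
    intro k k' hlt h
    rw [split_iter, split_iter] at h
    refine ⟨k, k' - k, by omega, ?_, ?_⟩
    · rw [show k + (k' - k) = k' by omega]
      exact (congrArg Prod.fst h).symm
    · rw [show k + (k' - k) = k' by omega]
      exact (congrArg Prod.snd h).symm
  rcases lt_or_gt_of_ne hne with h | h
  · exact key _ _ h hkk
  · exact key _ _ h hkk.symm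

lemma return_vec {c : ℂ} (hc : c ^ 2 = 2 * c - 5) {z : ℂ} {i π : ℕ}
    (h : (fm c)^[i + π] (z : PLine) = (fm c)^[i] (z : PLine)) : ∃ γ : ℂ, γ ≠ 0 ∧
      (AA c)^[i + π] (z, 1) = (γ * ((AA c)^[i] (z, 1)).1, γ * ((AA c)^[i] (z, 1)).2) := by
  refine exists_smul_of_pt (AA_iter_ne hc (pair_ne _) _) (AA_iter_ne hc (pair_ne _) _) ?_
  rw [← fm_iter_pt, ← fm_iter_pt]
  show (fm c)^[i + π] (pt z 1) = (fm c)^[i] (pt z 1)
  rw [pt_one, h]

/-- **Preperiodic points are dense in the quadric.** -/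
theorem dens (ha : a ^ 2 = 2 * a - 5) (hb : b = 2 - a) (hr : r ^ 2 = a)
    {f : MvPolynomial (Fin 5) ℂ}
    (h : ∀ v : Fin 5 → ℂ, v ≠ 0 → v 1 * v 4 = v 2 * v 3 → VPer a b v →
      MvPolynomial.eval v f = 0) (v : Fin 5 → ℂ) (hv : v 1 * v 4 = v 2 * v 3) :
    MvPolynomial.eval v f = 0 := by
  have hb2 : b ^ 2 = 2 * b - 5 := (a_facts ha hb).2.2.2.2.1
  obtain ⟨z, hz⟩ := exists_back ha r
  have claim1 : ∀ (j : ℕ) (ζ α β : ℂ),
      MvPolynomial.eval (vec ζ (α * z j, α) (β * z j, β)) f = 0 := by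
    intro j ζ
    obtain ⟨i, π, hπ, h1, h2⟩ := exists_return ha hb hr hz j
    obtain ⟨γ, hγ, h3⟩ := return_vec ha h1
    obtain ⟨δ, hδ, h4⟩ := return_vec hb2 h2
    set k := f.totalDegree + 1 with hk
    obtain ⟨γ', hγ', h5⟩ := chain hγ h3 k
    obtain ⟨δ', hδ', h6⟩ := chain hδ h4 k
    have hpb := pow_bound i k π hπ
    set N := 5 ^ (i + k * π) - 5 ^ i with hN
    have hN1 : N + 5 ^ i = 5 ^ (i + k * π) := by omega
    have hNk : k ≤ N := by omega
    have hN0 : 0 < N := by omega
    obtain ⟨S, hS, hS1⟩ := exists_roots hN0 (inv_ne_zero hγ')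
    obtain ⟨T, hT, hT1⟩ := exists_roots hN0 (inv_ne_zero hδ')
    have hroot : ∀ {w s : ℂ}, w ≠ 0 → s ^ N = w⁻¹ → s ≠ 0 ∧ s ^ N * w = 1 := by
      intro w s hw hs
      refine ⟨?_, by rw [hs, inv_mul_cancel₀ hw]⟩
      rintro rfl
      rw [zero_pow hN0.ne'] at hs
      exact inv_ne_zero hw hs.symm
    have hST : ∀ α ∈ S, ∀ β ∈ T, ∀ ζ : ℂ,
        MvPolynomial.eval (vec ζ (α * z j, α) (β * z j, β)) f = 0 := by
      intro α hα β hβ
      obtain ⟨hα0, hα1⟩ := hroot hγ' (hS1 α hα)
      obtain ⟨hβ0, hβ1⟩ := hroot hδ' (hT1 β hβ)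
      have e1 := scale_fix h5 hN1 hα1
      have e2 := scale_fix h6 hN1 hβ1
      have e3 : (FF a b)^[i + k * π] (quad (α * z j, α * 1) (β * z j, β * 1)) =
          (FF a b)^[i] (quad (α * z j, α * 1) (β * z j, β * 1)) := by
        rw [FF_iter_quad, FF_iter_quad]
        exact congrArg₂ quad e1 e2
      have hkπ : 1 ≤ k * π := Nat.mul_pos (by omega) hπ
      have hinf := fibre hkπ e3
      intro ζ
      have hp : ∀ ζ : ℂ, (MvPolynomial.aeval (![X, C (α * z j), C α, C (β * z j), C β] :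
          Fin 5 → ℂ[X]) f).eval ζ = MvPolynomial.eval (vec ζ (α * z j, α) (β * z j, β)) f := by
        intro ζ
        rw [eval_aeval_poly]
        congr 2
        ext i
        fin_cases i <;> simp [vec, quad]
      rw [← hp]
      refine poly_zero_of_infinite hinf (fun ζ hζ => ?_) ζ
      rw [hp]
      rw [mul_one, mul_one] at hζ
      refine h _ ?_ ?_ hζ
      · intro h0
        exact hα0 (congrFun h0 2)
      · show α * z j * β = α * (β * z j)
        ring
    have hT2 : ∀ α : ℂ, ∀ β ∈ T, MvPolynomial.eval (vec ζ (α * z j, α) (β * z j, β)) f = 0 := by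
      intro α β hβ
      have hp : ∀ α : ℂ, (MvPolynomial.aeval (![C ζ, X * C (z j), X, C (β * z j), C β] :
          Fin 5 → ℂ[X]) f).eval α = MvPolynomial.eval (vec ζ (α * z j, α) (β * z j, β)) f := by
        intro α
        rw [eval_aeval_poly]
        congr 2
        ext i
        fin_cases i <;> simp [vec, quad, mul_comm (z j)]
      have hd : (MvPolynomial.aeval (![C ζ, X * C (z j), X, C (β * z j), C β] :
          Fin 5 → ℂ[X]) f).natDegree ≤ f.totalDegree * 1 := by
        refine MvPolynomial.aeval_natDegree_le f le_rfl _ fun i => ?_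
        fin_cases i
        · simp
        · exact (natDegree_mul_C_le _ _).trans natDegree_X_le
        · exact natDegree_X_le
        · exact (natDegree_C _).le.trans zero_le_one
        · exact (natDegree_C _).le.trans zero_le_one
      have h0 := eq_zero_of_natDegree_lt_card_of_eval_eq_zero' _ S
        (fun α hα => (hp α).trans (hST α hα β hβ ζ)) (by rw [hS]; omega)
      rw [← hp, h0, eval_zero]
    intro α β
    have hp : ∀ β : ℂ, (MvPolynomial.aeval (![C ζ, C (α * z j), C α, X * C (z j), X] :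
        Fin 5 → ℂ[X]) f).eval β = MvPolynomial.eval (vec ζ (α * z j, α) (β * z j, β)) f := by
      intro β
      rw [eval_aeval_poly]
      congr 2
      ext i
      fin_cases i <;> simp [vec, quad, mul_comm (z j)]
    have hd : (MvPolynomial.aeval (![C ζ, C (α * z j), C α, X * C (z j), X] :
        Fin 5 → ℂ[X]) f).natDegree ≤ f.totalDegree * 1 := by
      refine MvPolynomial.aeval_natDegree_le f le_rfl _ fun i => ?_
      fin_cases i
      · simp
      · exact (natDegree_C _).le.trans zero_le_one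
      · exact (natDegree_C _).le.trans zero_le_one
      · exact (natDegree_mul_C_le _ _).trans natDegree_X_le
      · exact natDegree_X_le
    have h0 := eq_zero_of_natDegree_lt_card_of_eval_eq_zero' _ T
      (fun β hβ => (hp β).trans (hT2 α β hβ)) (by rw [hT]; omega)
    rw [← hp, h0, eval_zero]
  have claim2 : ∀ (s ζ α β : ℂ),
      MvPolynomial.eval (vec ζ (α * s, α) (β * s, β)) f = 0 := by
    intro s ζ α β
    have hp : ∀ s : ℂ, (MvPolynomial.aeval (![C ζ, C α * X, C α, C β * X, C β] :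
        Fin 5 → ℂ[X]) f).eval s = MvPolynomial.eval (vec ζ (α * s, α) (β * s, β)) f := by
      intro s
      rw [eval_aeval_poly]
      congr 2
      ext i
      fin_cases i <;> simp [vec, quad]
    rw [← hp]
    refine poly_zero_of_infinite (Set.infinite_range_of_injective (hz.injective ha hr)) ?_ s
    rintro _ ⟨j, rfl⟩
    rw [hp]
    exact claim1 j ζ α β
  by_cases h2 : v 2 = 0
  · by_cases h4 : v 4 = 0
    · have hp : ∀ t : ℂ, (MvPolynomial.aeval (![C (v 0), C (v 1), C (v 1) * X, C (v 3),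
          C (v 3) * X] : Fin 5 → ℂ[X]) f).eval t =
          MvPolynomial.eval (vec (v 0) (v 1, v 1 * t) (v 3, v 3 * t)) f := by
        intro t
        rw [eval_aeval_poly]
        congr 2
        ext i
        fin_cases i <;> simp [vec, quad]
      have h5 := poly_zero_of_ne (p := MvPolynomial.aeval (![C (v 0), C (v 1), C (v 1) * X, C (v 3),
          C (v 3) * X] : Fin 5 → ℂ[X]) f) (fun t ht => by
            rw [hp]
            have := claim2 t⁻¹ (v 0) (v 1 * t) (v 3 * t)
            rwa [mul_assoc, mul_inv_cancel₀ ht, mul_one, mul_assoc, mul_inv_cancel₀ ht,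
              mul_one] at this) 0
      rw [hp, mul_zero, mul_zero] at h5
      rw [← vec_eta v, h2, h4]
      exact h5
    · have h1 : v 1 = 0 := by
        rw [h2, zero_mul] at hv
        exact (mul_eq_zero.1 hv).resolve_right h4
      have := claim2 (v 3 / v 4) (v 0) 0 (v 4)
      rw [zero_mul, mul_div_cancel₀ _ h4] at this
      rw [← vec_eta v, h1, h2]
      exact this
  · have := claim2 (v 1 / v 2) (v 0) (v 2) (v 4)
    rw [mul_div_cancel₀ _ h2] at this
    have h3 : v 4 * (v 1 / v 2) = v 3 := by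
      field_simp
      linear_combination hv
    rw [h3] at this
    rw [← vec_eta v]
    exact this

end Pool.Agent.TH147.DM
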