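import Pool.Agent.TH147.DM.Lead

/-!
Polynomials `r` with `r' ∘ cmp c n = λ cmp e n' ∘ r`.
-/

set_option autoImplicit false
set_option linter.unusedSectionVars false

open Polynomial

namespace Pool.Agent.TH147.DM

/-- a primitive fifth root of unity -/
noncomputable def zt : ℂ := Complex.exp (2 * Real.pi * Complex.I / (5 : ℕ))

lemma zt_prim : IsPrimitiveRoot zt 5 := Complex.isPrimitiveRoot_exp 5 (by norm_num)

lemma zt_ne : zt ≠ 0 := zt_prim.ne_zero (by norm_num)

lemma zt_pow_eq {i j : ℕ} (h : zt ^ i = zt ^ j) : i % 5 = j % 5 := by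
  have h0 := zt_ne
  have h1 : zt ^ (i % 5) = zt ^ (j % 5) := by
    rw [← pow_mod_orderOf zt i, ← pow_mod_orderOf zt j, ← zt_prim.eq_orderOf] at h
    exact h
  exact zt_prim.pow_inj (Nat.mod_lt _ (by norm_num)) (Nat.mod_lt _ (by norm_num)) h1

lemma cancel_comp {p q ψ : ℂ[X]} (hψ : 0 < ψ.natDegree) (h : p.comp ψ = q.comp ψ) : p = q := by
  have h1 : (p - q).comp ψ = 0 := by rw [sub_comp, h, sub_self]
  have h2 : p - q = 0 := by
    by_contra hne
    have h3 : (p - q).natDegree = 0 := by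
      have := congrArg natDegree h1
      rw [natDegree_comp, natDegree_zero] at this
      rcases mul_eq_zero.1 this with h4 | h4
      · exact h4
      · omega
    rw [natDegree_eq_zero] at h3
    obtain ⟨x, hx⟩ := h3
    rw [← hx, C_comp] at h1
    exact hne (by rw [← hx, h1])
  exact sub_eq_zero.1 h2

lemma LC.sum {ι : Type*} (s : Finset ι) (f : ι → ℂ[X]) (d : ℕ) (a : ι → ℂ)
    (h : ∀ i ∈ s, LC (f i) d (a i)) : LC (∑ i ∈ s, f i) d (∑ i ∈ s, a i) := by
  refine ⟨natDegree_sum_le_of_forall_le _ _ fun i hi => (h i hi).deg, ?_⟩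
  rw [finsetSum_coeff]
  exact Finset.sum_congr rfl fun i hi => (h i hi).co

/-- Equivariance of `r` when `g ∘ r` is invariant. -/
lemma equi {g r l : ℂ[X]} {D : ℕ} (hD : 5 ≤ D) (h5 : 5 ∣ D) (hg : g = X ^ D + l)
    (hl : l.natDegree + 5 ≤ D) (hr : 1 ≤ r.natDegree)
    (h : g.comp (r.comp (C zt * X)) = g.comp r) :
    r.comp (C zt * X) = C (zt ^ r.natDegree) * r := by
  set q := r.natDegree with hq
  have hr0 : r ≠ 0 := by rintro rfl; simp at hq; omega
  have hlr : r.leadingCoeff ≠ 0 := leadingCoeff_ne_zero.2 hr0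
  set v := zt ^ q * r.leadingCoeff with hv
  have hv0 : v ≠ 0 := mul_ne_zero (pow_ne_zero _ zt_ne) hlr
  have h1 : LC (r.comp (C zt * X)) q v := by
    refine ⟨?_, ?_⟩
    · rw [natDegree_comp]
      refine (Nat.mul_le_mul_left _ (natDegree_C_mul_le _ _)).trans ?_
      rw [natDegree_X, mul_one]
    · rw [comp_C_mul_X_coeff, hv, mul_comm]; rfl
  have h2 : LC (C (zt ^ q) * r) q v := (⟨le_rfl, rfl⟩ : LC r q r.leadingCoeff).C_mul _
  by_contra hne
  have hδ : r.comp (C zt * X) - C (zt ^ q) * r ≠ 0 := sub_ne_zero.2 hne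
  set r1 := r.comp (C zt * X) with hr1
  set r2 := C (zt ^ q) * r with hr2
  have hsum : LC (∑ i ∈ Finset.range D, r1 ^ i * r2 ^ (D - 1 - i)) ((D - 1) * q)
      (∑ i ∈ Finset.range D, v ^ (D - 1)) := by
    refine LC.sum _ _ _ _ fun i hi => ?_
    have hi' := Finset.mem_range.1 hi
    refine ((h1.pow i).mul (h2.pow (D - 1 - i))).congr ?_ ?_
    · rw [← add_mul]; congr 1; omega
    · rw [← pow_add]; congr 1; omega
  rw [Finset.sum_const, Finset.card_range, nsmul_eq_mul] at hsum
  have hs0 : (D : ℂ) * v ^ (D - 1) ≠ 0 :=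
    mul_ne_zero (by exact_mod_cast (by omega : D ≠ 0)) (pow_ne_zero _ hv0)
  have hgeom := Commute.mul_geom_sum₂ (Commute.all r1 r2) D
  have hpow : r2 ^ D = r ^ D := by
    obtain ⟨k, hk⟩ := h5
    rw [hr2, mul_pow, ← C_pow, ← pow_mul, hk]
    have : zt ^ (q * (5 * k)) = 1 := by
      rw [show q * (5 * k) = 5 * (q * k) by ring, pow_mul, zt_prim.pow_eq_one, one_pow]
    rw [this]; simp
  have h3 : r1 ^ D - r2 ^ D = l.comp r - l.comp r1 := by
    rw [hg] at h
    simp only [add_comp, pow_comp, X_comp] at h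
    rw [hpow]
    linear_combination h
  rw [h3] at hgeom
  have h4 := congrArg natDegree hgeom
  rw [natDegree_mul hδ (hsum.ne_zero hs0), hsum.natDegree_eq hs0] at h4
  have h5 : (l.comp r - l.comp r1).natDegree ≤ (D - 5) * q := by
    refine (natDegree_sub_le _ _).trans (max_le ?_ ?_)
    · rw [natDegree_comp]
      exact Nat.mul_le_mul (by omega) le_rfl
    · rw [natDegree_comp]
      exact Nat.mul_le_mul (by omega) h1.deg
  rw [← h4] at h5
  obtain ⟨j, rfl⟩ : ∃ j, D = j + 5 := ⟨D - 5, by omega⟩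
  have e1 : (j + 5 - 1) * q = j * q + 4 * q := by
    rw [show j + 5 - 1 = j + 4 by omega]; ring
  rw [e1, show j + 5 - 5 = j by omega] at h5
  omega

/-- the compositions are polynomials in `X ^ 5` up to lower terms -/
lemma cmp_form (e : ℕ → ℂ) (n : ℕ) : ∃ l : ℂ[X], cmp e (n + 1) = X ^ 5 ^ (n + 1) + l ∧
    l.natDegree + 5 ≤ 5 ^ (n + 1) := by
  set h : ℂ[X] := (cmp (fun i => e (i + 1)) n).comp (X + C (e 0)) with hh
  have h1 : cmp e (n + 1) = expand ℂ 5 h := by
    rw [cmp_succ', expand_eq_comp_X_pow, hh, comp_assoc]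
    simp
  have h2 : LC h (5 ^ n) 1 := by
    have hm := cmp_natDegree (fun i => e (i + 1)) n
    have hXd : (X + C (e 0) : ℂ[X]).natDegree = 1 := natDegree_X_add_C _
    refine ⟨?_, ?_⟩
    · rw [hh, natDegree_comp, hm.1, hXd, mul_one]
    · have := coeff_comp_of_le (p := cmp (fun i => e (i + 1)) n) (m := 5 ^ n) (D := 1) hm.1.le
        (monic_X_add_C (e 0)) hXd one_pos
      rw [mul_one] at this
      rw [hh, this]
      have := hm.2
      rw [Monic, leadingCoeff, hm.1] at this
      exact this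
  refine ⟨expand ℂ 5 (h - X ^ 5 ^ n), ?_, ?_⟩
  · rw [h1, map_sub, map_pow, expand_X, ← pow_mul]
    rw [show 5 * 5 ^ n = 5 ^ (n + 1) by ring]
    ring
  · rw [natDegree_expand]
    have h3 : (h - X ^ 5 ^ n).natDegree ≤ 5 ^ n - 1 := by
      have h4 : LC (h - X ^ 5 ^ n) (5 ^ n) (1 - 1) :=
        h2.sub ⟨(natDegree_X_pow _).le, by simp⟩
      rw [sub_self] at h4
      have h5 : (h - X ^ 5 ^ n).natDegree ≠ 5 ^ n := by
        intro h6
        have h7 : (h - X ^ 5 ^ n).leadingCoeff = 0 := by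
          rw [leadingCoeff, h6]; exact h4.co
        rw [leadingCoeff_eq_zero] at h7
        rw [h7, natDegree_zero] at h6
        have : 0 < 5 ^ n := by positivity
        omega
      have := h4.deg
      omega
    have : 0 < 5 ^ n := by positivity
    rw [pow_succ]
    omega

/-- The support of an equivariant polynomial. -/
lemma support_of_equi {r : ℂ[X]} {q : ℕ} (h : r.comp (C zt * X) = C (zt ^ q) * r) {i : ℕ}
    (hi : i % 5 ≠ q % 5) : r.coeff i = 0 := by
  have h1 := congrArg (fun p : ℂ[X] => p.coeff i) h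
  simp only [comp_C_mul_X_coeff, coeff_C_mul] at h1
  have h2 : r.coeff i * (zt ^ i - zt ^ q) = 0 := by linear_combination h1
  rcases mul_eq_zero.1 h2 with h3 | h3
  · exact h3
  · exact absurd (zt_pow_eq (sub_eq_zero.1 h3)) hi

lemma eq_expand {r : ℂ[X]} (h : ∀ i, ¬ 5 ∣ i → r.coeff i = 0) : r = expand ℂ 5 (contract 5 r) := by
  ext i
  rw [coeff_expand (by norm_num), coeff_contract (by norm_num)]
  split_ifs with hi
  · rw [Nat.div_mul_cancel hi]
  · exact h i hi

lemma cmp_equi (c : ℕ → ℂ) {n : ℕ} (hn : 1 ≤ n) : (cmp c n).comp (C zt * X) = cmp c n := by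
  obtain ⟨m, rfl⟩ : ∃ m, n = m + 1 := ⟨n - 1, by omega⟩
  rw [cmp_succ', comp_assoc]
  congr 1
  simp only [add_comp, pow_comp, X_comp, C_comp]
  rw [mul_pow, ← C_pow, zt_prim.pow_eq_one]
  simp

lemma equi_of_rel {c e : ℕ → ℂ} {n n' : ℕ} (hn : 1 ≤ n) (hn' : 1 ≤ n') {r r' : ℂ[X]} {l : ℂ}
    (hl : l ≠ 0) (hr : 1 ≤ r.natDegree) (h : r'.comp (cmp c n) = C l * (cmp e n').comp r) :
    r.comp (C zt * X) = C (zt ^ r.natDegree) * r := by
  obtain ⟨m, rfl⟩ : ∃ m, n' = m + 1 := ⟨n' - 1, by omega⟩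
  obtain ⟨l', hl', hd⟩ := cmp_form e m
  refine equi (D := 5 ^ (m + 1)) ?_ (Dvd.intro_left _ (pow_succ _ _).symm) hl' hd hr ?_
  · calc 5 = 5 ^ 1 := by norm_num
      _ ≤ 5 ^ (m + 1) := Nat.pow_le_pow_right (by norm_num) (by omega)
  · have h1 := congrArg (fun p : ℂ[X] => p.comp (C zt * X)) h
    simp only [comp_assoc, mul_comp, C_comp] at h1
    rw [cmp_equi c hn, h] at h1
    exact (mul_left_cancel₀ (C_ne_zero.2 hl) h1).symm

/-- the derivative of a product containing a fifth power -/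
lemma pow4_dvd {A B U : ℂ[X]} {e : ℂ} (h : A = B * U ^ 5 + C e) : U ^ 4 ∣ derivative A := by
  rw [h]
  simp only [derivative_add, derivative_mul, derivative_C, derivative_pow, add_zero]
  refine dvd_add ⟨derivative B * U, by ring⟩ ⟨B * (C ((5 : ℕ) : ℂ) * derivative U), ?_⟩
  simp
  ring

lemma natDegree_comp_zt (U : ℂ[X]) (i : ℕ) : (U.comp (C (zt ^ i) * X)).natDegree = U.natDegree := by
  rw [natDegree_comp, natDegree_C_mul (pow_ne_zero _ zt_ne), natDegree_X, mul_one]

/-- The case of degree not divisible by five. -/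
lemma scalar_base {j k : ℕ} (hj : 1 ≤ j) (hj5 : j < 5) {T : ℂ[X]} (hT : T.natDegree = k)
    (hT0 : T ≠ 0) {c0 e0 : ℂ} (he : e0 ≠ 0)
    (h : (X ^ j * T ^ 5 + C e0 : ℂ[X]).comp (X - C c0) = 0 ∨
      ((X ^ j * T ^ 5 + C e0 : ℂ[X]).comp (X - C c0)).comp (C zt * X) =
        C (zt ^ j) * (X ^ j * T ^ 5 + C e0 : ℂ[X]).comp (X - C c0)) :
    j = 1 ∧ k = 0 ∧ e0 = (T.coeff 0) ^ 5 * c0 := by
  set t0 : ℂ[X] := X ^ j * T ^ 5 + C e0 with ht0
  set t1 : ℂ[X] := t0.comp (X - C c0) with ht1
  set U : ℂ[X] := T.comp (X - C c0) with hU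
  have ht1' : t1 = (X - C c0) ^ j * U ^ 5 + C e0 := by
    rw [ht1, ht0, hU]
    simp only [add_comp, mul_comp, pow_comp, X_comp, C_comp]
  have hdt0 : t0.natDegree = j + 5 * k := by
    rw [ht0, natDegree_add_C, natDegree_mul (pow_ne_zero _ X_ne_zero) (pow_ne_zero _ hT0),
      natDegree_X_pow, natDegree_pow, hT]
  have hdt1 : t1.natDegree = j + 5 * k := by
    rw [ht1, natDegree_comp, hdt0, natDegree_X_sub_C, mul_one]
  have ht1ne : t1 ≠ 0 := by
    intro h0
    rw [h0, natDegree_zero] at hdt1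
    omega
  have heq : t1.comp (C zt * X) = C (zt ^ j) * t1 := h.resolve_left ht1ne
  have heqi : ∀ i : ℕ, t1.comp (C (zt ^ i) * X) = C (zt ^ (i * j)) * t1 := by
    intro i
    induction i with
    | zero => simp
    | succ i ih =>
      have : (C (zt ^ (i + 1)) * X : ℂ[X]) = (C (zt ^ i) * X : ℂ[X]).comp (C zt * X) := by
        simp only [mul_comp, C_comp, X_comp, pow_succ, map_mul]
        ring
      rw [this, ← comp_assoc, ih, mul_comp, C_comp, heq, ← mul_assoc, ← C_mul, ← pow_add]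
      congr 3
      ring
  have hdvd : ∀ i : ℕ, (U.comp (C (zt ^ i) * X)) ^ 4 ∣ derivative t1 := by
    intro i
    have h1 : C (zt ^ (i * j)) * t1 = ((X - C c0 : ℂ[X]).comp (C (zt ^ i) * X)) ^ j *
        (U.comp (C (zt ^ i) * X)) ^ 5 + C e0 := by
      rw [← heqi i, ht1']
      simp only [add_comp, mul_comp, pow_comp, C_comp]
    have h2 := pow4_dvd h1
    rw [derivative_C_mul] at h2
    exact (IsUnit.dvd_mul_left (isUnit_C.2 (pow_ne_zero _ zt_ne).isUnit)).1 h2
  have hcop : ((Finset.range 5 : Finset ℕ) : Set ℕ).Pairwise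
      (Function.onFun IsCoprime fun i => (U.comp (C (zt ^ i) * X)) ^ 4) := by
    intro i hi i' hi' hii
    refine IsCoprime.pow ?_
    rw [Polynomial.isCoprime_iff_aeval_ne_zero_of_isAlgClosed ℂ ℂ]
    intro z
    by_contra hcon
    push Not at hcon
    obtain ⟨hz1, hz2⟩ := hcon
    simp only [coe_aeval_eq_eval, eval_comp, eval_mul, eval_C, eval_X] at hz1 hz2
    have key : ∀ i : ℕ, U.eval (zt ^ i * z) = 0 → zt ^ (i * j) * t1.eval z = e0 := by
      intro i h0
      have h1 := congrArg (eval z) (heqi i)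
      simp only [eval_comp, eval_mul, eval_C, eval_X] at h1
      rw [← h1, ht1']
      simp only [eval_add, eval_mul, eval_pow, eval_C, h0]
      simp
    have k1 := key i hz1
    have k2 := key i' hz2
    have ht1z : t1.eval z ≠ 0 := by
      intro h0
      rw [h0, mul_zero] at k1
      exact he k1.symm
    have h3 : zt ^ (i * j) = zt ^ (i' * j) := mul_right_cancel₀ ht1z (k1.trans k2.symm)
    have h4 := zt_pow_eq h3
    have hi5 : i < 5 := by simpa using hi
    have hi5' : i' < 5 := by simpa using hi'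
    apply hii
    interval_cases j <;> omega
  have hk : k = 0 := by
    have h1 := Finset.prod_dvd_of_coprime hcop fun i _ => hdvd i
    have hdne : derivative t1 ≠ 0 := by
      intro h0
      have := derivative_eq_zero.1 h0
      omega
    have h2 := natDegree_le_of_dvd h1 hdne
    have hUd : U.natDegree = k := by
      rw [hU, natDegree_comp, hT, natDegree_X_sub_C, mul_one]
    have hUne : ∀ i : ℕ, U.comp (C (zt ^ i) * X) ≠ 0 := by
      intro i h0
      by_cases hk0 : k = 0
      · have h3 : U = C (T.coeff 0) := by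
          rw [hU, eq_C_of_natDegree_eq_zero (hT.trans hk0)]
          simp
        rw [h3, C_comp] at h0
        apply hT0
        rw [eq_C_of_natDegree_eq_zero (hT.trans hk0), h0]
      · have := natDegree_comp_zt U i
        rw [h0, natDegree_zero, hUd] at this
        exact hk0 this.symm
    rw [natDegree_prod _ _ fun i _ => pow_ne_zero 4 (hUne i)] at h2
    have h3 : ∀ i ∈ Finset.range 5, ((U.comp (C (zt ^ i) * X)) ^ 4).natDegree = 4 * k := by
      intro i _
      rw [natDegree_pow, natDegree_comp_zt, hUd]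
    rw [Finset.sum_congr rfl h3, Finset.sum_const, Finset.card_range, smul_eq_mul] at h2
    have h4 : (derivative t1).natDegree < t1.natDegree := natDegree_derivative_lt (by omega)
    omega
  have hTc : T = C (T.coeff 0) := eq_C_of_natDegree_eq_zero (hT.trans hk)
  set τ := T.coeff 0 with hτ
  have hτ0 : τ ≠ 0 := by
    intro h0
    rw [h0, C_0] at hTc
    exact hT0 hTc
  have ht1'' : t1 = C (τ ^ 5) * (X + C (-c0)) ^ j + C e0 := by
    rw [ht1', hU, hTc, C_comp, C_neg, ← sub_eq_add_neg, C_pow]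
    ring
  have hcoef : ∀ i : ℕ, i % 5 ≠ j % 5 → t1.coeff i = 0 := fun i hi => support_of_equi heq hi
  have hj1 : j = 1 := by
    by_contra hj1
    have h1 := hcoef (j - 1) (by omega)
    have h2 := hcoef 0 (by omega)
    rw [ht1'', coeff_add, coeff_C_mul, coeff_X_add_C_pow, coeff_C] at h1 h2
    rw [if_neg (by omega)] at h1
    rw [if_pos rfl] at h2
    have hc0 : c0 = 0 := by
      have e1 : j - (j - 1) = 1 := by omega
      have e2 : j.choose (j - 1) = j := by
        obtain ⟨m, rfl⟩ : ∃ m, j = m + 1 := ⟨j - 1, by omega⟩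
        simp
      rw [e1, e2, pow_one, add_zero] at h1
      have hj0 : (j : ℂ) ≠ 0 := by exact_mod_cast (by omega : j ≠ 0)
      have h3 : -c0 = 0 := by
        rcases mul_eq_zero.1 h1 with h3 | h3
        · exact absurd h3 (pow_ne_zero _ hτ0)
        · exact (mul_eq_zero.1 h3).resolve_right hj0
      linear_combination -h3
    rw [hc0, neg_zero, Nat.sub_zero, zero_pow (by omega), zero_mul, mul_zero, zero_add] at h2
    exact he h2
  refine ⟨hj1, hk, ?_⟩
  have h2 := hcoef 0 (by omega)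
  rw [ht1'', hj1, coeff_add, coeff_C_mul, pow_one, coeff_add, coeff_X_zero, coeff_C_zero,
    coeff_C_zero, zero_add] at h2
  linear_combination h2

/-- **Equivariant polynomials are compositions.** -/
theorem scalar_claim (q : ℕ) : ∀ (n n' : ℕ) (c e : ℕ → ℂ) (r r' : ℂ[X]) (l : ℂ), l ≠ 0 → 1 ≤ q →
    r.natDegree = q → 2 ≤ n' → q < 5 ^ (n - 1) → e 0 ≠ 0 →
    r'.comp (cmp c n) = C l * (cmp e n').comp r →
    ∃ (s : ℕ) (τ : ℂ), q = 5 ^ s ∧ r = C τ * cmp c s ∧ e 0 = τ ^ 5 * c s := by
  induction q using Nat.strong_induction_on with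
  | _ q ih =>
  intro n n' c e r r' l hl hq hrq hn' hqn he h
  have hn : 2 ≤ n := by
    by_contra hlt
    rw [show n - 1 = 0 by omega, pow_zero] at hqn
    omega
  have heq := equi_of_rel (by omega) (by omega) hl (by omega) h
  rw [hrq] at heq
  obtain ⟨n, rfl⟩ : ∃ m, n = m + 1 := ⟨n - 1, by omega⟩
  rw [Nat.add_sub_cancel] at hqn
  have hX5 : (X ^ 5 + C (c 0) : ℂ[X]).natDegree = 5 := natDegree_X_pow_add_C
  have hr0 : r ≠ 0 := by
    rintro rfl
    rw [natDegree_zero] at hrq
    omega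
  rw [cmp_succ' c] at h
  by_cases h5 : 5 ∣ q
  · have hr1 : r = expand ℂ 5 (contract 5 r) :=
      eq_expand fun i hi => support_of_equi heq (by omega)
    set r2 : ℂ[X] := (contract 5 r).comp (X - C (c 0)) with hr2
    have hr3 : r = r2.comp (X ^ 5 + C (c 0)) := by
      rw [hr2, comp_assoc]
      simp only [sub_comp, X_comp, C_comp, add_sub_cancel_right]
      rw [← expand_eq_comp_X_pow]
      exact hr1
    have hd2 : r2.natDegree * 5 = q := by
      have := natDegree_comp (p := r2) (q := X ^ 5 + C (c 0))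
      rw [← hr3, hX5, hrq] at this
      exact this.symm
    have h6 : r'.comp (cmp (fun i => c (i + 1)) n) = C l * (cmp e n').comp r2 := by
      refine cancel_comp (ψ := X ^ 5 + C (c 0)) (by rw [hX5]; norm_num) ?_
      rw [comp_assoc, h, mul_comp, C_comp, comp_assoc, ← hr3]
    have hq5 : 5 ≤ q := Nat.le_of_dvd hq h5
    have hn1 : 1 ≤ n - 1 := by
      by_contra hlt
      have : n ≤ 1 := by omega
      have : 5 ^ n ≤ 5 ^ 1 := Nat.pow_le_pow_right (by norm_num) this
      omega
    obtain ⟨s, τ, hs1, hs2, hs3⟩ := ih r2.natDegree (by omega) n n' (fun i => c (i + 1)) e r2 r' l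
      hl (by omega) rfl hn' (by
        obtain ⟨m, rfl⟩ : ∃ m, n = m + 1 := ⟨n - 1, by omega⟩
        rw [pow_succ] at hqn
        rw [Nat.add_sub_cancel]
        omega) he h6
    refine ⟨s + 1, τ, ?_, ?_, hs3⟩
    · rw [← hd2, hs1, pow_succ]
    · rw [hr3, hs2, mul_comp, C_comp, ← cmp_succ']
  · obtain ⟨n', rfl⟩ : ∃ m, n' = m + 1 := ⟨n' - 1, by omega⟩
    set j := q % 5 with hj
    -- r = X ^ j * expand T
    have hdvd : (X ^ j : ℂ[X]) ∣ r := by
      rw [X_pow_dvd_iff]
      intro i hi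
      exact support_of_equi heq (by omega)
    obtain ⟨r1, hr1⟩ := hdvd
    have hr1e : r1 = expand ℂ 5 (contract 5 r1) := by
      refine eq_expand fun i hi => ?_
      have h1 : r.coeff (i + j) = r1.coeff i := by rw [hr1, mul_comm, coeff_mul_X_pow]
      rw [← h1]
      exact support_of_equi heq (by omega)
    set T := contract 5 r1 with hT
    have hr1ne : r1 ≠ 0 := by rintro rfl; rw [mul_zero] at hr1; exact hr0 hr1
    have hT0 : T ≠ 0 := by
      intro h0
      rw [h0, map_zero] at hr1e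
      exact hr1ne hr1e
    have hdeg : q = j + 5 * T.natDegree := by
      rw [← hrq, hr1, natDegree_mul (pow_ne_zero _ X_ne_zero) hr1ne, natDegree_X_pow, hr1e,
        natDegree_expand]
      ring
    set t0 : ℂ[X] := X ^ j * T ^ 5 + C (e 0) with ht0
    set t1 : ℂ[X] := t0.comp (X - C (c 0)) with ht1
    have ht : t1.comp (X ^ 5 + C (c 0)) = r ^ 5 + C (e 0) := by
      rw [ht1, comp_assoc]
      simp only [sub_comp, X_comp, C_comp, add_sub_cancel_right]
      rw [ht0]
      simp only [add_comp, mul_comp, pow_comp, X_comp, C_comp]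
      rw [← expand_eq_comp_X_pow, ← hr1e, hr1]
      ring
    have h6 : r'.comp (cmp (fun i => c (i + 1)) n) =
        C l * (cmp (fun i => e (i + 1)) n').comp t1 := by
      refine cancel_comp (ψ := X ^ 5 + C (c 0)) (by rw [hX5]; norm_num) ?_
      rw [comp_assoc, h, mul_comp, C_comp, comp_assoc, ht, cmp_succ' e, comp_assoc]
      simp only [add_comp, pow_comp, X_comp, C_comp]
    have hdt1 : t1.natDegree = q := by
      rw [ht1, natDegree_comp, ht0, natDegree_add_C,
        natDegree_mul (pow_ne_zero _ X_ne_zero) (pow_ne_zero _ hT0), natDegree_X_pow,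
        natDegree_pow, natDegree_X_sub_C]
      omega
    have heq1 := equi_of_rel (by omega) (by omega) hl (by omega) h6
    rw [hdt1] at heq1
    have hzq : zt ^ q = zt ^ j := by
      rw [hj, ← pow_mod_orderOf zt q, ← zt_prim.eq_orderOf]
    rw [hzq] at heq1
    obtain ⟨hj1, hk, hee⟩ := scalar_base (j := j) (by omega) (by omega) rfl hT0 he (Or.inr heq1)
    refine ⟨0, T.coeff 0, ?_, ?_, hee⟩
    · rw [pow_zero]; omega
    · have hTc : T = C (T.coeff 0) := eq_C_of_natDegree_eq_zero hk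
      have hr1c : r1 = C (T.coeff 0) :=
        hr1e.trans ((congrArg (expand ℂ 5) hTc).trans (expand_C _ _))
      calc r = X ^ j * r1 := hr1
        _ = C (T.coeff 0) * cmp c 0 := by rw [hr1c, hj1, pow_one, cmp, mul_comm]

end Pool.Agent.TH147.DM
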