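import Pool.Agent.TH147.DM.Lead

/-!
The base map on `ℂ⁴` and the degree argument at a generic point.
-/

set_option autoImplicit false
set_option linter.unusedSectionVars false

open Polynomial

namespace Pool.Agent.TH147.DM

section FF

variable {R : Type*} [CommRing R]

/-- The map `(AA a, AA b)` on quadruples. -/
def FF (a b : R) (X : Fin 4 → R) : Fin 4 → R :=
  ![A0 a (X 0) (X 1), A1 a (X 0) (X 1), A0 b (X 2) (X 3), A1 b (X 2) (X 3)]

/-- The quintic form. -/
def PQ (X : Fin 4 → R) : R :=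
  X 0 ^ 5 + X 0 ^ 4 * X 2 + X 0 ^ 3 * X 2 * X 3 + X 0 * X 1 * X 2 ^ 3

lemma FF_iter (a b : R) (n : ℕ) (X : Fin 4 → R) : (FF a b)^[n] X =
    ![((AA a)^[n] (X 0, X 1)).1, ((AA a)^[n] (X 0, X 1)).2,
      ((AA b)^[n] (X 2, X 3)).1, ((AA b)^[n] (X 2, X 3)).2] := by
  induction n with
  | zero =>
    ext i
    fin_cases i <;> rfl
  | succ n ih =>
    rw [Function.iterate_succ_apply', ih]
    simp only [Function.iterate_succ_apply', FF, AA]
    rfl

lemma map_FF {S : Type*} [CommRing S] (f : R →+* S) (a b : R) (X : Fin 4 → R) :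
    (fun i => f (FF a b X i)) = FF (f a) (f b) (fun i => f (X i)) := by
  ext i
  fin_cases i <;> simp [FF, A0, A1]

lemma map_FF_iter {S : Type*} [CommRing S] (f : R →+* S) (a b : R) (n : ℕ) (X : Fin 4 → R) :
    (fun i => f ((FF a b)^[n] X i)) = (FF (f a) (f b))^[n] (fun i => f (X i)) := by
  induction n with
  | zero => rfl
  | succ n ih =>
    rw [Function.iterate_succ_apply', Function.iterate_succ_apply', ← ih, ← map_FF]

end FF

/-- polynomials in four variables -/
abbrev M4 : Type := MvPolynomial (Fin 4) ℂ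

/-- The polynomials giving the `n`-th iterate of the base map. -/
noncomputable def Fp (a b : ℂ) (n : ℕ) : Fin 4 → M4 :=
  (FF (MvPolynomial.C a) (MvPolynomial.C b))^[n] MvPolynomial.X

lemma eval_Fp (a b : ℂ) (n : ℕ) (x : Fin 4 → ℂ) (i : Fin 4) :
    MvPolynomial.eval x (Fp a b n i) = (FF a b)^[n] x i := by
  have h := map_FF_iter (MvPolynomial.eval x) (MvPolynomial.C a) (MvPolynomial.C b) n
    (MvPolynomial.X : Fin 4 → M4)
  have h2 := congrFun h i
  simp only [MvPolynomial.eval_C, MvPolynomial.eval_X] at h2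
  exact h2

lemma eval_aeval_Fp (a b : ℂ) (n : ℕ) (x : Fin 4 → ℂ) (w : M4) :
    MvPolynomial.eval x (MvPolynomial.aeval (Fp a b n) w) =
      MvPolynomial.eval ((FF a b)^[n] x) w := by
  induction w using MvPolynomial.induction_on with
  | C r => simp
  | add p q hp hq => rw [map_add, map_add, map_add, hp, hq]
  | mul_X p i hp =>
    rw [map_mul, map_mul, map_mul, hp, MvPolynomial.aeval_X, eval_Fp, MvPolynomial.eval_X]

lemma exists_eval_ne {p : M4} (hp : p ≠ 0) : ∃ x : Fin 4 → ℂ, MvPolynomial.eval x p ≠ 0 := by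
  by_contra h
  push Not at h
  exact hp (MvPolynomial.funext fun x => by rw [h x, map_zero])

section Surj

variable {c : ℂ}

lemma AA_surj (hc : c ^ 2 = 2 * c - 5) (q : ℂ × ℂ) : ∃ p : ℂ × ℂ, AA c p = q := by
  by_cases hq : q = 0
  · exact ⟨0, by rw [hq]; simp [AA, A0, A1]⟩
  -- find a direction
  have hdir : ∃ p : ℂ × ℂ, p ≠ 0 ∧ q.2 * (AA c p).1 = q.1 * (AA c p).2 := by
    by_cases h2 : q.2 = 0
    · refine ⟨(1, 0), by simp, ?_⟩
      rw [h2]
      simp [AA, A1]
    · have hlc : LC (C q.2 * A0 (C c) X 1 - C q.1 * A1 (C c) X 1 : ℂ[X]) 5 (-q.2) := by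
        have e : (C q.2 * A0 (C c) X 1 - C q.1 * A1 (C c) X 1 : ℂ[X]) =
            C (-q.2) * X ^ 5 + (C (-(q.1 * c ^ 2)) * X ^ 4 + C (2 * c * q.2) * X ^ 3 +
              C (2 * q.1 * c) * X ^ 2 + C (-(q.2 * c ^ 2)) * X + C (-q.1)) := by
          simp only [A0, A1, map_mul, map_neg, map_pow, map_ofNat]
          ring
        rw [e]
        have hlow : (C (-(q.1 * c ^ 2)) * X ^ 4 + C (2 * c * q.2) * X ^ 3 +
              C (2 * q.1 * c) * X ^ 2 + C (-(q.2 * c ^ 2)) * X + C (-q.1) : ℂ[X]).natDegree ≤ 4 := by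
          compute_degree
        constructor
        · compute_degree
        · rw [coeff_add, coeff_C_mul_X_pow, if_pos rfl,
            coeff_eq_zero_of_natDegree_lt (lt_of_le_of_lt hlow (by norm_num)), add_zero]
      have hdeg := hlc.natDegree_eq (neg_ne_zero.2 h2)
      obtain ⟨x, hx⟩ := IsAlgClosed.exists_root (C q.2 * A0 (C c) X 1 - C q.1 * A1 (C c) X 1 : ℂ[X])
        (by
          intro h0
          have := natDegree_eq_of_degree_eq_some (n := 0) (by exact_mod_cast h0)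
          omega)
      refine ⟨(x, 1), by simp, ?_⟩
      have hx' : (C q.2 * A0 (C c) X 1 - C q.1 * A1 (C c) X 1 : ℂ[X]).eval x = 0 := hx
      simp only [A0, A1, eval_sub, eval_mul, eval_neg, eval_pow, eval_C, eval_X, eval_one] at hx'
      simp only [AA, A0, A1]
      linear_combination hx'
  obtain ⟨p, hp, hpq⟩ := hdir
  have hne := AA_ne hc hp
  -- AA c p = k * q
  obtain ⟨k, hk⟩ : ∃ k : ℂ, (k * q.1, k * q.2) = AA c p := by
    by_cases h1 : q.1 = 0
    · have h2 : q.2 ≠ 0 := fun h2 => hq (Prod.ext h1 h2)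
      refine ⟨(AA c p).2 / q.2, Prod.ext ?_ ?_⟩
      · rw [h1, mul_zero]
        rw [h1, zero_mul] at hpq
        exact ((mul_eq_zero.1 hpq).resolve_left h2).symm
      · show (AA c p).2 / q.2 * q.2 = _
        field_simp
    · refine ⟨(AA c p).1 / q.1, Prod.ext ?_ ?_⟩
      · show (AA c p).1 / q.1 * q.1 = _
        field_simp
      · show (AA c p).1 / q.1 * q.2 = _
        field_simp
        linear_combination hpq
  have hk0 : k ≠ 0 := by
    rintro rfl
    apply hne
    rw [← hk]; simp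
  obtain ⟨t, ht⟩ := IsAlgClosed.exists_pow_nat_eq k⁻¹ (n := 5) (by norm_num)
  refine ⟨(t * p.1, t * p.2), ?_⟩
  rw [AA_smul, ht, ← hk]
  ext
  · show k⁻¹ * (k * q.1) = q.1
    field_simp
  · show k⁻¹ * (k * q.2) = q.2
    field_simp

end Surj

variable {a b : ℂ}

lemma FF_surj (ha : a ^ 2 = 2 * a - 5) (hb : b ^ 2 = 2 * b - 5) (n : ℕ) (y : Fin 4 → ℂ) :
    ∃ x : Fin 4 → ℂ, (FF a b)^[n] x = y := by
  have h1 : Function.Surjective (FF a b) := by
    intro y
    obtain ⟨p, hp⟩ := AA_surj ha (y 0, y 1)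
    obtain ⟨q, hq⟩ := AA_surj hb (y 2, y 3)
    refine ⟨![p.1, p.2, q.1, q.2], ?_⟩
    have e1 : A0 a p.1 p.2 = y 0 := congrArg Prod.fst hp
    have e2 : A1 a p.1 p.2 = y 1 := congrArg Prod.snd hp
    have e3 : A0 b q.1 q.2 = y 2 := congrArg Prod.fst hq
    have e4 : A1 b q.1 q.2 = y 3 := congrArg Prod.snd hq
    ext i
    fin_cases i
    · simpa [FF] using e1
    · simpa [FF] using e2
    · simpa [FF] using e3
    · simpa [FF] using e4
  exact h1.iterate n y

lemma aeval_Fp_ne (ha : a ^ 2 = 2 * a - 5) (hb : b ^ 2 = 2 * b - 5) (n : ℕ) {w : M4} (hw : w ≠ 0) :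
    MvPolynomial.aeval (Fp a b n) w ≠ 0 := by
  obtain ⟨y, hy⟩ := exists_eval_ne hw
  obtain ⟨x, hx⟩ := FF_surj ha hb n y
  intro h
  apply hy
  rw [← hx, ← eval_aeval_Fp, h, map_zero]

/-- The commutation relation for a pair `(P.1, P.2)` of polynomials in one variable over `ℂ[X₀,...,X₃]`. -/
def Rel (a b c : ℂ) (n : ℕ) (μ : ℂ) (φ : (Fin 4 → ℂ) → ℂ[X]) (P : M4[X] × M4[X]) : Prop :=
  ∀ x : Fin 4 → ℂ, (AA (C c))^[n] (P.1.map (MvPolynomial.eval x), P.2.map (MvPolynomial.eval x)) =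
    (C μ * (P.1.map (MvPolynomial.eval ((FF a b)^[n] x))).comp (φ x),
      C μ * (P.2.map (MvPolynomial.eval ((FF a b)^[n] x))).comp (φ x))

/-- the larger degree of two polynomials -/
noncomputable def md (P : M4[X] × M4[X]) : ℕ := max P.1.natDegree P.2.natDegree

/-- the leading vector -/
noncomputable def lv (P : M4[X] × M4[X]) : M4 × M4 := (P.1.coeff (md P), P.2.coeff (md P))

lemma lv_ne {P : M4[X] × M4[X]} (hP : P ≠ 0) : lv P ≠ 0 := by
  intro h
  have h1 : P.1.coeff (md P) = 0 := congrArg Prod.fst h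
  have h2 : P.2.coeff (md P) = 0 := congrArg Prod.snd h
  rcases le_total P.1.natDegree P.2.natDegree with hle | hle
  · rw [md, max_eq_right hle] at h1 h2
    have h3 : P.2 = 0 := leadingCoeff_eq_zero.1 h2
    rw [h3, natDegree_zero] at hle h1
    have h4 : P.1.natDegree = 0 := by omega
    rw [← h4] at h1
    exact hP (Prod.ext (leadingCoeff_eq_zero.1 h1) h3)
  · rw [md, max_eq_left hle] at h1 h2
    have h3 : P.1 = 0 := leadingCoeff_eq_zero.1 h1
    rw [h3, natDegree_zero] at hle h2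
    have h4 : P.2.natDegree = 0 := by omega
    rw [← h4] at h2
    exact hP (Prod.ext h3 (leadingCoeff_eq_zero.1 h2))

lemma LV_map (P : M4[X] × M4[X]) (x : Fin 4 → ℂ) :
    LV (P.1.map (MvPolynomial.eval x), P.2.map (MvPolynomial.eval x)) (md P)
      (MvPolynomial.eval x (lv P).1, MvPolynomial.eval x (lv P).2) :=
  ⟨⟨natDegree_map_le.trans (le_max_left _ _), by simp [lv]⟩,
    ⟨natDegree_map_le.trans (le_max_right _ _), by simp [lv]⟩⟩

variable {c : ℂ} {n : ℕ} {μ : ℂ} {φ : (Fin 4 → ℂ) → ℂ[X]} {P : M4[X] × M4[X]}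

/-- leading vectors satisfy the same relation -/
lemma Rel.lead (h : Rel a b c n μ φ P) (hφ : ∀ x, (φ x).Monic) (hD : ∀ x, (φ x).natDegree = 5 ^ n)
    (x : Fin 4 → ℂ) : (AA c)^[n] (MvPolynomial.eval x (lv P).1, MvPolynomial.eval x (lv P).2) =
      (μ * MvPolynomial.eval ((FF a b)^[n] x) (lv P).1,
        μ * MvPolynomial.eval ((FF a b)^[n] x) (lv P).2) := by
  have h1 := (LV_map P x).iter (c := c) n
  rw [h x] at h1
  have hg' := LV_map P ((FF a b)^[n] x)
  have hD0 : 0 < 5 ^ n := by positivity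
  have h2 := h1.1.co
  have h3 := h1.2.co
  simp only [coeff_C_mul] at h2 h3
  rw [coeff_comp_of_le hg'.1.deg (hφ x) (hD x) hD0, hg'.1.co] at h2
  rw [coeff_comp_of_le hg'.2.deg (hφ x) (hD x) hD0, hg'.2.co] at h3
  exact Prod.ext h2.symm h3.symm

lemma Rel.Kn_ne (ha : a ^ 2 = 2 * a - 5) (hb : b ^ 2 = 2 * b - 5) (hc : c ^ 2 = 2 * c - 5)
    (h : Rel a b c n μ φ P) (hφ : ∀ x, (φ x).Monic) (hD : ∀ x, (φ x).natDegree = 5 ^ n)
    (hμ : μ ≠ 0) (hP : P ≠ 0) : Kn (MvPolynomial.C c : M4) n (lv P) (lv P) ≠ 0 := by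
  have hcC : (MvPolynomial.C c : M4) ^ 2 = 2 * MvPolynomial.C c - 5 := by
    rw [← map_pow, hc]; simp only [map_sub, map_mul, map_ofNat]
  refine DM.Kn_ne hcC (lv_ne hP) n fun hS => ?_
  have h1 : (AA (MvPolynomial.C c : M4))^[n] (lv P) =
      (MvPolynomial.C μ * MvPolynomial.aeval (Fp a b n) (lv P).1,
        MvPolynomial.C μ * MvPolynomial.aeval (Fp a b n) (lv P).2) := by
    have h2 : ∀ x : Fin 4 → ℂ,
        (MvPolynomial.eval x ((AA (MvPolynomial.C c : M4))^[n] (lv P)).1,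
          MvPolynomial.eval x ((AA (MvPolynomial.C c : M4))^[n] (lv P)).2) =
        (μ * MvPolynomial.eval ((FF a b)^[n] x) (lv P).1,
        μ * MvPolynomial.eval ((FF a b)^[n] x) (lv P).2) := by
      intro x
      rw [← h.lead hφ hD x, ← map_AA_iter (MvPolynomial.eval x) (MvPolynomial.C c) n (lv P),
        MvPolynomial.eval_C]
    ext1
    · refine MvPolynomial.funext fun x => ?_
      have := congrArg Prod.fst (h2 x)
      rw [map_mul, MvPolynomial.eval_C, eval_aeval_Fp]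
      exact this
    · refine MvPolynomial.funext fun x => ?_
      have := congrArg Prod.snd (h2 x)
      rw [map_mul, MvPolynomial.eval_C, eval_aeval_Fp]
      exact this
  rw [h1] at hS
  have h3 : SS (MvPolynomial.C μ * MvPolynomial.aeval (Fp a b n) (lv P).1,
      MvPolynomial.C μ * MvPolynomial.aeval (Fp a b n) (lv P).2) =
      MvPolynomial.C μ ^ 4 * MvPolynomial.aeval (Fp a b n) (SS (lv P)) := by
    simp only [SS, map_mul, map_sub, map_pow]
    ring
  rw [h3] at hS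
  by_contra hne
  rcases mul_eq_zero.1 hS with h4 | h4
  · have : (MvPolynomial.C μ : M4) = 0 := pow_eq_zero_iff (by norm_num) |>.1 h4
    rw [MvPolynomial.C_eq_zero] at this
    exact hμ this
  · exact aeval_Fp_ne ha hb n hne h4

/-- **The direction is constant.** -/
theorem Rel.det (ha : a ^ 2 = 2 * a - 5) (hb : b ^ 2 = 2 * b - 5) (hc : c ^ 2 = 2 * c - 5)
    (hn : 1 ≤ n) (h : Rel a b c n μ φ P) (hφ : ∀ x, (φ x).Monic)
    (hD : ∀ x, (φ x).natDegree = 5 ^ n) (hμ : μ ≠ 0) (hP : P ≠ 0) :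
    det2 (C (lv P).1, C (lv P).2) P = 0 := by
  by_contra hW
  set W : M4[X] := det2 (C (lv P).1, C (lv P).2) P with hWdef
  have hK := h.Kn_ne ha hb hc hφ hD hμ hP
  have hw : W.leadingCoeff ≠ 0 := leadingCoeff_ne_zero.2 hW
  obtain ⟨x, hx⟩ := exists_eval_ne (mul_ne_zero (mul_ne_zero hw (aeval_Fp_ne ha hb n hw)) hK)
  rw [map_mul, map_mul, eval_aeval_Fp] at hx
  have hx3 := right_ne_zero_of_mul hx
  have hx1 := left_ne_zero_of_mul (left_ne_zero_of_mul hx)
  have hx2 := right_ne_zero_of_mul (left_ne_zero_of_mul hx)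
  have hWx : ∀ y : Fin 4 → ℂ, W.map (MvPolynomial.eval y) =
      det2 (C (MvPolynomial.eval y (lv P).1), C (MvPolynomial.eval y (lv P).2))
        (P.1.map (MvPolynomial.eval y), P.2.map (MvPolynomial.eval y)) := by
    intro y
    simp only [hWdef, det2, Polynomial.map_sub, Polynomial.map_mul, Polynomial.map_C]
  have hdeg : ∀ y : Fin 4 → ℂ, MvPolynomial.eval y W.leadingCoeff ≠ 0 →
      (W.map (MvPolynomial.eval y)).natDegree = W.natDegree := fun y hy =>
    natDegree_map_of_leadingCoeff_ne_zero _ hy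
  have hmain := lemM hc hn (LV_map P x) (LV_map P ((FF a b)^[n] x)) (hφ x) (hD x) hμ (h x)
    (by
      have := map_Kn (MvPolynomial.eval x) (MvPolynomial.C c) n (lv P) (lv P)
      rw [MvPolynomial.eval_C] at this
      rw [this]
      exact hx3)
    (by
      rw [← hWx x, ← hWx, hdeg _ hx1, hdeg _ hx2])
  rw [← hWx x] at hmain
  apply hx1
  have h5 := hdeg x hx1
  have h6 : (W.map (MvPolynomial.eval x)).coeff W.natDegree = MvPolynomial.eval x W.leadingCoeff := by
    rw [coeff_map]; rfl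
  rw [← h6, hmain, coeff_zero]

end Pool.Agent.TH147.DM
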