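import Pool.Agent.TH147.DM.Gen

/-!
Consequences of the degree argument: the fibre degree is zero, or the polynomial is a monomial.
-/

set_option autoImplicit false
set_option linter.unusedSectionVars false

open Polynomial

namespace Pool.Agent.TH147.DM

variable {a b c : ℂ} {n : ℕ} {μ : ℂ} {φ : (Fin 4 → ℂ) → ℂ[X]} {P : M4[X] × M4[X]}

lemma exists_roots {D : ℕ} (hD : 0 < D) {w : ℂ} (hw : w ≠ 0) :
    ∃ s : Finset ℂ, s.card = D ∧ ∀ v ∈ s, v ^ D = w := by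
  obtain ⟨v, hv⟩ := IsAlgClosed.exists_pow_nat_eq w hD
  have hv0 : v ≠ 0 := by rintro rfl; exact hw (by rw [← hv]; exact zero_pow hD.ne')
  have hz := Complex.isPrimitiveRoot_exp D hD.ne'
  set ζ := Complex.exp (2 * Real.pi * Complex.I / D) with hζ
  refine ⟨(Finset.range D).image fun i => ζ ^ i * v, ?_, ?_⟩
  · rw [Finset.card_image_of_injOn, Finset.card_range]
    intro i hi j hj hij
    have h1 : ζ ^ i = ζ ^ j := mul_right_cancel₀ hv0 hij
    exact hz.pow_inj (by simpa using hi) (by simpa using hj) h1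
  · intro x hx
    obtain ⟨i, -, rfl⟩ := Finset.mem_image.1 hx
    rw [mul_pow, hv, ← pow_mul, mul_comm i D, pow_mul, hz.pow_eq_one, one_pow, one_mul]

lemma eval_AA_iter (c : ℂ) (n : ℕ) (g : ℂ[X] × ℂ[X]) (z : ℂ) :
    (((AA (C c))^[n] g).1.eval z, ((AA (C c))^[n] g).2.eval z) =
      (AA c)^[n] (g.1.eval z, g.2.eval z) := by
  have := map_AA_iter (evalRingHom z) (C c) n g
  simp only [coe_evalRingHom, eval_C] at this
  exact this.symm

/-- zeros of the pair pull back -/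
lemma Rel.zero (hc : c ^ 2 = 2 * c - 5) (h : Rel a b c n μ φ P) {x : Fin 4 → ℂ} {y z : ℂ}
    (h1 : (P.1.map (MvPolynomial.eval ((FF a b)^[n] x))).eval y = 0)
    (h2 : (P.2.map (MvPolynomial.eval ((FF a b)^[n] x))).eval y = 0)
    (hz : (φ x).eval z = y) : (P.1.map (MvPolynomial.eval x)).eval z = 0 ∧
      (P.2.map (MvPolynomial.eval x)).eval z = 0 := by
  have h3 := eval_AA_iter c n (P.1.map (MvPolynomial.eval x), P.2.map (MvPolynomial.eval x)) z
  rw [h x] at h3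
  simp only [eval_mul, eval_C, eval_comp, hz, h1, h2, mul_zero] at h3
  by_contra hne
  have h4 : ((P.1.map (MvPolynomial.eval x)).eval z, (P.2.map (MvPolynomial.eval x)).eval z) ≠
      (0 : ℂ × ℂ) := by
    intro h5
    exact hne ⟨congrArg Prod.fst h5, congrArg Prod.snd h5⟩
  exact AA_iter_ne hc h4 n h3.symm

lemma Rel.lead_ne (hc : c ^ 2 = 2 * c - 5) (h : Rel a b c n μ φ P) (hφ : ∀ x, (φ x).Monic)
    (hD : ∀ x, (φ x).natDegree = 5 ^ n) (x : Fin 4 → ℂ)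
    (hx : (MvPolynomial.eval x (lv P).1, MvPolynomial.eval x (lv P).2) ≠ (0 : ℂ × ℂ)) :
    (MvPolynomial.eval ((FF a b)^[n] x) (lv P).1, MvPolynomial.eval ((FF a b)^[n] x) (lv P).2) ≠
      (0 : ℂ × ℂ) := by
  intro h1
  have h2 := h.lead hφ hD x
  have h3 : MvPolynomial.eval ((FF a b)^[n] x) (lv P).1 = 0 := congrArg Prod.fst h1
  have h4 : MvPolynomial.eval ((FF a b)^[n] x) (lv P).2 = 0 := congrArg Prod.snd h1
  rw [h3, h4, mul_zero] at h2
  exact AA_iter_ne hc hx n h2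

lemma Rel.lead_ne' (hμ : μ ≠ 0) (h : Rel a b c n μ φ P) (hφ : ∀ x, (φ x).Monic)
    (hD : ∀ x, (φ x).natDegree = 5 ^ n) (x : Fin 4 → ℂ)
    (hx : (MvPolynomial.eval ((FF a b)^[n] x) (lv P).1,
      MvPolynomial.eval ((FF a b)^[n] x) (lv P).2) ≠ (0 : ℂ × ℂ)) :
    (MvPolynomial.eval x (lv P).1, MvPolynomial.eval x (lv P).2) ≠ (0 : ℂ × ℂ) := by
  intro h1
  have h2 := h.lead hφ hD x
  have h0 : (AA c)^[n] (0 : ℂ × ℂ) = 0 := by
    refine Function.iterate_fixed ?_ n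
    simp [AA, A0, A1]
  rw [h1, h0] at h2
  apply hx
  have h3 : μ * MvPolynomial.eval ((FF a b)^[n] x) (lv P).1 = 0 := (congrArg Prod.fst h2).symm
  have h4 : μ * MvPolynomial.eval ((FF a b)^[n] x) (lv P).2 = 0 := (congrArg Prod.snd h2).symm
  exact Prod.ext ((mul_eq_zero.1 h3).resolve_left hμ) ((mul_eq_zero.1 h4).resolve_left hμ)

/-- specialised pair is nonzero with few zeros -/
lemma few_zeros {x : Fin 4 → ℂ} (s : Finset ℂ) (hs : md P < s.card)
    (hx : (MvPolynomial.eval x (lv P).1, MvPolynomial.eval x (lv P).2) ≠ (0 : ℂ × ℂ))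
    (h : ∀ z ∈ s, (P.1.map (MvPolynomial.eval x)).eval z = 0 ∧
      (P.2.map (MvPolynomial.eval x)).eval z = 0) : False := by
  have hL := LV_map P x
  have h1 : P.1.map (MvPolynomial.eval x) = 0 :=
    eq_zero_of_natDegree_lt_card_of_eval_eq_zero' _ s (fun z hz => (h z hz).1)
      (lt_of_le_of_lt hL.1.deg hs)
  have h2 : P.2.map (MvPolynomial.eval x) = 0 :=
    eq_zero_of_natDegree_lt_card_of_eval_eq_zero' _ s (fun z hz => (h z hz).2)
      (lt_of_le_of_lt hL.2.deg hs)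
  apply hx
  have h3 := hL.1.co
  have h4 := hL.2.co
  simp only [h1, h2, coeff_zero] at h3 h4
  rw [← h3, ← h4]; rfl

lemma FF_iter_e (a b : ℂ) (n : ℕ) : ∃ ε : ℂ, ε ≠ 0 ∧ (FF a b)^[n] ![1, 0, 0, 0] = ![ε, 0, 0, 0] := by
  induction n with
  | zero => exact ⟨1, one_ne_zero, rfl⟩
  | succ n ih =>
    obtain ⟨ε, h0, h⟩ := ih
    refine ⟨-(ε * (ε ^ 2) ^ 2), neg_ne_zero.2 (by positivity), ?_⟩
    rw [Function.iterate_succ_apply', h]
    ext i
    fin_cases i <;> simp [FF, A0, A1]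

lemma PQ_Fp_ne (a b : ℂ) (n : ℕ) : PQ (Fp a b n) ≠ 0 := by
  intro h
  obtain ⟨ε, h0, h1⟩ := FF_iter_e a b n
  have h2 := congrArg (MvPolynomial.eval ![(1 : ℂ), 0, 0, 0]) h
  simp only [PQ, map_add, map_mul, map_pow, eval_Fp, h1, map_zero] at h2
  simp at h2
  exact h0 h2

lemma eval_PQ_Fp (a b : ℂ) (n : ℕ) (x : Fin 4 → ℂ) :
    MvPolynomial.eval x (PQ (Fp a b n)) = PQ ((FF a b)^[n] x) := by
  simp only [PQ, map_add, map_mul, map_pow, eval_Fp]

/-- the direction at a point -/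
lemma Rel.det_eval (ha : a ^ 2 = 2 * a - 5) (hb : b ^ 2 = 2 * b - 5) (hc : c ^ 2 = 2 * c - 5)
    (hn : 1 ≤ n) (h : Rel a b c n μ φ P) (hφ : ∀ x, (φ x).Monic)
    (hD : ∀ x, (φ x).natDegree = 5 ^ n) (hμ : μ ≠ 0) (hP : P ≠ 0) (x : Fin 4 → ℂ) :
    C (MvPolynomial.eval x (lv P).1) * P.2.map (MvPolynomial.eval x) =
      C (MvPolynomial.eval x (lv P).2) * P.1.map (MvPolynomial.eval x) := by
  have h1 := congrArg (Polynomial.map (MvPolynomial.eval x)) (h.det ha hb hc hn hφ hD hμ hP)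
  simp only [det2, Polynomial.map_sub, Polynomial.map_mul, Polynomial.map_C,
    Polynomial.map_zero] at h1
  exact sub_eq_zero.1 h1

/-- common zero from a zero of the nonzero direction -/
lemma common_zero {s t : ℂ} {p q : ℂ[X]} (h : C s * q = C t * p) (hs : s ≠ 0) {y : ℂ}
    (hy : p.eval y = 0) : q.eval y = 0 := by
  have h1 := congrArg (eval y) h
  simp only [eval_mul, eval_C, hy, mul_zero] at h1
  exact (mul_eq_zero.1 h1).resolve_left hs

lemma exists_root_of_LC {p : ℂ[X]} {m : ℕ} {s : ℂ} (h : LC p m s) (hs : s ≠ 0) (hm : m ≠ 0) :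
    ∃ y, p.eval y = 0 := by
  have h1 := h.natDegree_eq hs
  obtain ⟨y, hy⟩ := IsAlgClosed.exists_root p (by
    intro h0
    have := natDegree_eq_of_degree_eq_some (n := 0) (by exact_mod_cast h0)
    omega)
  exact ⟨y, hy⟩

lemma exists_common_zero (ha : a ^ 2 = 2 * a - 5) (hb : b ^ 2 = 2 * b - 5)
    (hc : c ^ 2 = 2 * c - 5) (hn : 1 ≤ n) (h : Rel a b c n μ φ P) (hφ : ∀ x, (φ x).Monic)
    (hD : ∀ x, (φ x).natDegree = 5 ^ n) (hμ : μ ≠ 0) (hP : P ≠ 0) (x : Fin 4 → ℂ)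
    (hx : (MvPolynomial.eval x (lv P).1, MvPolynomial.eval x (lv P).2) ≠ (0 : ℂ × ℂ))
    (hm : md P ≠ 0) : ∃ y, (P.1.map (MvPolynomial.eval x)).eval y = 0 ∧
      (P.2.map (MvPolynomial.eval x)).eval y = 0 := by
  have hdet := h.det_eval ha hb hc hn hφ hD hμ hP x
  have hL := LV_map P x
  by_cases h1 : MvPolynomial.eval x (lv P).1 = 0
  · have h2 : MvPolynomial.eval x (lv P).2 ≠ 0 := fun h2 => hx (Prod.ext h1 h2)
    obtain ⟨y, hy⟩ := exists_root_of_LC hL.2 h2 hm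
    exact ⟨y, common_zero hdet.symm h2 hy, hy⟩
  · obtain ⟨y, hy⟩ := exists_root_of_LC hL.1 h1 hm
    exact ⟨y, hy, common_zero hdet h1 hy⟩

/-- **The pair does not depend on the fibre coordinate.** -/
theorem Rel.deg_zero (ha : a ^ 2 = 2 * a - 5) (hb : b ^ 2 = 2 * b - 5) (hc : c ^ 2 = 2 * c - 5)
    (hn : 1 ≤ n) (hμ : μ ≠ 0) (hP : P ≠ 0)
    (h : Rel a b c n μ (fun x => cmp (fun i => PQ ((FF a b)^[i] x)) n) P)
    (hbig : md P < 5 ^ (n / 2)) : md P = 0 := by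
  by_contra hm
  have hφ : ∀ x : Fin 4 → ℂ, (cmp (fun i => PQ ((FF a b)^[i] x)) n).Monic :=
    fun x => (cmp_natDegree _ n).2
  have hD : ∀ x : Fin 4 → ℂ, (cmp (fun i => PQ ((FF a b)^[i] x)) n).natDegree = 5 ^ n :=
    fun x => (cmp_natDegree _ n).1
  have hlv := lv_ne hP
  obtain ⟨w, hw, hwx⟩ : ∃ w : M4, w ≠ 0 ∧ ∀ x : Fin 4 → ℂ, MvPolynomial.eval x w ≠ 0 →
      (MvPolynomial.eval x (lv P).1, MvPolynomial.eval x (lv P).2) ≠ (0 : ℂ × ℂ) := by
    by_cases h1 : (lv P).1 = 0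
    · refine ⟨(lv P).2, fun h2 => hlv (Prod.ext h1 h2), fun x hx h3 => hx (congrArg Prod.snd h3)⟩
    · exact ⟨(lv P).1, h1, fun x hx h3 => hx (congrArg Prod.fst h3)⟩
  have hprod : (∏ i ∈ Finset.range n, PQ (Fp a b i)) ≠ 0 :=
    Finset.prod_ne_zero_iff.2 fun i _ => PQ_Fp_ne a b i
  obtain ⟨x, hx⟩ := exists_eval_ne (mul_ne_zero hw hprod)
  rw [map_mul, map_prod] at hx
  have hx1 := hwx x (left_ne_zero_of_mul hx)
  have hx2 : ∀ i < n, PQ ((FF a b)^[i] x) ≠ 0 := by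
    intro i hi
    have := Finset.prod_ne_zero_iff.1 (right_ne_zero_of_mul hx) i (Finset.mem_range.2 hi)
    rwa [eval_PQ_Fp] at this
  obtain ⟨y, hy1, hy2⟩ := exists_common_zero ha hb hc hn h hφ hD hμ hP ((FF a b)^[n] x)
    (h.lead_ne hc hφ hD x hx1) hm
  obtain ⟨s, hs, hs1⟩ := count (fun i => PQ ((FF a b)^[i] x)) n hx2 y
  exact few_zeros s (by rw [hs]; exact hbig) hx1 fun z hz => h.zero hc hy1 hy2 (hs1 z hz)

lemma eq_monomial {p : ℂ[X]} {m : ℕ} {s : ℂ} (h : LC p m s) (hs : s ≠ 0)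
    (h0 : ∀ y, p.eval y = 0 → y = 0) : p = C s * X ^ m := by
  have hdeg := h.natDegree_eq hs
  have hne := h.ne_zero hs
  have h1 := (IsAlgClosed.splits p).eq_prod_roots
  have h2 : p.roots = Multiset.replicate (Multiset.card p.roots) 0 :=
    Multiset.eq_replicate_card.2 fun y hy => h0 y (isRoot_of_mem_roots hy)
  have h3 : Multiset.card p.roots = m := by
    rw [← hdeg]
    exact (IsAlgClosed.splits p).natDegree_eq_card_roots.symm
  have h4 : p.leadingCoeff = s := by rw [leadingCoeff, hdeg, h.co]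
  rw [h1, h2, h3, h4]
  simp

/-- **The pair is a monomial.** -/
theorem Rel.monomial (ha : a ^ 2 = 2 * a - 5) (hb : b ^ 2 = 2 * b - 5) (hc : c ^ 2 = 2 * c - 5)
    (hn : 1 ≤ n) (hμ : μ ≠ 0) (hP : P ≠ 0)
    (h : Rel a b c n μ (fun _ => X ^ 5 ^ n) P)
    (hbig : md P < 5 ^ n) : P = (C (lv P).1 * X ^ md P, C (lv P).2 * X ^ md P) := by
  have hφ : ∀ x : Fin 4 → ℂ, (X ^ 5 ^ n : ℂ[X]).Monic := fun _ => monic_X_pow _
  have hD : ∀ x : Fin 4 → ℂ, (X ^ 5 ^ n : ℂ[X]).natDegree = 5 ^ n := fun _ => natDegree_X_pow _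
  have hA : ∀ x' : Fin 4 → ℂ,
      (MvPolynomial.eval x' (lv P).1, MvPolynomial.eval x' (lv P).2) ≠ (0 : ℂ × ℂ) →
      ∀ y, (P.1.map (MvPolynomial.eval x')).eval y = 0 →
        (P.2.map (MvPolynomial.eval x')).eval y = 0 → y = 0 := by
    intro x' hx' y hy1 hy2
    obtain ⟨x, rfl⟩ := FF_surj ha hb n x'
    have hx := h.lead_ne' hμ hφ hD x hx'
    by_contra hy
    obtain ⟨s, hs, hs1⟩ := exists_roots (D := 5 ^ n) (by positivity) hy
    exact few_zeros s (by rw [hs]; exact hbig) hx fun z hz =>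
      h.zero hc hy1 hy2 (by simpa using hs1 z hz)
  have hB : ∀ x' : Fin 4 → ℂ,
      (MvPolynomial.eval x' (lv P).1, MvPolynomial.eval x' (lv P).2) ≠ (0 : ℂ × ℂ) →
      ∀ k, k ≠ md P → MvPolynomial.eval x' (P.1.coeff k) = 0 ∧
        MvPolynomial.eval x' (P.2.coeff k) = 0 := by
    intro x' hx' k hk
    have hdet := h.det_eval ha hb hc hn hφ hD hμ hP x'
    have hL := LV_map P x'
    have hA' := hA x' hx'
    have key : ∀ (p q : ℂ[X]) (s t : ℂ), C s * q = C t * p → LC p (md P) s → LC q (md P) t →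
        s ≠ 0 → (∀ y, p.eval y = 0 → y = 0) → p.coeff k = 0 ∧ q.coeff k = 0 := by
      intro p q s t hpq hp hq hs hy
      have h1 := eq_monomial hp hs hy
      have h2 : q = C t * X ^ md P := by
        have h3 : C s * q = C s * (C t * X ^ md P) := by rw [hpq, h1]; ring
        exact mul_left_cancel₀ (C_ne_zero.2 hs) h3
      rw [h1, h2]
      constructor
      · rw [coeff_C_mul_X_pow, if_neg hk]
      · rw [coeff_C_mul_X_pow, if_neg hk]
    by_cases h1 : MvPolynomial.eval x' (lv P).1 = 0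
    · have h2 : MvPolynomial.eval x' (lv P).2 ≠ 0 := fun h2 => hx' (Prod.ext h1 h2)
      have := key _ _ _ _ hdet.symm hL.2 hL.1 h2 fun y hy =>
        hA' y (common_zero hdet.symm h2 hy) hy
      rw [coeff_map, coeff_map] at this
      exact ⟨this.2, this.1⟩
    · have := key _ _ _ _ hdet hL.1 hL.2 h1 fun y hy => hA' y hy (common_zero hdet h1 hy)
      rw [coeff_map, coeff_map] at this
      exact this
  have hlv := lv_ne hP
  obtain ⟨w, hw, hwx⟩ : ∃ w : M4, w ≠ 0 ∧ ∀ x : Fin 4 → ℂ, MvPolynomial.eval x w ≠ 0 →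
      (MvPolynomial.eval x (lv P).1, MvPolynomial.eval x (lv P).2) ≠ (0 : ℂ × ℂ) := by
    by_cases h1 : (lv P).1 = 0
    · refine ⟨(lv P).2, fun h2 => hlv (Prod.ext h1 h2), fun x hx h3 => hx (congrArg Prod.snd h3)⟩
    · exact ⟨(lv P).1, h1, fun x hx h3 => hx (congrArg Prod.fst h3)⟩
  have hC : ∀ k, k ≠ md P → P.1.coeff k = 0 ∧ P.2.coeff k = 0 := by
    intro k hk
    have e1 : w * P.1.coeff k = 0 := by
      refine MvPolynomial.funext fun x => ?_
      rw [map_mul, map_zero]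
      by_cases h1 : MvPolynomial.eval x w = 0
      · rw [h1, zero_mul]
      · rw [(hB x (hwx x h1) k hk).1, mul_zero]
    have e2 : w * P.2.coeff k = 0 := by
      refine MvPolynomial.funext fun x => ?_
      rw [map_mul, map_zero]
      by_cases h1 : MvPolynomial.eval x w = 0
      · rw [h1, zero_mul]
      · rw [(hB x (hwx x h1) k hk).2, mul_zero]
    exact ⟨(mul_eq_zero.1 e1).resolve_left hw, (mul_eq_zero.1 e2).resolve_left hw⟩
  ext1
  · ext1 k
    rw [coeff_C_mul_X_pow]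
    split_ifs with hk
    · rw [hk]; rfl
    · exact (hC k hk).1
  · ext1 k
    rw [coeff_C_mul_X_pow]
    split_ifs with hk
    · rw [hk]; rfl
    · exact (hC k hk).2

end Pool.Agent.TH147.DM
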