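import Pool.Agent.TH147.DM.Hom
import Pool.Agent.TH147.DM.Core

/-!
Regular self-maps of the projective space are given by forms; commuting maps commute up to a
constant on the level of vectors.
-/

set_option autoImplicit false
set_option linter.unusedSectionVars false

open Polynomial

namespace Pool.Agent.TH147.DM

/-- projective four-space -/
abbrev P4 : Type := Projectivization ℂ (Fin 5 → ℂ)

/-- polynomials in five variables -/
abbrev S5 : Type := MvPolynomial (Fin 5) ℂ

lemma exists_eval_ne5 {p : S5} (hp : p ≠ 0) : ∃ x : Fin 5 → ℂ, x ≠ 0 ∧ MvPolynomial.eval x p ≠ 0 := by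
  have h1 : p * MvPolynomial.X 0 ≠ 0 := mul_ne_zero hp (MvPolynomial.X_ne_zero 0)
  by_contra h
  push Not at h
  refine h1 (MvPolynomial.funext fun x => ?_)
  rw [map_mul, map_zero, MvPolynomial.eval_X]
  by_cases hx : x = 0
  · rw [hx]; simp
  · rw [h x hx, zero_mul]

/-- generic representation of a map by forms -/
def GenRep (Ψ : P4 → P4) (d : ℕ) (F : Fin 5 → S5) : Prop :=
  (∀ i, (F i).IsHomogeneous d) ∧ ∃ D : S5, D ≠ 0 ∧ ∀ (v : Fin 5 → ℂ) (hv : v ≠ 0),
    MvPolynomial.eval v D ≠ 0 → ∃ h : GV F v ≠ 0,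
      Ψ (Projectivization.mk ℂ v hv) = Projectivization.mk ℂ (GV F v) h

lemma GenRep.cross {Ψ : P4 → P4} {d d' : ℕ} {F F' : Fin 5 → S5} (h : GenRep Ψ d F)
    (h' : GenRep Ψ d' F') (i j : Fin 5) : F i * F' j = F j * F' i := by
  obtain ⟨-, D, hD, h1⟩ := h
  obtain ⟨-, D', hD', h1'⟩ := h'
  have hne : D * D' * MvPolynomial.X 0 ≠ 0 :=
    mul_ne_zero (mul_ne_zero hD hD') (MvPolynomial.X_ne_zero 0)
  have h2 : (D * D' * MvPolynomial.X 0) * (F i * F' j - F j * F' i) = 0 := by
    refine MvPolynomial.funext fun v => ?_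
    simp only [map_mul, map_sub, map_zero, MvPolynomial.eval_X]
    by_cases hv : v = 0
    · rw [hv]; simp
    by_cases hd : MvPolynomial.eval v D = 0
    · rw [hd]; simp
    by_cases hd' : MvPolynomial.eval v D' = 0
    · rw [hd']; simp
    obtain ⟨h3, h4⟩ := h1 v hv hd
    obtain ⟨h3', h4'⟩ := h1' v hv hd'
    rw [h4, Projectivization.mk_eq_mk_iff'] at h4'
    obtain ⟨c, hc⟩ := h4'
    have e : ∀ i, MvPolynomial.eval v (F i) = c * MvPolynomial.eval v (F' i) := fun i =>
      (congrFun hc i).symm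
    rw [e i, e j]
    ring
  exact sub_eq_zero.1 ((mul_eq_zero.1 h2).resolve_left hne)

lemma GenRep.exists_ne {Ψ : P4 → P4} {d : ℕ} {F : Fin 5 → S5} (h : GenRep Ψ d F) :
    ∃ i, F i ≠ 0 := by
  obtain ⟨-, D, hD, h1⟩ := h
  obtain ⟨v, hv, hv1⟩ := exists_eval_ne5 hD
  obtain ⟨h2, -⟩ := h1 v hv hv1
  by_contra hcon
  push Not at hcon
  apply h2
  ext i
  simp [GV, hcon i]

lemma GenRep.unit {Ψ : P4 → P4} {q : ℕ} {G : Fin 5 → S5} (h : GenRep Ψ q G)
    (hmin : ∀ d F, GenRep Ψ d F → q ≤ d) {D0 : S5} (hD0 : ∀ i, D0 ∣ G i) : IsUnit D0 := by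
  obtain ⟨i0, hi0⟩ := h.exists_ne
  choose k hk using hD0
  have hD0ne : D0 ≠ 0 := by
    rintro rfl
    exact hi0 (by rw [hk i0, zero_mul])
  obtain ⟨e, he, -, heq⟩ := Hom.homog_of_mul (p := D0) (q := k i0) (D := q)
    (by rw [← hk]; exact h.1 i0) (by rw [← hk]; exact hi0)
  have hkhom : ∀ i, (k i).IsHomogeneous (q - e) := by
    intro i
    by_cases hi : k i = 0
    · rw [hi]; exact MvPolynomial.isHomogeneous_zero _ _ _
    · obtain ⟨e', h1, h2, -⟩ := Hom.homog_of_mul (p := D0) (q := k i) (D := q)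
        (by rw [← hk]; exact h.1 i) (mul_ne_zero hD0ne hi)
      rwa [h1.inj_right he hD0ne] at h2
  have hrep : GenRep Ψ (q - e) k := by
    obtain ⟨-, D, hD, h1⟩ := h
    refine ⟨hkhom, D, hD, fun v hv hv1 => ?_⟩
    obtain ⟨h2, h3⟩ := h1 v hv hv1
    have h4 : GV G v = MvPolynomial.eval v D0 • GV k v := by
      ext i
      simp [GV, hk i]
    have h5 : GV k v ≠ 0 := by
      intro h0
      rw [h0, smul_zero] at h4
      exact h2 h4
    refine ⟨h5, ?_⟩
    rw [h3, Projectivization.mk_eq_mk_iff']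
    exact ⟨_, h4.symm⟩
  have h2 := hmin _ _ hrep
  have h3 : e = 0 := by omega
  rw [h3] at he
  have h4 := MvPolynomial.totalDegree_eq_zero_iff_eq_C.1 (Nat.le_zero.1 he.totalDegree_le)
  rw [h4]
  refine (isUnit_iff_ne_zero.2 ?_).map MvPolynomial.C
  intro h0
  rw [h0, MvPolynomial.C_0] at h4
  exact hD0ne h4

/-- **Regular self-maps are given by forms without common zero.** -/
theorem glob {Ψ : P4 → P4}
    (hreg : ∀ p : P4, ∃ (d : ℕ) (F : Fin 5 → S5), (∀ i, (F i).IsHomogeneous d) ∧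
      GV F p.rep ≠ 0 ∧ ∀ (v : Fin 5 → ℂ) (hv : v ≠ 0) (h : GV F v ≠ 0),
        Ψ (Projectivization.mk ℂ v hv) = Projectivization.mk ℂ (GV F v) h) :
    ∃ (q : ℕ) (G : Fin 5 → S5), (∀ i, (G i).IsHomogeneous q) ∧
      ∀ (v : Fin 5 → ℂ) (hv : v ≠ 0), ∃ h : GV G v ≠ 0,
        Ψ (Projectivization.mk ℂ v hv) = Projectivization.mk ℂ (GV G v) h := by
  classical
  have hgen : ∀ (p : P4) (d : ℕ) (F : Fin 5 → S5), (∀ i, (F i).IsHomogeneous d) →
      GV F p.rep ≠ 0 → (∀ (v : Fin 5 → ℂ) (hv : v ≠ 0) (h : GV F v ≠ 0),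
        Ψ (Projectivization.mk ℂ v hv) = Projectivization.mk ℂ (GV F v) h) → GenRep Ψ d F := by
    intro p d F hF hFp hrep
    obtain ⟨i, hi⟩ : ∃ i, MvPolynomial.eval p.rep (F i) ≠ 0 := by
      by_contra hcon
      push Not at hcon
      exact hFp (funext hcon)
    refine ⟨hF, F i, ?_, fun v hv hv1 => ?_⟩
    · intro h0
      rw [h0, map_zero] at hi
      exact hi rfl
    · have h1 : GV F v ≠ 0 := fun h0 => hv1 (congrFun h0 i)
      exact ⟨h1, hrep v hv h1⟩
  have hex : ∃ d, ∃ F, GenRep Ψ d F := by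
    obtain ⟨d, F, h1, h2, h3⟩ := hreg (Projectivization.mk ℂ (fun _ => 1)
      (fun h => one_ne_zero (congrFun h 0)))
    exact ⟨d, F, hgen _ d F h1 h2 h3⟩
  obtain ⟨G, hG⟩ := Nat.find_spec hex
  have hmin : ∀ d F, GenRep Ψ d F → Nat.find hex ≤ d := fun d F h => Nat.find_min' hex ⟨F, h⟩
  refine ⟨Nat.find hex, G, hG.1, fun v hv => ?_⟩
  obtain ⟨d, F, h1, h2, h3⟩ := hreg (Projectivization.mk ℂ v hv)
  have hF := hgen _ d F h1 h2 h3
  -- the value at `v`
  obtain ⟨u, hu⟩ := Projectivization.exists_smul_eq_mk_rep ℂ v hv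
  have h4 : GV F v ≠ 0 := by
    intro h0
    apply h2
    rw [← hu]
    ext i
    show MvPolynomial.eval ((u : ℂ) • v) (F i) = 0
    rw [hom_smul (h1 i), show MvPolynomial.eval v (F i) = 0 from congrFun h0 i, mul_zero]
  obtain ⟨j, hj⟩ : ∃ j, MvPolynomial.eval v (F j) ≠ 0 := by
    by_contra hcon
    push Not at hcon
    exact h4 (funext hcon)
  have hFj : F j ≠ 0 := by
    intro h0
    rw [h0, map_zero] at hj
    exact hj rfl
  have hGj : G j ≠ 0 := by
    intro h0
    obtain ⟨i, hi⟩ := hG.exists_ne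
    have := hG.cross hF i j
    rw [h0, zero_mul] at this
    exact mul_ne_zero hi hFj this
  obtain ⟨a', b', c', hrel, ha', hb'⟩ := UniqueFactorizationMonoid.exists_reduced_factors
    (G j) hGj (F j)
  have hc' : c' ≠ 0 := by
    rintro rfl
    rw [zero_mul] at ha'
    exact hGj ha'.symm
  have hdvd : ∀ i, a' ∣ G i := by
    intro i
    have h5 := hG.cross hF i j
    rw [← ha', ← hb'] at h5
    have h6 : G i * b' = a' * F i := by
      refine mul_left_cancel₀ hc' ?_
      linear_combination h5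
    exact hrel.dvd_of_dvd_mul_right ⟨_, h6⟩
  have hunit := hG.unit hmin hdvd
  obtain ⟨a'', ha''⟩ := hunit.exists_left_inv
  -- `F j = G j * w`
  set w := a'' * b' with hw
  have hFw : F j = G j * w := by
    rw [← ha', ← hb', hw]
    linear_combination (-c' * b') * ha''
  have hFi : ∀ i, F i = G i * w := by
    intro i
    have h5 := hG.cross hF i j
    rw [hFw] at h5
    refine mul_left_cancel₀ hGj ?_
    linear_combination -h5
  have h5 : GV F v = MvPolynomial.eval v w • GV G v := by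
    ext i
    show MvPolynomial.eval v (F i) = MvPolynomial.eval v w * MvPolynomial.eval v (G i)
    rw [hFi i, map_mul, mul_comm]
  have h6 : GV G v ≠ 0 := by
    intro h0
    rw [h0, smul_zero] at h5
    exact h4 h5
  refine ⟨h6, ?_⟩
  rw [h3 v hv h4, Projectivization.mk_eq_mk_iff']
  exact ⟨_, h5.symm⟩

/-! ### The constant -/

/-- polynomial curves -/
def Curve (γ : ℂ → Fin 5 → ℂ) : Prop := ∃ P : Fin 5 → ℂ[X], ∀ t i, γ t i = (P i).eval t

lemma Curve.GV {γ : ℂ → Fin 5 → ℂ} (h : Curve γ) (G : Fin 5 → S5) : Curve fun t => GV G (γ t) := by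
  obtain ⟨P, hP⟩ := h
  refine ⟨fun i => MvPolynomial.aeval P (G i), fun t i => ?_⟩
  rw [eval_aeval_poly]
  show MvPolynomial.eval (γ t) (G i) = _
  congr 2
  exact funext fun j => hP t j

lemma curve_line (x y : Fin 5 → ℂ) : Curve fun t => x + t • y :=
  ⟨fun i => C (x i) + X * C (y i), fun t i => by simp; ring⟩

/-- polynomials without common zero -/
lemma bezout {b : Fin 5 → ℂ[X]} (h : ∀ t : ℂ, ∃ i, (b i).eval t ≠ 0) :
    ∃ u : Fin 5 → ℂ[X], ∑ i, u i * b i = 1 := by
  rw [← Ideal.mem_span_range_iff_exists_fun]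
  obtain ⟨g, hg⟩ := (IsPrincipalIdealRing.principal (Ideal.span (Set.range b))).principal
  have hmem : ∀ i, ∃ c, c * g = b i := by
    intro i
    have h1 : b i ∈ Ideal.span (Set.range b) := Ideal.subset_span ⟨i, rfl⟩
    rw [hg] at h1
    exact Ideal.mem_span_singleton'.1 h1
  have hunit : g.degree = 0 := by
    by_contra hd
    obtain ⟨t, ht⟩ := IsAlgClosed.exists_root g hd
    obtain ⟨i, hi⟩ := h t
    obtain ⟨c, hc⟩ := hmem i
    apply hi
    rw [← hc, eval_mul, show g.eval t = 0 from ht, mul_zero]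
  have h2 : IsUnit g := isUnit_iff_degree_eq_zero.2 hunit
  rw [hg]
  show (1 : ℂ[X]) ∈ Ideal.span {g}
  rw [Ideal.span_singleton_eq_top.2 h2]
  exact Submodule.mem_top

/-- linear independence of two vectors -/
def Ind (x y : Fin 5 → ℂ) : Prop := ∀ s t : ℂ, s • x + t • y = 0 → s = 0 ∧ t = 0

theorem lam {A B : (Fin 5 → ℂ) → Fin 5 → ℂ} (hA : ∀ γ, Curve γ → Curve fun t => A (γ t))
    (hB : ∀ γ, Curve γ → Curve fun t => B (γ t)) (hA0 : ∀ v, v ≠ 0 → A v ≠ 0)
    (hB0 : ∀ v, v ≠ 0 → B v ≠ 0) (h : ∀ v, v ≠ 0 → ∃ c : ℂ, A v = c • B v) :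
    ∃ l : ℂ, l ≠ 0 ∧ ∀ v, v ≠ 0 → A v = l • B v := by
  have h' : ∀ v, ∃ c : ℂ, v ≠ 0 → A v = c • B v := by
    intro v
    by_cases hv : v = 0
    · exact ⟨0, fun h => absurd hv h⟩
    · obtain ⟨c, hc⟩ := h v hv
      exact ⟨c, fun _ => hc⟩
  choose c hc using h'
  have hc0 : ∀ v, v ≠ 0 → c v ≠ 0 := by
    intro v hv h0
    apply hA0 v hv
    rw [hc v hv, h0, zero_smul]
  have huniq : ∀ v, v ≠ 0 → ∀ d : ℂ, A v = d • B v → d = c v := by
    intro v hv d hd
    have h1 : (d - c v) • B v = 0 := by rw [sub_smul, ← hd, ← hc v hv, sub_self]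
    rcases smul_eq_zero.1 h1 with h2 | h2
    · exact sub_eq_zero.1 h2
    · exact absurd h2 (hB0 v hv)
  have key : ∀ x y, Ind x y → c x = c (x + y) := by
    intro x y hxy
    have hne : ∀ t : ℂ, x + t • y ≠ 0 := by
      intro t h0
      have := hxy 1 t (by rw [one_smul]; exact h0)
      exact one_ne_zero this.1
    obtain ⟨P, hP⟩ := hA _ (curve_line x y)
    obtain ⟨Q, hQ⟩ := hB _ (curve_line x y)
    have hQ0 : ∀ t : ℂ, ∃ i, (Q i).eval t ≠ 0 := by
      intro t
      by_contra hcon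
      push Not at hcon
      apply hB0 _ (hne t)
      ext i
      exact (hQ t i).trans (hcon i)
    obtain ⟨u, hu⟩ := bezout hQ0
    have hPQ : ∀ t i, (P i).eval t = c (x + t • y) * (Q i).eval t := by
      intro t i
      rw [← hP t i, ← hQ t i]
      exact congrFun (hc _ (hne t)) i
    have hcross : ∀ i j, P i * Q j = P j * Q i := by
      intro i j
      refine Polynomial.funext fun t => ?_
      rw [eval_mul, eval_mul, hPQ t i, hPQ t j]
      ring
    set w : ℂ[X] := ∑ i, u i * P i with hw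
    have hPw : ∀ j, P j = w * Q j := by
      intro j
      calc P j = P j * ∑ i, u i * Q i := by rw [hu, mul_one]
        _ = ∑ i, u i * P i * Q j := by
          rw [Finset.mul_sum]
          refine Finset.sum_congr rfl fun i _ => ?_
          linear_combination (-u i) * hcross i j
        _ = w * Q j := by rw [hw, Finset.sum_mul]
    have hwc : ∀ t : ℂ, w.eval t = c (x + t • y) := by
      intro t
      apply huniq _ (hne t)
      ext i
      calc A (x + t • y) i = (P i).eval t := hP t i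
        _ = w.eval t * (Q i).eval t := by rw [hPw i, eval_mul]
        _ = w.eval t * B (x + t • y) i := by rw [← hQ t i]
    have hwd : w.degree = 0 := by
      by_contra hd
      obtain ⟨t, ht⟩ := IsAlgClosed.exists_root w hd
      exact hc0 _ (hne t) ((hwc t).symm.trans ht)
    have hwC := eq_C_of_degree_eq_zero hwd
    have e0 := hwc 0
    have e1 := hwc 1
    rw [hwC, eval_C] at e0 e1
    rw [zero_smul, add_zero] at e0
    rw [one_smul] at e1
    exact e0.symm.trans e1
  have hsymm : ∀ x y, Ind x y → Ind y x := by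
    intro x y hxy s t h
    have := hxy t s (by rw [add_comm]; exact h)
    exact ⟨this.2, this.1⟩
  have key2 : ∀ x y, Ind x y → c x = c y := by
    intro x y hxy
    rw [key x y hxy, key y x (hsymm x y hxy), add_comm]
  have hex : ∀ x : Fin 5 → ℂ, x ≠ 0 → ∃ z, Ind x z := by
    intro x hx
    obtain ⟨i, hi⟩ : ∃ i, x i ≠ 0 := by
      by_contra hcon
      push Not at hcon
      exact hx (funext hcon)
    obtain ⟨j, hj⟩ : ∃ j : Fin 5, j ≠ i := exists_ne i
    refine ⟨Pi.single j 1, fun s t h => ?_⟩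
    have h1 := congrFun h i
    simp only [Pi.add_apply, Pi.smul_apply, smul_eq_mul, Pi.single_eq_of_ne hj.symm, mul_zero,
      add_zero, Pi.zero_apply] at h1
    have hs : s = 0 := (mul_eq_zero.1 h1).resolve_right hi
    refine ⟨hs, ?_⟩
    have h2 := congrFun h j
    rw [hs] at h2
    simpa using h2
  have hall : ∀ x y : Fin 5 → ℂ, x ≠ 0 → y ≠ 0 → c x = c y := by
    intro x y hx hy
    by_cases hxy : Ind x y
    · exact key2 x y hxy
    · obtain ⟨z, hz⟩ := hex x hx
      rw [key2 x z hz]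
      refine (key2 y z ?_).symm
      -- `y` is a multiple of `x`
      unfold Ind at hxy
      push Not at hxy
      obtain ⟨s, t, hst, hne⟩ := hxy
      have ht : t ≠ 0 := by
        intro ht
        rw [ht, zero_smul, add_zero] at hst
        rcases smul_eq_zero.1 hst with h1 | h1
        · exact hne h1 ht
        · exact hx h1
      have hy' : y = (-(s / t)) • x := by
        have h1 : t • y = -(s • x) := by
          rw [eq_neg_iff_add_eq_zero, add_comm]; exact hst
        have h2 : y = t⁻¹ • (t • y) := by rw [smul_smul, inv_mul_cancel₀ ht, one_smul]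
        rw [h2, h1, smul_neg, smul_smul, neg_smul]
        congr 2
        field_simp
      have hr : -(s / t) ≠ 0 := by
        intro h0
        rw [h0, zero_smul] at hy'
        exact hy hy'
      intro s' t' h1
      rw [hy', smul_smul] at h1
      obtain ⟨h2, h3⟩ := hz _ _ h1
      exact ⟨(mul_eq_zero.1 h2).resolve_right hr, h3⟩
  refine ⟨c (fun _ => 1), hc0 _ (fun h => one_ne_zero (congrFun h 0)), fun v hv => ?_⟩
  rw [hc v hv, hall v (fun _ => 1) hv (fun h => one_ne_zero (congrFun h 0))]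

end Pool.Agent.TH147.DM
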