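import Mathlib

/-!
Factors of homogeneous polynomials are homogeneous (following a library file of the pool).
-/

set_option autoImplicit false
set_option linter.unusedSectionVars false

namespace Pool.Agent.TH147.DM.Hom

open MvPolynomial

section Factor

variable {σ K : Type*} [Field K]

/-- `X i ↦ t X i` -/
noncomputable def Th (σ K : Type*) [Field K] :
    MvPolynomial σ K →ₐ[K] Polynomial (MvPolynomial σ K) :=
  aeval fun i => Polynomial.C (X i) * Polynomial.X

lemma Th_monomial (c : σ →₀ ℕ) (a : K) :
    Th σ K (monomial c a) = Polynomial.C (monomial c a) * Polynomial.X ^ c.degree := by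
  rw [Th, aeval_monomial, monomial_eq, Finsupp.prod, Finsupp.prod, map_mul, map_prod]
  simp only [mul_pow, map_pow]
  rw [Finset.prod_mul_distrib, Finset.prod_pow_eq_pow_sum, Finsupp.degree_apply, ← mul_assoc]
  rfl

lemma Th_coeff (p : MvPolynomial σ K) (j : ℕ) :
    (Th σ K p).coeff j = homogeneousComponent j p := by
  induction p using MvPolynomial.induction_on' with
  | monomial c a =>
    rw [Th_monomial, Polynomial.coeff_C_mul_X_pow]
    rw [homogeneousComponent_of_mem (isHomogeneous_monomial a rfl)]
  | add p q hp hq => rw [map_add, Polynomial.coeff_add, hp, hq, map_add]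

lemma Th_homog {p : MvPolynomial σ K} {e : ℕ} (hp : p.IsHomogeneous e) :
    Th σ K p = Polynomial.C p * Polynomial.X ^ e := by
  ext1 j
  rw [Th_coeff, Polynomial.coeff_C_mul_X_pow, homogeneousComponent_of_mem hp]

lemma Th_ne_zero {p : MvPolynomial σ K} (hp : p ≠ 0) : Th σ K p ≠ 0 := by
  intro h
  apply hp
  rw [← sum_homogeneousComponent p]
  apply Finset.sum_eq_zero
  intro j _
  rw [← Th_coeff, h, Polynomial.coeff_zero]

/-- a factor of a nonzero homogeneous polynomial is homogeneous -/
lemma homog_of_mul {p q : MvPolynomial σ K} {D : ℕ} (h : (p * q).IsHomogeneous D)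
    (h0 : p * q ≠ 0) : ∃ e, p.IsHomogeneous e ∧ q.IsHomogeneous (D - e) ∧ e ≤ D := by
  have hp0 : p ≠ 0 := left_ne_zero_of_mul h0
  have hq0 : q ≠ 0 := right_ne_zero_of_mul h0
  have hP := Th_ne_zero hp0
  have hQ := Th_ne_zero hq0
  have h1 : Th σ K p * Th σ K q = Polynomial.C (p * q) * Polynomial.X ^ D := by
    rw [← map_mul, Th_homog h]
  have hdeg : (Th σ K p).natDegree + (Th σ K q).natDegree = D := by
    rw [← Polynomial.natDegree_mul hP hQ, h1, Polynomial.natDegree_C_mul_X_pow _ _ h0]
  have htr : (Th σ K p).natTrailingDegree + (Th σ K q).natTrailingDegree = D := by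
    rw [← Polynomial.natTrailingDegree_mul hP hQ, h1, Polynomial.C_mul_X_pow_eq_monomial,
      Polynomial.natTrailingDegree_monomial h0]
  have hle1 := Polynomial.natTrailingDegree_le_natDegree (Th σ K p)
  have hle2 := Polynomial.natTrailingDegree_le_natDegree (Th σ K q)
  have key : ∀ r : MvPolynomial σ K, (Th σ K r).natTrailingDegree = (Th σ K r).natDegree →
      r.IsHomogeneous (Th σ K r).natDegree := by
    intro r hr c hc
    have h2 : (Th σ K r).coeff c.degree ≠ 0 := by
      rw [Th_coeff]
      intro h
      have h5 := congrArg (coeff c) h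
      rw [coeff_homogeneousComponent, if_pos rfl, coeff_zero] at h5
      exact hc h5
    have h3 := Polynomial.natTrailingDegree_le_of_ne_zero h2
    have h4 := Polynomial.le_natDegree_of_ne_zero h2
    have h5 : Finsupp.weight 1 c = c.degree := by rw [Finsupp.degree_eq_weight_one]; rfl
    rw [h5]
    omega
  refine ⟨(Th σ K p).natDegree, key p (by omega), ?_, by omega⟩
  have := key q (by omega)
  rwa [show (Th σ K q).natDegree = D - (Th σ K p).natDegree by omega] at this

end Factor

end Pool.Agent.TH147.DM.Hom
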