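import Pool.Agent.TH147.DM.Alg

/-!
Leading coefficients of polynomials and the degree argument.
-/

set_option autoImplicit false
set_option linter.unusedSectionVars false

open Polynomial

namespace Pool.Agent.TH147.DM

/-- `p` has degree at most `d` and the coefficient of degree `d` is `c`. -/
structure LC (p : ℂ[X]) (d : ℕ) (c : ℂ) : Prop where
  deg : p.natDegree ≤ d
  co : p.coeff d = c

namespace LC

variable {p q : ℂ[X]} {d e : ℕ} {a b : ℂ}

lemma neg (h : LC p d a) : LC (-p) d (-a) := ⟨by rw [natDegree_neg]; exact h.deg, by simp [h.co]⟩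

lemma add (h : LC p d a) (h' : LC q d b) : LC (p + q) d (a + b) :=
  ⟨natDegree_add_le_of_degree_le h.deg h'.deg, by simp [h.co, h'.co]⟩

lemma sub (h : LC p d a) (h' : LC q d b) : LC (p - q) d (a - b) := by
  rw [sub_eq_add_neg, sub_eq_add_neg]; exact h.add h'.neg

lemma mul (h : LC p d a) (h' : LC q e b) : LC (p * q) (d + e) (a * b) :=
  ⟨natDegree_mul_le.trans (add_le_add h.deg h'.deg), by
    rw [coeff_mul_add_eq_of_natDegree_le h.deg h'.deg, h.co, h'.co]⟩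

lemma C_mul (r : ℂ) (h : LC p d a) : LC (C r * p) d (r * a) :=
  ⟨(natDegree_C_mul_le _ _).trans h.deg, by simp [h.co]⟩

lemma pow (h : LC p d a) (k : ℕ) : LC (p ^ k) (k * d) (a ^ k) := by
  induction k with
  | zero => simpa using (⟨by simp, by simp⟩ : LC (1 : ℂ[X]) 0 1)
  | succ k ih =>
    rw [pow_succ, pow_succ]
    have := ih.mul h
    rwa [← Nat.succ_mul] at this

lemma congr {d' : ℕ} {a' : ℂ} (h : LC p d a) (hd : d = d') (ha : a = a') : LC p d' a' := by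
  subst hd ha; exact h

lemma natDegree_eq (h : LC p d a) (ha : a ≠ 0) : p.natDegree = d :=
  le_antisymm h.deg (le_natDegree_of_ne_zero (by rw [h.co]; exact ha))

lemma ne_zero (h : LC p d a) (ha : a ≠ 0) : p ≠ 0 := by
  rintro rfl
  have := h.co
  rw [coeff_zero] at this
  exact ha this.symm

end LC

/-- `g` has degree at most `m` and leading vector `u`. -/
def LV (g : ℂ[X] × ℂ[X]) (m : ℕ) (u : ℂ × ℂ) : Prop := LC g.1 m u.1 ∧ LC g.2 m u.2

lemma LV.AA {c : ℂ} {g : ℂ[X] × ℂ[X]} {m : ℕ} {u : ℂ × ℂ} (h : LV g m u) :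
    LV (AA (C c) g) (5 * m) (AA c u) := by
  constructor
  · have := (h.1.mul (((h.1.pow 2).sub ((h.2.pow 2).C_mul c)).pow 2)).neg
    exact this.congr (by ring) rfl
  · have := h.2.mul ((((h.1.pow 2).C_mul c).sub (h.2.pow 2)).pow 2)
    exact this.congr (by ring) rfl

lemma LV.iter {c : ℂ} {g : ℂ[X] × ℂ[X]} {m : ℕ} {u : ℂ × ℂ} (h : LV g m u) (n : ℕ) :
    LV ((DM.AA (C c))^[n] g) (m * 5 ^ n) ((DM.AA c)^[n] u) := by
  induction n with
  | zero => simpa using h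
  | succ n ih =>
    rw [Function.iterate_succ_apply', Function.iterate_succ_apply', pow_succ]
    have := ih.AA (c := c)
    rwa [show 5 * (m * 5 ^ n) = m * (5 ^ n * 5) by ring] at this

lemma LV.K1 {c : ℂ} {g : ℂ[X] × ℂ[X]} {m : ℕ} {u : ℂ × ℂ} (h : LV g m u) (p : ℂ × ℂ) :
    LC (DM.K1 (C c) (C p.1, C p.2) g) (4 * m) (DM.K1 c p u) := by
  have e1 : DM.K1 (C c) (C p.1, C p.2) g =
      C ((5 - 2 * c) * p.1 ^ 4 + 2 * c * p.1 ^ 2 * p.2 ^ 2 - p.2 ^ 4) * g.1 ^ 4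
      + C (2 * c * p.1 ^ 4 + (24 - 20 * c) * p.1 ^ 2 * p.2 ^ 2 + 2 * c * p.2 ^ 4) *
        (g.1 ^ 2 * g.2 ^ 2)
      + C (-p.1 ^ 4 + 2 * c * p.1 ^ 2 * p.2 ^ 2 + (5 - 2 * c) * p.2 ^ 4) * g.2 ^ 4
      + C ((20 + 4 * c) * p.1 ^ 3 * p.2 + (4 - 12 * c) * p.1 * p.2 ^ 3) * (g.1 ^ 3 * g.2)
      + C ((4 - 12 * c) * p.1 ^ 3 * p.2 + (20 + 4 * c) * p.1 * p.2 ^ 3) * (g.1 * g.2 ^ 3) := by
    simp only [DM.K1, map_add, map_sub, map_mul, map_pow, map_ofNat, map_neg]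
    ring
  rw [e1]
  have h1 := ((h.1.pow 4).C_mul ((5 - 2 * c) * p.1 ^ 4 + 2 * c * p.1 ^ 2 * p.2 ^ 2 - p.2 ^ 4))
  have h2 := (((h.1.pow 2).mul (h.2.pow 2)).C_mul
    (2 * c * p.1 ^ 4 + (24 - 20 * c) * p.1 ^ 2 * p.2 ^ 2 + 2 * c * p.2 ^ 4)).congr
    (show 2 * m + 2 * m = 4 * m by ring) rfl
  have h3 := ((h.2.pow 4).C_mul (-p.1 ^ 4 + 2 * c * p.1 ^ 2 * p.2 ^ 2 + (5 - 2 * c) * p.2 ^ 4))
  have h4 := (((h.1.pow 3).mul h.2).C_mul
    ((20 + 4 * c) * p.1 ^ 3 * p.2 + (4 - 12 * c) * p.1 * p.2 ^ 3)).congr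
    (show 3 * m + m = 4 * m by ring) rfl
  have h5 := ((h.1.mul (h.2.pow 3)).C_mul
    ((4 - 12 * c) * p.1 ^ 3 * p.2 + (20 + 4 * c) * p.1 * p.2 ^ 3)).congr
    (show m + 3 * m = 4 * m by ring) rfl
  refine ((((h1.add h2).add h3).add h4).add h5).congr rfl ?_
  simp only [DM.K1]
  ring

lemma LV.Kn {c : ℂ} {g : ℂ[X] × ℂ[X]} {m : ℕ} {u : ℂ × ℂ} (h : LV g m u) (n : ℕ) :
    LC (DM.Kn (C c) n (C u.1, C u.2) g) (m * (5 ^ n - 1)) (DM.Kn c n u u) := by
  induction n with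
  | zero => simpa [DM.Kn] using (⟨by simp, by simp⟩ : LC (1 : ℂ[X]) 0 1)
  | succ n ih =>
    rw [DM.Kn, DM.Kn, Finset.prod_range_succ, Finset.prod_range_succ]
    have h1 := map_AA_iter (C : ℂ →+* ℂ[X]) c n u
    rw [h1]
    have h2 := (h.iter (c := c) n).K1 (c := c) ((DM.AA c)^[n] u)
    refine (ih.mul h2).congr ?_ rfl
    have : 1 ≤ 5 ^ n := Nat.one_le_pow _ _ (by norm_num)
    obtain ⟨k, hk⟩ : ∃ k, 5 ^ n = k + 1 := ⟨5 ^ n - 1, by omega⟩
    rw [pow_succ, hk]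
    have e : (k + 1) * 5 - 1 = 5 * k + 4 := by omega
    rw [e, Nat.add_sub_cancel]
    ring

lemma coeff_comp_of_le {p φ : ℂ[X]} {m D : ℕ} (hp : p.natDegree ≤ m) (hφ : φ.Monic)
    (hD : φ.natDegree = D) (hD0 : 0 < D) : (p.comp φ).coeff (m * D) = p.coeff m := by
  rcases hp.lt_or_eq with h | h
  · rw [coeff_eq_zero_of_natDegree_lt h, coeff_eq_zero_of_natDegree_lt]
    rw [natDegree_comp, hD]
    exact Nat.mul_lt_mul_of_pos_right h hD0
  · have := coeff_comp_degree_mul_degree (p := p) (q := φ) (by omega)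
    rw [h, hD, hφ.leadingCoeff, one_pow, mul_one, leadingCoeff, h] at this
    exact this

/-- The degree argument. -/
theorem lemM {c : ℂ} (hc : c ^ 2 = 2 * c - 5) {n : ℕ} (hn : 1 ≤ n) {m : ℕ}
    {g g' : ℂ[X] × ℂ[X]} {u u' : ℂ × ℂ} (hg : LV g m u) (hg' : LV g' m u') {φ : ℂ[X]}
    (hφ : φ.Monic) (hD : φ.natDegree = 5 ^ n) {μ : ℂ} (hμ : μ ≠ 0)
    (h : (AA (C c))^[n] g = (C μ * g'.1.comp φ, C μ * g'.2.comp φ))
    (hK : Kn c n u u ≠ 0)
    (hd : (det2 (C u.1, C u.2) g).natDegree = (det2 (C u'.1, C u'.2) g').natDegree) :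
    det2 (C u.1, C u.2) g = 0 := by
  have hcC : (C c : ℂ[X]) ^ 2 = 2 * C c - 5 := by
    rw [← C_pow, hc]; simp only [map_sub, map_mul, map_ofNat]
  have hD0 : 0 < 5 ^ n := by positivity
  have hu : (AA c)^[n] u = (μ * u'.1, μ * u'.2) := by
    have h1 := hg.iter (c := c) n
    rw [h] at h1
    have h2 := h1.1.co
    have h3 := h1.2.co
    simp only [coeff_C_mul] at h2 h3
    rw [coeff_comp_of_le hg'.1.deg hφ hD hD0, hg'.1.co] at h2
    rw [coeff_comp_of_le hg'.2.deg hφ hD hD0, hg'.2.co] at h3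
    exact Prod.ext h2.symm h3.symm
  by_contra hne
  have h1 := det_iter hcC n (C u.1, C u.2) g
  rw [map_AA_iter (C : ℂ →+* ℂ[X]) c n u, h, hu] at h1
  have h2 : det2 (C (μ * u'.1), C (μ * u'.2)) (C μ * g'.1.comp φ, C μ * g'.2.comp φ) =
      C (μ ^ 2) * (det2 (C u'.1, C u'.2) g').comp φ := by
    simp only [det2, sub_comp, mul_comp, C_comp, C_mul, C_pow]
    ring
  rw [h2] at h1
  have hKL := hg.Kn (c := c) n
  have h3 := congrArg natDegree h1
  rw [natDegree_mul hne (hKL.ne_zero hK), hKL.natDegree_eq hK,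
    natDegree_C_mul (pow_ne_zero 2 hμ), natDegree_comp, hD, ← hd] at h3
  set k := (det2 (C u.1, C u.2) g).natDegree with hk
  have hLC : LC (det2 (C u.1, C u.2) g) m (u.1 * u.2 - u.2 * u.1) := (hg.2.C_mul u.1).sub (hg.1.C_mul u.2)
  have hk1 : k ≤ m := hLC.deg
  have h5 : 5 ≤ 5 ^ n := by
    calc 5 = 5 ^ 1 := by norm_num
      _ ≤ 5 ^ n := Nat.pow_le_pow_right (by norm_num) hn
  have hkm : k = m := by
    obtain ⟨j, hj⟩ : ∃ j, 5 ^ n = j + 1 := ⟨5 ^ n - 1, by omega⟩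
    rw [hj] at h3 h5
    rw [Nat.add_sub_cancel] at h3
    have : k * j = m * j := by nlinarith
    exact Nat.eq_of_mul_eq_mul_right (by omega) this
  have h6 := hLC.co
  rw [← hkm, hk] at h6
  rw [coeff_natDegree, mul_comm u.1 u.2, sub_self, leadingCoeff_eq_zero] at h6
  exact hne h6

/-! ### Compositions of maps `z ↦ z ^ 5 + c i` -/

/-- The composition of the maps `z ↦ z ^ 5 + c i`, `i < n`. -/
noncomputable def cmp (c : ℕ → ℂ) : ℕ → ℂ[X]
  | 0 => X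
  | n + 1 => cmp c n ^ 5 + C (c n)

lemma cmp_natDegree (c : ℕ → ℂ) (n : ℕ) : (cmp c n).natDegree = 5 ^ n ∧ (cmp c n).Monic := by
  induction n with
  | zero => exact ⟨by simp [cmp], by simp [cmp]⟩
  | succ n ih =>
    have h1 : (cmp c n ^ 5).natDegree = 5 ^ (n + 1) := by
      rw [ih.2.natDegree_pow, ih.1]; ring
    have h2 : (C (c n)).degree < (cmp c n ^ 5).degree := by
      have hm : (cmp c n ^ 5).Monic := ih.2.pow 5
      rw [degree_eq_natDegree hm.ne_zero, h1]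
      refine lt_of_le_of_lt degree_C_le ?_
      exact_mod_cast (by positivity : 0 < 5 ^ (n + 1))
    refine ⟨?_, ?_⟩
    · rw [cmp, natDegree_add_C, h1]
    · rw [cmp]
      exact (ih.2.pow 5).add_of_left h2

lemma cmp_eval_succ (c : ℕ → ℂ) (n : ℕ) (z : ℂ) :
    (cmp c (n + 1)).eval z = ((cmp c n).eval z) ^ 5 + c n := by simp [cmp]

lemma cmp_succ' (c : ℕ → ℂ) (n : ℕ) :
    cmp c (n + 1) = (cmp (fun i => c (i + 1)) n).comp (X ^ 5 + C (c 0)) := by
  induction n with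
  | zero => simp [cmp]
  | succ n ih =>
    rw [cmp, ih, cmp]
    simp

lemma exists_fifth_roots {w : ℂ} (hw : w ≠ 0) : ∃ s : Finset ℂ, s.card = 5 ∧ ∀ v ∈ s, v ^ 5 = w := by
  obtain ⟨v, hv⟩ := IsAlgClosed.exists_pow_nat_eq w (n := 5) (by norm_num)
  have hv0 : v ≠ 0 := by rintro rfl; exact hw (by rw [← hv]; norm_num)
  have hz := Complex.isPrimitiveRoot_exp 5 (by norm_num)
  set ζ := Complex.exp (2 * Real.pi * Complex.I / (5 : ℕ)) with hζ
  refine ⟨(Finset.range 5).image fun i => ζ ^ i * v, ?_, ?_⟩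
  · rw [Finset.card_image_of_injOn, Finset.card_range]
    intro i hi j hj hij
    have h1 : ζ ^ i = ζ ^ j := mul_right_cancel₀ hv0 hij
    exact hz.pow_inj (by simpa using hi) (by simpa using hj) h1
  · intro x hx
    obtain ⟨i, -, rfl⟩ := Finset.mem_image.1 hx
    rw [mul_pow, hv, ← pow_mul, mul_comm i 5, pow_mul, hz.pow_eq_one, one_pow, one_mul]

lemma count_aux (c : ℕ → ℂ) (n : ℕ) (h : c n ≠ 0) (y : ℂ) : ∃ s : Finset ℂ, s.card = 5 ∧
    ∀ v ∈ s, (v ^ 5 + c n) ^ 5 + c (n + 1) = y := by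
  by_cases hy : y - c (n + 1) = 0
  · obtain ⟨s, hs, hs1⟩ := exists_fifth_roots (neg_ne_zero.2 h)
    refine ⟨s, hs, fun v hv => ?_⟩
    rw [hs1 v hv]
    linear_combination -hy
  · obtain ⟨s, hs, hs1⟩ := exists_fifth_roots hy
    have hex : ∀ w : ℂ, ∃ v : ℂ, v ^ 5 = w - c n := fun w =>
      IsAlgClosed.exists_pow_nat_eq _ (by norm_num)
    choose r hr using hex
    refine ⟨s.image r, ?_, ?_⟩
    · rw [Finset.card_image_of_injOn, hs]
      intro w hw w' hw' hww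
      have h1 := hr w
      have h2 := hr w'
      rw [hww] at h1
      linear_combination h2 - h1
    · intro v hv
      obtain ⟨w, hw, rfl⟩ := Finset.mem_image.1 hv
      rw [hr w]
      linear_combination hs1 w hw

/-- A composition has many preimages of each point. -/
lemma count (c : ℕ → ℂ) : ∀ n : ℕ, (∀ i < n, c i ≠ 0) → ∀ y : ℂ, ∃ s : Finset ℂ,
    s.card = 5 ^ (n / 2) ∧ ∀ z ∈ s, (cmp c n).eval z = y
  | 0, _, y => ⟨{y}, by simp, by simp [cmp]⟩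
  | 1, _, y => by
    obtain ⟨v, hv⟩ := IsAlgClosed.exists_pow_nat_eq (y - c 0) (n := 5) (by norm_num)
    exact ⟨{v}, by simp, by simp [cmp, hv]⟩
  | n + 2, h, y => by
    obtain ⟨s, hs, hs1⟩ := count_aux c n (h n (by omega)) y
    have hex : ∀ v : ℂ, ∃ t : Finset ℂ, t.card = 5 ^ (n / 2) ∧ ∀ z ∈ t, (cmp c n).eval z = v :=
      fun v => count c n (fun i hi => h i (by omega)) v
    choose t ht ht1 using hex
    refine ⟨s.biUnion t, ?_, ?_⟩
    · rw [Finset.card_biUnion]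
      · rw [Finset.sum_congr rfl fun v _ => ht v, Finset.sum_const, hs, smul_eq_mul]
        rw [show (n + 2) / 2 = n / 2 + 1 by omega, pow_succ]
        ring
      · intro v _ w _ hvw
        rw [Function.onFun, Finset.disjoint_left]
        intro z hz hz'
        exact hvw ((ht1 v z hz).symm.trans (ht1 w z hz'))
    · intro z hz
      obtain ⟨v, hv, hz⟩ := Finset.mem_biUnion.1 hz
      rw [cmp_eval_succ, cmp_eval_succ, ht1 v z hz]
      exact hs1 v hv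

end Pool.Agent.TH147.DM
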