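import Pool.Agent.TH147.DM.Glob

/-!
The quadric.
-/

set_option autoImplicit false
set_option linter.unusedSectionVars false

open MvPolynomial

namespace Pool.Agent.TH147.DM

/-- the quadratic form -/
noncomputable def qd : S5 := X 1 * X 4 - X 2 * X 3

lemma eval_qd (v : Fin 5 → ℂ) : eval v qd = v 1 * v 4 - v 2 * v 3 := by
  simp [qd]

lemma qd_hom : qd.IsHomogeneous 2 := by
  have h : ∀ i j : Fin 5, (X i * X j : S5).IsHomogeneous 2 := fun i j =>
    (isHomogeneous_X ℂ i).mul (isHomogeneous_X ℂ j)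
  exact (h 1 4).sub (h 2 3)

lemma qd_ne : qd ≠ 0 := by
  intro h
  have := congrArg (eval (![0, 1, 0, 0, 1] : Fin 5 → ℂ)) h
  rw [eval_qd, map_zero] at this
  simp at this

/-- remainder modulo the last variable -/
lemma pseudo (f : S5) : ∃ (N : ℕ) (g R : S5), X 1 ^ N * f = qd * g + R ∧
    ∀ (v : Fin 5 → ℂ) (u : ℂ), eval (Function.update v 4 u) R = eval v R := by
  induction f using MvPolynomial.induction_on with
  | C r => exact ⟨0, 0, C r, by simp, fun v u => by simp⟩
  | add p q hp hq =>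
    obtain ⟨N, g, R, h1, h2⟩ := hp
    obtain ⟨N', g', R', h1', h2'⟩ := hq
    have hX : ∀ (k : ℕ) (v : Fin 5 → ℂ) (u : ℂ),
        eval (Function.update v 4 u) (X 1 ^ k : S5) = eval v (X 1 ^ k) := by
      intro k v u
      simp
    refine ⟨N + N', X 1 ^ N' * g + X 1 ^ N * g', X 1 ^ N' * R + X 1 ^ N * R', ?_, ?_⟩
    · rw [pow_add]
      linear_combination X 1 ^ N' * h1 + X 1 ^ N * h1'
    · intro v u
      simp only [map_add, map_mul, h2, h2', hX]
  | mul_X p i hp =>
    obtain ⟨N, g, R, h1, h2⟩ := hp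
    by_cases hi : i = 4
    · subst hi
      refine ⟨N + 1, X 1 * X 4 * g + R, X 2 * X 3 * R, ?_, ?_⟩
      · rw [pow_succ, qd] at *
        linear_combination X 1 * X 4 * h1
      · intro v u
        simp [h2]
    · refine ⟨N, g * X i, R * X i, ?_, ?_⟩
      · linear_combination X i * h1
      · intro v u
        simp [h2, Function.update_of_ne hi]

/-- remainder modulo the first variable -/
lemma noX1 (g : S5) : ∃ g' g0 : S5, g = X 1 * g' + g0 ∧
    ∀ (v : Fin 5 → ℂ) (u : ℂ), eval (Function.update v 1 u) g0 = eval v g0 := by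
  induction g using MvPolynomial.induction_on with
  | C r => exact ⟨0, C r, by simp, fun v u => by simp⟩
  | add p q hp hq =>
    obtain ⟨g, R, h1, h2⟩ := hp
    obtain ⟨g', R', h1', h2'⟩ := hq
    refine ⟨g + g', R + R', ?_, ?_⟩
    · rw [h1, h1']; ring
    · intro v u
      simp only [map_add, h2, h2']
  | mul_X p i hp =>
    obtain ⟨g, R, h1, h2⟩ := hp
    by_cases hi : i = 1
    · subst hi
      refine ⟨p, 0, by ring, fun v u => by simp⟩
    · refine ⟨g * X i, R * X i, ?_, ?_⟩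
      · rw [h1]; ring
      · intro v u
        simp [h2, Function.update_of_ne hi]

lemma cancel_X1 {f g : S5} (h : X 1 * f = qd * g) : qd ∣ f := by
  obtain ⟨g', g0, h1, h2⟩ := noX1 g
  have h3 : X 2 * X 3 * g0 = 0 := by
    refine MvPolynomial.funext fun v => ?_
    have h4 := congrArg (eval (Function.update v 1 0)) h
    rw [h1] at h4
    simp only [map_mul, map_add, eval_X, Function.update_self, zero_mul, zero_add, eval_qd,
      h2] at h4
    rw [Function.update_of_ne (by decide), Function.update_of_ne (by decide)] at h4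
    simp only [map_mul, map_zero, eval_X]
    linear_combination h4
  have h4 : g0 = 0 := (mul_eq_zero.1 h3).resolve_left
    (mul_ne_zero (X_ne_zero 2) (X_ne_zero 3))
  refine ⟨g', mul_left_cancel₀ (X_ne_zero 1) ?_⟩
  rw [h, h1, h4]
  ring

lemma cancel_X1_pow (N : ℕ) {f : S5} (h : qd ∣ X 1 ^ N * f) : qd ∣ f := by
  induction N with
  | zero => simpa using h
  | succ N ih =>
    obtain ⟨g, hg⟩ := h
    refine ih (cancel_X1 (g := g) ?_)
    rw [← hg, pow_succ]; ring

/-- **polynomials vanishing on the quadric are multiples of its equation** -/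
theorem qd_dvd {f : S5} (h : ∀ v : Fin 5 → ℂ, v ≠ 0 → v 1 * v 4 = v 2 * v 3 → eval v f = 0) :
    qd ∣ f := by
  obtain ⟨N, g, R, h1, h2⟩ := pseudo f
  have h3 : X 1 * R = 0 := by
    refine MvPolynomial.funext fun v => ?_
    rw [map_mul, map_zero, eval_X]
    by_cases hv : v 1 = 0
    · rw [hv, zero_mul]
    · have h4 := h (Function.update v 4 (v 2 * v 3 / v 1)) (by
        intro h0
        apply hv
        have := congrFun h0 1
        rwa [Function.update_of_ne (by decide)] at this) (by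
        rw [Function.update_of_ne (by decide), Function.update_self,
          Function.update_of_ne (by decide), Function.update_of_ne (by decide)]
        field_simp)
      have h5 := congrArg (eval (Function.update v 4 (v 2 * v 3 / v 1))) h1
      rw [map_mul, h4, mul_zero, map_add, map_mul, eval_qd, h2,
        Function.update_of_ne (by decide), Function.update_self,
        Function.update_of_ne (by decide), Function.update_of_ne (by decide)] at h5
      have h6 : v 1 * (v 2 * v 3 / v 1) - v 2 * v 3 = 0 := by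
        field_simp; ring
      rw [h6, zero_mul, zero_add] at h5
      rw [← h5, mul_zero]
  have h4 : R = 0 := (mul_eq_zero.1 h3).resolve_left (X_ne_zero 1)
  rw [h4, add_zero] at h1
  exact cancel_X1_pow N ⟨g, h1⟩

/-- the parametrization of the quadric -/
noncomputable def par : S5 →ₐ[ℂ] S5 := aeval ![X 0, X 1 * X 3, X 1 * X 4, X 2 * X 3, X 2 * X 4]

lemma eval_par (v : Fin 5 → ℂ) (f : S5) :
    eval v (par f) = eval ![v 0, v 1 * v 3, v 1 * v 4, v 2 * v 3, v 2 * v 4] f := by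
  induction f using MvPolynomial.induction_on with
  | C r => simp [par]
  | add p q hp hq => rw [map_add, map_add, map_add, hp, hq]
  | mul_X p i hp =>
    rw [map_mul, map_mul, map_mul, hp, par, aeval_X, eval_X]
    congr 1
    fin_cases i <;> simp

lemma vanish_of_par {f : S5} (h : par f = 0) (v : Fin 5 → ℂ) (hv : v 1 * v 4 = v 2 * v 3) :
    eval v f = 0 := by
  have key : ∀ w : Fin 5 → ℂ,
      eval ![w 0, w 1 * w 3, w 1 * w 4, w 2 * w 3, w 2 * w 4] f = 0 := by
    intro w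
    rw [← eval_par, h, map_zero]
  by_cases h1 : v 1 = 0
  · by_cases h2 : v 2 = 0
    · have := key ![v 0, 0, 1, v 3, v 4]
      have e : (![(![v 0, 0, 1, v 3, v 4] : Fin 5 → ℂ) 0, (![v 0, 0, 1, v 3, v 4] : Fin 5 → ℂ) 1 *
          (![v 0, 0, 1, v 3, v 4] : Fin 5 → ℂ) 3, (![v 0, 0, 1, v 3, v 4] : Fin 5 → ℂ) 1 *
          (![v 0, 0, 1, v 3, v 4] : Fin 5 → ℂ) 4, (![v 0, 0, 1, v 3, v 4] : Fin 5 → ℂ) 2 *
          (![v 0, 0, 1, v 3, v 4] : Fin 5 → ℂ) 3, (![v 0, 0, 1, v 3, v 4] : Fin 5 → ℂ) 2 *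
          (![v 0, 0, 1, v 3, v 4] : Fin 5 → ℂ) 4] : Fin 5 → ℂ) = v := by
        ext i
        fin_cases i <;> simp [h1, h2]
      rwa [e] at this
    · have h3 : v 3 = 0 := by
        rw [h1, zero_mul] at hv
        exact (mul_eq_zero.1 hv.symm).resolve_left h2
      have := key ![v 0, 1, v 4 / v 2, 0, v 2]
      have e : (![(![v 0, 1, v 4 / v 2, 0, v 2] : Fin 5 → ℂ) 0,
          (![v 0, 1, v 4 / v 2, 0, v 2] : Fin 5 → ℂ) 1 *
          (![v 0, 1, v 4 / v 2, 0, v 2] : Fin 5 → ℂ) 3,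
          (![v 0, 1, v 4 / v 2, 0, v 2] : Fin 5 → ℂ) 1 *
          (![v 0, 1, v 4 / v 2, 0, v 2] : Fin 5 → ℂ) 4,
          (![v 0, 1, v 4 / v 2, 0, v 2] : Fin 5 → ℂ) 2 *
          (![v 0, 1, v 4 / v 2, 0, v 2] : Fin 5 → ℂ) 3,
          (![v 0, 1, v 4 / v 2, 0, v 2] : Fin 5 → ℂ) 2 *
          (![v 0, 1, v 4 / v 2, 0, v 2] : Fin 5 → ℂ) 4] : Fin 5 → ℂ) = v := by
        ext i
        fin_cases i <;> simp [h1, h2, h3]
      rwa [e] at this
  · have h4 : v 4 = v 3 / v 1 * v 2 := by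
      field_simp
      linear_combination hv
    have := key ![v 0, 1, v 3 / v 1, v 1, v 2]
    have e : (![(![v 0, 1, v 3 / v 1, v 1, v 2] : Fin 5 → ℂ) 0,
        (![v 0, 1, v 3 / v 1, v 1, v 2] : Fin 5 → ℂ) 1 *
        (![v 0, 1, v 3 / v 1, v 1, v 2] : Fin 5 → ℂ) 3,
        (![v 0, 1, v 3 / v 1, v 1, v 2] : Fin 5 → ℂ) 1 *
        (![v 0, 1, v 3 / v 1, v 1, v 2] : Fin 5 → ℂ) 4,
        (![v 0, 1, v 3 / v 1, v 1, v 2] : Fin 5 → ℂ) 2 *
        (![v 0, 1, v 3 / v 1, v 1, v 2] : Fin 5 → ℂ) 3,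
        (![v 0, 1, v 3 / v 1, v 1, v 2] : Fin 5 → ℂ) 2 *
        (![v 0, 1, v 3 / v 1, v 1, v 2] : Fin 5 → ℂ) 4] : Fin 5 → ℂ) = v := by
      ext i
      fin_cases i <;> simp [h1, h4]
    rwa [e] at this

/-- **the quadric is irreducible** -/
theorem irr_aux {f g : S5}
    (h : ∀ v : Fin 5 → ℂ, v ≠ 0 → v 1 * v 4 = v 2 * v 3 → eval v f = 0 ∨ eval v g = 0) :
    (∀ v : Fin 5 → ℂ, v 1 * v 4 = v 2 * v 3 → eval v f = 0) ∨
      (∀ v : Fin 5 → ℂ, v 1 * v 4 = v 2 * v 3 → eval v g = 0) := by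
  have h1 : par f * par g * X 0 = 0 := by
    refine MvPolynomial.funext fun v => ?_
    rw [map_mul, map_mul, eval_par, eval_par, eval_X, map_zero]
    by_cases h0 : v 0 = 0
    · rw [h0, mul_zero]
    · rcases h ![v 0, v 1 * v 3, v 1 * v 4, v 2 * v 3, v 2 * v 4]
        (fun h2 => h0 (congrFun h2 0)) (by simp; ring) with h2 | h2
      · rw [h2]; simp
      · rw [h2]; simp
  rcases mul_eq_zero.1 h1 with h2 | h2
  · rcases mul_eq_zero.1 h2 with h3 | h3
    · exact Or.inl (vanish_of_par h3)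
    · exact Or.inr (vanish_of_par h3)
  · exact absurd h2 (X_ne_zero 0)

end Pool.Agent.TH147.DM
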