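import Pool.Agent.TH147.DM.Core3
import Pool.Agent.TH147.DM.Dens
import Pool.Agent.TH147.DM.Yirr

/-!
The endomorphism of the projective four-space.
-/

set_option autoImplicit false
set_option linter.unusedSectionVars false

open MvPolynomial

namespace Pool.Agent.TH147.DM

open Pool.Agent.Results.MP_0a826e_ag.LattesDiagonal

/-- the forms giving the map -/
noncomputable def PhiF (a b : ℂ) : Fin 5 → S5 :=
  ![X 0 ^ 5 + (X 1 ^ 5 + X 1 ^ 4 * X 3 + X 1 ^ 3 * X 3 * X 4 + X 1 * X 2 * X 3 ^ 3),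
    -(X 1 * (X 1 ^ 2 - C a * X 2 ^ 2) ^ 2), X 2 * (C a * X 1 ^ 2 - X 2 ^ 2) ^ 2,
    -(X 3 * (X 3 ^ 2 - C b * X 4 ^ 2) ^ 2), X 4 * (C b * X 3 ^ 2 - X 4 ^ 2) ^ 2]

variable {a b r : ℂ}

lemma GV_PhiF (v : Fin 5 → ℂ) : GV (PhiF a b) v = PV a b v := by
  ext i
  fin_cases i <;> simp [GV, PhiF, PV, PQ, FF, A0, A1] <;> rfl

lemma hcast {p : S5} {d d' : ℕ} (h : p.IsHomogeneous d) (e : d = d') : p.IsHomogeneous d' := e ▸ h

lemma PhiF_hom (a b : ℂ) (i : Fin 5) : (PhiF a b i).IsHomogeneous 5 := by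
  have hX : ∀ i : Fin 5, (X i : S5).IsHomogeneous 1 := fun i => isHomogeneous_X ℂ i
  have hC : ∀ c : ℂ, (C c : S5).IsHomogeneous 0 := fun c => isHomogeneous_C _ c
  have h1 : ∀ (c : ℂ) (i j : Fin 5), (X i * (X i ^ 2 - C c * X j ^ 2) ^ 2 : S5).IsHomogeneous 5 := by
    intro c i j
    refine hcast ((hX i).mul ((((hX i).pow 2).sub (hcast ((hC c).mul ((hX j).pow 2)) ?_)).pow 2)) ?_
    all_goals norm_num
  have h2 : ∀ (c : ℂ) (i j : Fin 5), (X j * (C c * X i ^ 2 - X j ^ 2) ^ 2 : S5).IsHomogeneous 5 := by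
    intro c i j
    refine hcast ((hX j).mul (((hcast ((hC c).mul ((hX i).pow 2)) (?_ : _ = 1 * 2)).sub
      ((hX j).pow 2)).pow 2)) ?_
    all_goals norm_num
  fin_cases i
  · show (X 0 ^ 5 + (X 1 ^ 5 + X 1 ^ 4 * X 3 + X 1 ^ 3 * X 3 * X 4 + X 1 * X 2 * X 3 ^ 3) :
      S5).IsHomogeneous 5
    have e1 := hcast ((hX 0).pow 5) (show 1 * 5 = 5 by norm_num)
    have e2 := hcast ((hX 1).pow 5) (show 1 * 5 = 5 by norm_num)
    have e3 := hcast (((hX 1).pow 4).mul (hX 3)) (show 1 * 4 + 1 = 5 by norm_num)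
    have e4 := hcast ((((hX 1).pow 3).mul (hX 3)).mul (hX 4)) (show 1 * 3 + 1 + 1 = 5 by norm_num)
    have e5 := hcast (((hX 1).mul (hX 2)).mul ((hX 3).pow 3)) (show 1 + 1 + 1 * 3 = 5 by norm_num)
    exact e1.add (((e2.add e3).add e4).add e5)
  · exact (h1 a 1 2).neg
  · exact h2 a 1 2
  · exact (h1 b 3 4).neg
  · exact h2 b 3 4

lemma PV_ne (ha : a ^ 2 = 2 * a - 5) (hb : b ^ 2 = 2 * b - 5) {v : Fin 5 → ℂ} (hv : v ≠ 0) :
    PV a b v ≠ 0 := PV_iter_ne ha hb 1 hv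

/-- the endomorphism -/
noncomputable def Phi (ha : a ^ 2 = 2 * a - 5) (hb : b ^ 2 = 2 * b - 5) (p : P4) : P4 :=
  Projectivization.mk ℂ (PV a b p.rep) (PV_ne ha hb p.rep_nonzero)

lemma Phi_mk (ha : a ^ 2 = 2 * a - 5) (hb : b ^ 2 = 2 * b - 5) (v : Fin 5 → ℂ) (hv : v ≠ 0) :
    Phi ha hb (Projectivization.mk ℂ v hv) =
      Projectivization.mk ℂ (PV a b v) (PV_ne ha hb hv) := by
  obtain ⟨u, hu⟩ := Projectivization.exists_smul_eq_mk_rep ℂ v hv
  rw [Phi, Projectivization.mk_eq_mk_iff']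
  refine ⟨(u : ℂ) ^ 5, ?_⟩
  rw [← hu]
  exact (PV_smul (u : ℂ) v).symm

lemma Phi_iter_mk (ha : a ^ 2 = 2 * a - 5) (hb : b ^ 2 = 2 * b - 5) (n : ℕ) (v : Fin 5 → ℂ)
    (hv : v ≠ 0) : (Phi ha hb)^[n] (Projectivization.mk ℂ v hv) =
      Projectivization.mk ℂ ((PV a b)^[n] v) (PV_iter_ne ha hb n hv) := by
  induction n with
  | zero => rfl
  | succ n ih =>
    rw [Function.iterate_succ_apply', ih, Phi_mk]
    simp only [Function.iterate_succ_apply']

lemma eval_rep {f : S5} {d : ℕ} (hf : f.IsHomogeneous d) (v : Fin 5 → ℂ) (hv : v ≠ 0) :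
    eval (Projectivization.mk ℂ v hv).rep f = 0 ↔ eval v f = 0 := by
  obtain ⟨u, hu⟩ := Projectivization.exists_smul_eq_mk_rep ℂ v hv
  rw [← hu]
  have : (u • v) = (u : ℂ) • v := rfl
  rw [this, hom_smul hf, mul_eq_zero]
  constructor
  · rintro (h | h)
    · exact absurd h (pow_ne_zero _ u.ne_zero)
    · exact h
  · exact Or.inr

/-- the quadric cone in projective four-space -/
def Yq : Set P4 := {p | eval p.rep qd = 0}

lemma mk_mem_Yq (v : Fin 5 → ℂ) (hv : v ≠ 0) :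
    Projectivization.mk ℂ v hv ∈ Yq ↔ v 1 * v 4 = v 2 * v 3 := by
  show eval _ qd = 0 ↔ _
  rw [eval_rep qd_hom, eval_qd, sub_eq_zero]

lemma hom_one_add {p : S5} (hp : p.IsHomogeneous 1) (v w : Fin 5 → ℂ) :
    eval (v + w) p = eval v p + eval w p := by
  rw [eval_eq', eval_eq', eval_eq', ← Finset.sum_add_distrib]
  refine Finset.sum_congr rfl fun d hd => ?_
  rw [← mul_add]
  congr 1
  have h1 : Finsupp.degree d = 1 := by
    have := hp (mem_support_iff.1 hd)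
    rw [← this, Finsupp.degree_eq_weight_one]; rfl
  obtain ⟨j, rfl⟩ : d ∈ Set.range (fun a : Fin 5 => Finsupp.single a 1) := by
    rw [Finsupp.range_single_one]
    exact h1
  have h2 : ∀ u : Fin 5 → ℂ, ∏ i, u i ^ (Finsupp.single j 1 : Fin 5 →₀ ℕ) i = u j := by
    intro u
    rw [Finset.prod_eq_single j]
    · simp
    · intro i _ hi
      rw [Finsupp.single_eq_of_ne hi, pow_zero]
    · intro h; exact absurd (Finset.mem_univ _) h
  rw [h2, h2, h2]
  rfl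

lemma PV_zero (n : ℕ) : (PV a b)^[n] 0 = 0 := by
  refine Function.iterate_fixed ?_ n
  ext i
  fin_cases i <;> simp [PV, PQ, FF, A0, A1, Fin.tail]

lemma Curve.PV {γ : ℂ → Fin 5 → ℂ} (h : Curve γ) (n : ℕ) :
    Curve fun t => (PV a b)^[n] (γ t) := by
  induction n with
  | zero => exact h
  | succ n ih =>
    have := ih.GV (PhiF a b)
    simp only [GV_PhiF] at this
    simp only [Function.iterate_succ_apply']
    exact this

/-- **No commuting map makes the quadric preperiodic.** -/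
theorem no_map (ha : a ^ 2 = 2 * a - 5) (hb : b = 2 - a) (hb2 : b ^ 2 = 2 * b - 5)
    (hr : r ^ 2 = a) {Ψ : P4 → P4}
    (hreg : ∀ p : P4, ∃ (d : ℕ) (F : Fin 5 → S5), (∀ i, (F i).IsHomogeneous d) ∧
      GV F p.rep ≠ 0 ∧ ∀ (v : Fin 5 → ℂ) (hv : v ≠ 0) (h : GV F v ≠ 0),
        Ψ (Projectivization.mk ℂ v hv) = Projectivization.mk ℂ (GV F v) h)
    (hfin : ∀ p : P4, {p' | Ψ p' = Ψ p}.Finite) (hinj : ¬ Function.Injective Ψ)
    {n : ℕ} (hn : 1 ≤ n)
    (hcomm : ∀ p, Ψ ((Phi ha hb2)^[n] p) = (Phi ha hb2)^[n] (Ψ p)) {m l : ℕ} (hl : 1 ≤ l)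
    (hper : Ψ^[m + l] '' Yq = Ψ^[m] '' Yq) : False := by
  obtain ⟨q, G, hG, hrep⟩ := glob hreg
  have hG0 : ∀ v : Fin 5 → ℂ, v ≠ 0 → GV G v ≠ 0 := fun v hv => (hrep v hv).1
  have hΨ : ∀ (v : Fin 5 → ℂ) (hv : v ≠ 0),
      Ψ (Projectivization.mk ℂ v hv) = Projectivization.mk ℂ (GV G v) (hG0 v hv) :=
    fun v hv => (hrep v hv).2
  have hsm : ∀ (t : ℂ) (v : Fin 5 → ℂ), GV G (t • v) = t ^ q • GV G v := by
    intro t v
    ext i
    exact hom_smul (hG i) t v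
  -- degree zero
  have hq1 : 1 ≤ q := by
    by_contra hq
    have hq0 : q = 0 := by omega
    have hconst : ∀ v, GV G v = GV G 0 := by
      intro v
      have := hsm 0 v
      rw [zero_smul, hq0, pow_zero, one_smul] at this
      exact this.symm
    have hv1 : (fun _ => 1 : Fin 5 → ℂ) ≠ 0 := fun h => one_ne_zero (congrFun h 0)
    have h1 := hfin (Projectivization.mk ℂ (fun _ => 1) hv1)
    have hne : ∀ t : ℂ, vec 1 (t, 0) 0 ≠ 0 := fun t h => one_ne_zero (congrFun h 0)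
    have h2 : Function.Injective fun t : ℂ => (Projectivization.mk ℂ (vec 1 (t, 0) 0) (hne t) : P4) := by
      intro t t' htt
      rw [Projectivization.mk_eq_mk_iff'] at htt
      obtain ⟨c, hc⟩ := htt
      have e0 : c * 1 = 1 := congrFun hc 0
      have e1 : c * t' = t := congrFun hc 1
      rw [mul_one] at e0
      rw [← e1, e0, one_mul]
    refine (Set.infinite_range_of_injective h2) (h1.subset ?_)
    rintro _ ⟨t, rfl⟩
    show Ψ _ = Ψ _
    rw [hΨ, hΨ]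
    congr 1
    rw [hconst, hconst (fun _ => 1)]
  have hGz : GV G 0 = 0 := by
    have := hsm 0 0
    rwa [zero_smul, zero_pow (by omega), zero_smul] at this
  -- a large multiple of `n`
  obtain ⟨N, hN2, hNbig, k, hk⟩ : ∃ N, 2 ≤ N ∧ q < 5 ^ (N / 2) ∧ ∃ k, N = n * k := by
    refine ⟨n * (2 * (q + 1)), ?_, ?_, _, rfl⟩
    · nlinarith
    · have h1 : q + 1 ≤ n * (2 * (q + 1)) / 2 := by
        rw [Nat.le_div_iff_mul_le (by norm_num)]
        nlinarith
      calc q < q + 1 := Nat.lt_succ_self q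
        _ ≤ 5 ^ (q + 1) := (Nat.lt_pow_self (by norm_num)).le
        _ ≤ 5 ^ (n * (2 * (q + 1)) / 2) := Nat.pow_le_pow_right (by norm_num) h1
  have hcommN : ∀ p, Ψ ((Phi ha hb2)^[N] p) = (Phi ha hb2)^[N] (Ψ p) := by
    have h1 : Function.Commute Ψ ((Phi ha hb2)^[n]) := hcomm
    have h2 := h1.iterate_right k
    rw [← Function.iterate_mul, ← hk] at h2
    exact h2
  obtain ⟨c, hc, hcl⟩ := lam (A := fun v => GV G ((PV a b)^[N] v))
    (B := fun v => (PV a b)^[N] (GV G v)) (fun γ hγ => (hγ.PV N).GV G) (fun γ hγ => (hγ.GV G).PV N)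
    (fun v hv => hG0 _ (PV_iter_ne ha hb2 N hv)) (fun v hv => PV_iter_ne ha hb2 N (hG0 v hv))
    (fun v hv => by
      have h1 := hcommN (Projectivization.mk ℂ v hv)
      rw [Phi_iter_mk, hΨ, hΨ, Phi_iter_mk, Projectivization.mk_eq_mk_iff'] at h1
      obtain ⟨c, hc⟩ := h1
      exact ⟨c, hc.symm⟩)
  have hgood : Good' a b N q c G :=
    { hom := hG
      ne := hG0
      lne := hc
      rel := by
        intro v
        by_cases hv : v = 0
        · rw [hv, PV_zero, hGz, PV_zero, smul_zero]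
        · exact hcl v hv
      ha := ha
      hb := hb2
      hn := hN2
      hq := hq1
      hbig := hNbig }
  obtain ⟨s, hqs, hconc⟩ := hgood.concl
  -- the degree is not one
  have hs : 1 ≤ s := by
    by_contra hs0
    have hs00 : s = 0 := by omega
    rw [hs00, pow_zero] at hqs
    apply hinj
    intro p p' hpp
    induction p using Projectivization.ind with | h v hv
    induction p' using Projectivization.ind with | h w hw
    rw [hΨ, hΨ, Projectivization.mk_eq_mk_iff'] at hpp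
    obtain ⟨t, ht⟩ := hpp
    rw [Projectivization.mk_eq_mk_iff']
    refine ⟨t, ?_⟩
    by_contra hne
    apply hG0 (v + (-t) • w) (fun h0 => hne (by
      rw [neg_smul, ← sub_eq_add_neg, sub_eq_zero] at h0
      exact h0.symm))
    ext i
    show eval (v + (-t) • w) (G i) = 0
    have hGi := hG i
    rw [hqs] at hGi
    rw [hom_one_add hGi, hom_smul hGi, pow_one]
    have h1 : t * eval w (G i) = eval v (G i) := congrFun ht i
    linear_combination -h1
  -- iterates of `Ψ`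
  have hGiter0 : ∀ (k : ℕ) (v : Fin 5 → ℂ), v ≠ 0 → (GV G)^[k] v ≠ 0 := by
    intro k v hv
    induction k with
    | zero => exact hv
    | succ k ih => rw [Function.iterate_succ_apply']; exact hG0 _ ih
  have hΨiter : ∀ (k : ℕ) (v : Fin 5 → ℂ) (hv : v ≠ 0),
      Ψ^[k] (Projectivization.mk ℂ v hv) = Projectivization.mk ℂ ((GV G)^[k] v) (hGiter0 k v hv) := by
    intro k v hv
    induction k with
    | zero => rfl
    | succ k ih =>
      rw [Function.iterate_succ_apply', ih, hΨ]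
      simp only [Function.iterate_succ_apply']
  have hit : ∀ (k : ℕ) (v : Fin 5 → ℂ),
      ((v 1, v 2) ≠ (0 : ℂ × ℂ) → ((GV G)^[k] v 1, (GV G)^[k] v 2) ≠ (0 : ℂ × ℂ) ∧
        pt ((GV G)^[k] v 1) ((GV G)^[k] v 2) = (fm a)^[s * k] (pt (v 1) (v 2))) ∧
      ((v 1, v 2) = (0 : ℂ × ℂ) → ((GV G)^[k] v 1, (GV G)^[k] v 2) = (0 : ℂ × ℂ)) ∧
      ((v 3, v 4) ≠ (0 : ℂ × ℂ) → ((GV G)^[k] v 3, (GV G)^[k] v 4) ≠ (0 : ℂ × ℂ) ∧
        pt ((GV G)^[k] v 3) ((GV G)^[k] v 4) = (fm b)^[s * k] (pt (v 3) (v 4))) ∧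
      ((v 3, v 4) = (0 : ℂ × ℂ) → ((GV G)^[k] v 3, (GV G)^[k] v 4) = (0 : ℂ × ℂ)) := by
    intro k v
    induction k with
    | zero =>
      exact ⟨fun h => ⟨h, rfl⟩, fun h => h, fun h => ⟨h, rfl⟩, fun h => h⟩
    | succ k ih =>
      obtain ⟨i1, i2, i3, i4⟩ := ih
      obtain ⟨j1, j2, j3, j4⟩ := hconc ((GV G)^[k] v)
      simp only [Function.iterate_succ_apply']
      rw [show s * (k + 1) = s + s * k by ring, Function.iterate_add_apply,
        Function.iterate_add_apply]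
      refine ⟨fun h => ?_, fun h => j2 (i2 h), fun h => ?_, fun h => j4 (i4 h)⟩
      · obtain ⟨e1, e2⟩ := i1 h
        obtain ⟨e3, e4⟩ := j1 e1
        exact ⟨e3, by rw [e4, e2]⟩
      · obtain ⟨e1, e2⟩ := i3 h
        obtain ⟨e3, e4⟩ := j3 e1
        exact ⟨e3, by rw [e4, e2]⟩
  -- the contradiction
  obtain ⟨w, hw⟩ := no_incl (r := r) ha hb hr (s * m) (s * l) (Nat.mul_pos hs hl)
  set v : Fin 5 → ℂ := vec 0 (w, 1) (w, 1) with hv
  have hv0 : v ≠ 0 := fun h => one_ne_zero (congrFun h 2)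
  have hvY : Projectivization.mk ℂ v hv0 ∈ Yq := by
    rw [mk_mem_Yq]
    show w * 1 = 1 * w
    ring
  have hmem : Ψ^[m + l] (Projectivization.mk ℂ v hv0) ∈ Ψ^[m] '' Yq := by
    rw [← hper]
    exact ⟨_, hvY, rfl⟩
  obtain ⟨p, hpY, hp⟩ := hmem
  induction p using Projectivization.ind with | h u hu
  rw [mk_mem_Yq] at hpY
  rw [hΨiter, hΨiter, Projectivization.mk_eq_mk_iff'] at hp
  obtain ⟨t, ht⟩ := hp
  have ht0 : t ≠ 0 := by
    rintro rfl
    rw [zero_smul] at ht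
    exact hGiter0 m u hu ht.symm
  have e1 : (v 1, v 2) ≠ (0 : ℂ × ℂ) := fun h => one_ne_zero (congrArg Prod.snd h)
  have e2 : (v 3, v 4) ≠ (0 : ℂ × ℂ) := fun h => one_ne_zero (congrArg Prod.snd h)
  obtain ⟨a1, -, a3, -⟩ := hit (m + l) v
  obtain ⟨b1, b2, b3, b4⟩ := hit m u
  obtain ⟨c1, c2⟩ := a1 e1
  obtain ⟨c3, c4⟩ := a3 e2
  have ht' : ∀ i, t * (GV G)^[m + l] v i = (GV G)^[m] u i := fun i => congrFun ht i
  have hu12 : (u 1, u 2) ≠ (0 : ℂ × ℂ) := by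
    intro h
    have h1 := b2 h
    apply c1
    have h2 : (GV G)^[m] u 1 = 0 := congrArg Prod.fst h1
    have h3 : (GV G)^[m] u 2 = 0 := congrArg Prod.snd h1
    rw [← ht', mul_eq_zero] at h2 h3
    exact Prod.ext (h2.resolve_left ht0) (h3.resolve_left ht0)
  have hu34 : (u 3, u 4) ≠ (0 : ℂ × ℂ) := by
    intro h
    have h1 := b4 h
    apply c3
    have h2 : (GV G)^[m] u 3 = 0 := congrArg Prod.fst h1
    have h3 : (GV G)^[m] u 4 = 0 := congrArg Prod.snd h1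
    rw [← ht', mul_eq_zero] at h2 h3
    exact Prod.ext (h2.resolve_left ht0) (h3.resolve_left ht0)
  obtain ⟨-, d1⟩ := b1 hu12
  obtain ⟨-, d2⟩ := b3 hu34
  have hww : pt (u 1) (u 2) = pt (u 3) (u 4) := (pt_det hu12 hu34).2 hpY
  refine hw (pt (u 1) (u 2)) ?_ ?_
  · rw [← d1, ← ht', ← ht', pt_smul ht0, c2, ← mul_add]
    show (fm a)^[s * (m + l)] (pt w 1) = _
    rw [pt_one]
  · rw [hww, ← d2, ← ht', ← ht', pt_smul ht0, c4, ← mul_add]
    show (fm b)^[s * (m + l)] (pt w 1) = _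
    rw [pt_one]

end Pool.Agent.TH147.DM
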