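import Mathlib

/-!
A complex polynomial of degree at least two has infinitely many preperiodic points.
-/

set_option autoImplicit false
set_option linter.unusedSectionVars false

open Polynomial

namespace Pool.Agent.TH147.DM

/-- the set of preperiodic points of a polynomial -/
def PerSet (g : ℂ[X]) : Set ℂ :=
  {z | ∃ i k : ℕ, 1 ≤ k ∧ (fun w => g.eval w)^[i + k] z = (fun w => g.eval w)^[i] z}

lemma perSet_map {g : ℂ[X]} {z : ℂ} (h : z ∈ PerSet g) : g.eval z ∈ PerSet g := by
  obtain ⟨i, k, hk, h⟩ := h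
  refine ⟨i, k, hk, ?_⟩
  have e : ∀ j, (fun w => g.eval w)^[j] (g.eval z) = g.eval ((fun w => g.eval w)^[j] z) := by
    intro j
    have h1 := Function.iterate_succ_apply (fun w => g.eval w) j z
    have h2 := Function.iterate_succ_apply' (fun w => g.eval w) j z
    exact h1.symm.trans h2
  rw [e, e, h]

lemma perSet_of_map {g : ℂ[X]} {z : ℂ} (h : g.eval z ∈ PerSet g) : z ∈ PerSet g := by
  obtain ⟨i, k, hk, h⟩ := h
  refine ⟨i + 1, k, hk, ?_⟩
  rw [show i + 1 + k = i + k + 1 by ring, Function.iterate_succ_apply, Function.iterate_succ_apply]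
  exact h

lemma exists_eval_eq {g : ℂ[X]} (hg : 1 ≤ g.natDegree) (e : ℂ) : ∃ z, g.eval z = e := by
  have h1 : (g - C e).natDegree = g.natDegree := natDegree_sub_C
  obtain ⟨z, hz⟩ := IsAlgClosed.exists_root (g - C e) (by
    intro h0
    have := natDegree_eq_of_degree_eq_some (n := 0) (by exact_mod_cast h0)
    omega)
  refine ⟨z, ?_⟩
  rw [IsRoot, eval_sub, eval_C] at hz
  exact sub_eq_zero.1 hz

theorem perSet_infinite {g : ℂ[X]} (hg : 2 ≤ g.natDegree) : (PerSet g).Infinite := by
  intro hfin
  have hinj : Set.InjOn (fun w => g.eval w) (PerSet g) := by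
    have : Finite (PerSet g) := hfin
    let f : PerSet g → PerSet g := fun z => ⟨g.eval z.1, perSet_map z.2⟩
    have hs : Function.Surjective f := by
      intro e
      obtain ⟨z, hz⟩ := exists_eval_eq (g := g) (by omega) e.1
      exact ⟨⟨z, perSet_of_map (by rw [hz]; exact e.2)⟩, Subtype.ext hz⟩
    have hi := Finite.injective_iff_surjective.2 hs
    intro x hx y hy hxy
    have := hi (a₁ := ⟨x, hx⟩) (a₂ := ⟨y, hy⟩) (Subtype.ext hxy)
    exact congrArg Subtype.val this
  set D := g.natDegree with hD
  set κ := g.leadingCoeff with hκ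
  have hg0 : g ≠ 0 := by rintro rfl; simp at hD; omega
  have hκ0 : κ ≠ 0 := leadingCoeff_ne_zero.2 hg0
  have h1 : ∀ e ∈ PerSet g, ∃ e' ∈ PerSet g, ∀ z, g.eval z = e + κ * (z - e') ^ D := by
    intro e he
    obtain ⟨e', he'⟩ := exists_eval_eq (g := g) (by omega) e
    have hmem : e' ∈ PerSet g := perSet_of_map (by rw [he']; exact he)
    refine ⟨e', hmem, fun z => ?_⟩
    have hd : (g - C e).natDegree = D := natDegree_sub_C
    have h2 := (IsAlgClosed.splits (g - C e)).eq_prod_roots
    have h3 : (g - C e).roots = Multiset.replicate (Multiset.card (g - C e).roots) e' := by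
      refine Multiset.eq_replicate_card.2 fun y hy => ?_
      have hy1 := isRoot_of_mem_roots hy
      rw [IsRoot, eval_sub, eval_C] at hy1
      have hy2 : g.eval y = e := sub_eq_zero.1 hy1
      exact hinj (perSet_of_map (by rw [hy2]; exact he)) hmem (hy2.trans he'.symm)
    have h4 : Multiset.card (g - C e).roots = D := by
      rw [← hd]
      exact (IsAlgClosed.splits (g - C e)).natDegree_eq_card_roots.symm
    have h5 : (g - C e).leadingCoeff = κ := by
      rw [leadingCoeff, hd, coeff_sub, coeff_C, if_neg (by omega), sub_zero]; rfl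
    rw [h3, h4, h5, Multiset.map_replicate, Multiset.prod_replicate] at h2
    have h6 := congrArg (eval z) h2
    simp only [eval_sub, eval_C, eval_mul, eval_pow, eval_X] at h6
    linear_combination h6
  have h2 : ∀ e1 e2 e1' e2' : ℂ, (∀ z, g.eval z = e1 + κ * (z - e1') ^ D) →
      (∀ z, g.eval z = e2 + κ * (z - e2') ^ D) → e1' = e2' ∧ e1 = e2 := by
    intro e1 e2 e1' e2' h h'
    have hp : g = C e1 + C κ * (X - C e1') ^ D := Polynomial.funext fun z => by
      rw [h z]; simp
    have hp' : g = C e2 + C κ * (X - C e2') ^ D := Polynomial.funext fun z => by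
      rw [h' z]; simp
    have hder := congrArg derivative (hp.symm.trans hp')
    have hev := congrArg (eval e1') hder
    simp only [derivative_add, derivative_C, derivative_mul, derivative_pow, derivative_sub,
      derivative_X, eval_add, eval_mul, eval_pow, eval_sub, eval_X, eval_C, eval_zero,
      sub_self, zero_mul, zero_add, sub_zero, eval_natCast, eval_one, mul_one] at hev
    rw [zero_pow (by omega), mul_zero, mul_zero] at hev
    have hD0 : (D : ℂ) ≠ 0 := by exact_mod_cast (by omega : D ≠ 0)
    have h3 : (e1' - e2') ^ (D - 1) = 0 := by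
      rcases mul_eq_zero.1 hev.symm with h4 | h4
      · exact absurd h4 hκ0
      · exact (mul_eq_zero.1 h4).resolve_left hD0
    have h4 : e1' = e2' := sub_eq_zero.1 (pow_eq_zero_iff (by omega) |>.1 h3)
    refine ⟨h4, ?_⟩
    have h5 := (h 0).symm.trans (h' 0)
    rw [h4] at h5
    linear_combination h5
  obtain ⟨e, he⟩ : ∃ e, e ∈ PerSet g := by
    have hdX : (g - X).natDegree = D := by
      rw [natDegree_sub_eq_left_of_natDegree_lt]
      rw [natDegree_X]; omega
    obtain ⟨z, hz⟩ := IsAlgClosed.exists_root (g - X) (by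
      intro h0
      have := natDegree_eq_of_degree_eq_some (n := 0) (by exact_mod_cast h0)
      omega)
    rw [IsRoot, eval_sub, eval_X] at hz
    refine ⟨z, 0, 1, le_rfl, ?_⟩
    show g.eval z = z
    exact sub_eq_zero.1 hz
  obtain ⟨e', he', hee⟩ := h1 e he
  obtain ⟨e'', he'', hee'⟩ := h1 e' he'
  obtain ⟨-, h3⟩ := h2 _ _ _ _ hee hee'
  subst h3
  obtain ⟨w, hw⟩ := IsAlgClosed.exists_pow_nat_eq κ⁻¹ (n := D - 1) (by omega)
  have hw0 : w ≠ 0 := by
    rintro rfl
    rw [zero_pow (by omega)] at hw
    exact inv_ne_zero hκ0 hw.symm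
  have hfix : g.eval (e + w) = e + w := by
    rw [hee]
    have : (e + w - e) ^ D = κ⁻¹ * w := by
      rw [add_sub_cancel_left, ← hw, ← pow_succ]
      congr 1
      omega
    rw [this]
    field_simp
  have hmem : e + w ∈ PerSet g := ⟨0, 1, le_rfl, hfix⟩
  obtain ⟨z', -, hz'⟩ := h1 _ hmem
  have := (h2 _ _ _ _ hee hz').2
  exact hw0 (by linear_combination -this)

end Pool.Agent.TH147.DM
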