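import Pool.Agent.TH147.DM.Equi
import Pool.Agent.TH147.DM.Gen2
import Pool.Agent.TH147.DM.Per
import Pool.Agent.Results.MP_0a826e_ag.LattesDiagonal

/-!
The map on `ℂ⁵`.
-/

set_option autoImplicit false
set_option linter.unusedSectionVars false

open Polynomial

namespace Pool.Agent.TH147.DM

open Pool.Agent.Results.MP_0a826e_ag.LattesDiagonal

/-- the map on `ℂ⁵` -/
def PV (a b : ℂ) (v : Fin 5 → ℂ) : Fin 5 → ℂ :=
  Fin.cons (v 0 ^ 5 + PQ (Fin.tail v)) (FF a b (Fin.tail v))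

/-- the polynomial in the fibre coordinate -/
noncomputable def phi (a b : ℂ) (n : ℕ) (x : Fin 4 → ℂ) : ℂ[X] :=
  cmp (fun i => PQ ((FF a b)^[i] x)) n

variable {a b : ℂ}

lemma PV_iter_cons (n : ℕ) (z : ℂ) (x : Fin 4 → ℂ) :
    (PV a b)^[n] (Fin.cons z x) = Fin.cons ((phi a b n x).eval z) ((FF a b)^[n] x) := by
  induction n with
  | zero => simp [phi, cmp]
  | succ n ih =>
    have e : (phi a b (n + 1) x).eval z = (phi a b n x).eval z ^ 5 + PQ ((FF a b)^[n] x) :=
      cmp_eval_succ _ _ _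
    rw [Function.iterate_succ_apply', ih, PV, Function.iterate_succ_apply', Fin.tail_cons,
      Fin.cons_zero, e]

lemma phi_natDegree (n : ℕ) (x : Fin 4 → ℂ) : (phi a b n x).natDegree = 5 ^ n :=
  (cmp_natDegree _ n).1

lemma phi_surj (n : ℕ) (x : Fin 4 → ℂ) (w : ℂ) : ∃ z, (phi a b n x).eval z = w :=
  exists_eval_eq (by rw [phi_natDegree]; exact Nat.one_le_pow _ _ (by norm_num)) w

/-- the quadruple from two pairs -/
def quad (p q : ℂ × ℂ) : Fin 4 → ℂ := ![p.1, p.2, q.1, q.2]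

lemma FF_iter_quad (n : ℕ) (p q : ℂ × ℂ) :
    (FF a b)^[n] (quad p q) = quad ((AA a)^[n] p) ((AA b)^[n] q) := by
  rw [FF_iter]; rfl

lemma quad_eta (x : Fin 4 → ℂ) : quad (x 0, x 1) (x 2, x 3) = x := by
  ext i; fin_cases i <;> rfl

lemma quad_ne {p q : ℂ × ℂ} (h : quad p q ≠ 0) : p ≠ 0 ∨ q ≠ 0 := by
  by_contra hcon
  push Not at hcon
  apply h
  rw [hcon.1, hcon.2]
  ext i; fin_cases i <;> rfl

lemma quad_zero : quad 0 0 = 0 := by ext i; fin_cases i <;> rfl

lemma FF_iter_ne (ha : a ^ 2 = 2 * a - 5) (hb : b ^ 2 = 2 * b - 5) (n : ℕ) {x : Fin 4 → ℂ}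
    (hx : x ≠ 0) : (FF a b)^[n] x ≠ 0 := by
  intro h
  rw [← quad_eta x] at h hx
  rw [FF_iter_quad] at h
  rcases quad_ne hx with h1 | h1
  · apply AA_iter_ne ha h1 n
    exact Prod.ext (congrFun h 0) (congrFun h 1)
  · apply AA_iter_ne hb h1 n
    exact Prod.ext (congrFun h 2) (congrFun h 3)

lemma cons_eta (v : Fin 5 → ℂ) : (Fin.cons (v 0) (Fin.tail v) : Fin 5 → ℂ) = v :=
  Fin.cons_self_tail v

lemma PV_iter_ne (ha : a ^ 2 = 2 * a - 5) (hb : b ^ 2 = 2 * b - 5) (n : ℕ) {v : Fin 5 → ℂ}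
    (hv : v ≠ 0) : (PV a b)^[n] v ≠ 0 := by
  have h1 : ∀ v : Fin 5 → ℂ, v ≠ 0 → PV a b v ≠ 0 := by
    intro v hv h
    by_cases hx : Fin.tail v = 0
    · have h0 := congrFun h 0
      rw [PV, hx] at h0
      simp [PQ] at h0
      apply hv
      rw [← cons_eta v, hx, h0]
      ext i; fin_cases i <;> rfl
    · have h2 := FF_iter_ne ha hb 1 hx
      apply h2
      rw [Function.iterate_one]
      ext i
      exact congrFun h i.succ
  induction n with
  | zero => exact hv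
  | succ n ih => rw [Function.iterate_succ_apply']; exact h1 _ ih

lemma FF_smul (t : ℂ) (x : Fin 4 → ℂ) : FF a b (t • x) = t ^ 5 • FF a b x := by
  ext i
  fin_cases i <;> simp [FF, A0, A1] <;> ring

lemma PQ_smul (t : ℂ) (x : Fin 4 → ℂ) : PQ (t • x) = t ^ 5 * PQ x := by
  simp [PQ]; ring

lemma PV_smul (t : ℂ) (v : Fin 5 → ℂ) : PV a b (t • v) = t ^ 5 • PV a b v := by
  have h : Fin.tail (t • v) = t • Fin.tail v := rfl
  rw [PV, PV, h, FF_smul, PQ_smul]
  ext i
  refine Fin.cases ?_ (fun j => ?_) i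
  · simp; ring
  · simp

lemma PV_iter_smul (n : ℕ) (t : ℂ) (v : Fin 5 → ℂ) :
    (PV a b)^[n] (t • v) = t ^ 5 ^ n • (PV a b)^[n] v := by
  induction n with
  | zero => simp
  | succ n ih =>
    rw [Function.iterate_succ_apply', ih, PV_smul, Function.iterate_succ_apply', ← pow_mul,
      ← pow_succ]

/-! ### Points of the projective line -/

lemma pt_smul {t x y : ℂ} (ht : t ≠ 0) : pt (t * x) (t * y) = pt x y := by
  unfold pt
  by_cases hy : y = 0
  · simp [hy]
  · rw [if_neg (mul_ne_zero ht hy), if_neg hy, mul_div_mul_left _ _ ht]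

lemma pt_one (z : ℂ) : pt z 1 = (z : PLine) := by simp [pt]

lemma pt_det {x y x' y' : ℂ} (h : (x, y) ≠ (0 : ℂ × ℂ)) (h' : (x', y') ≠ (0 : ℂ × ℂ)) :
    pt x y = pt x' y' ↔ x * y' = y * x' := by
  unfold pt
  by_cases hy : y = 0
  · have hx : x ≠ 0 := fun hx => h (Prod.ext hx hy)
    by_cases hy' : y' = 0
    · simp [hy, hy']
    · simp only [hy, hy', if_true, if_false]
      constructor
      · intro h1
        exact absurd h1 (OnePoint.infty_ne_coe _)
      · intro h1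
        rw [zero_mul, mul_eq_zero] at h1
        rcases h1 with h1 | h1
        · exact absurd h1 hx
        · exact absurd h1 hy'
  · by_cases hy' : y' = 0
    · have hx' : x' ≠ 0 := fun hx => h' (Prod.ext hx hy')
      simp only [hy, hy', if_true, if_false]
      constructor
      · intro h1
        exact absurd h1.symm (OnePoint.infty_ne_coe _)
      · intro h1
        rw [mul_zero] at h1
        rcases mul_eq_zero.1 h1.symm with h1 | h1
        · exact absurd h1 hy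
        · exact absurd h1 hx'
    · rw [if_neg hy, if_neg hy', OnePoint.coe_eq_coe, div_eq_div_iff hy hy']
      constructor
      · intro h1; rw [h1]; ring
      · intro h1; rw [h1]; ring

/-- proportional pairs -/
lemma exists_smul_of_pt {p q : ℂ × ℂ} (hp : p ≠ 0) (hq : q ≠ 0) (h : pt p.1 p.2 = pt q.1 q.2) :
    ∃ c : ℂ, c ≠ 0 ∧ p = (c * q.1, c * q.2) := by
  have h1 := (pt_det (x := p.1) (y := p.2) (x' := q.1) (y' := q.2) hp hq).1 h
  by_cases h2 : q.2 = 0
  · have h3 : q.1 ≠ 0 := fun h3 => hq (Prod.ext h3 h2)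
    have h4 : p.2 = 0 := by
      rw [h2, mul_zero] at h1
      exact (mul_eq_zero.1 h1.symm).resolve_right h3
    have h5 : p.1 ≠ 0 := fun h5 => hp (Prod.ext h5 h4)
    refine ⟨p.1 / q.1, div_ne_zero h5 h3, Prod.ext ?_ ?_⟩
    · show p.1 = p.1 / q.1 * q.1
      field_simp
    · show p.2 = p.1 / q.1 * q.2
      rw [h4, h2, mul_zero]
  · have h5 : p.2 ≠ 0 := by
      intro h4
      rw [h4, zero_mul] at h1
      exact hp (Prod.ext ((mul_eq_zero.1 h1).resolve_right h2) h4)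
    refine ⟨p.2 / q.2, div_ne_zero h5 h2, Prod.ext ?_ ?_⟩
    · show p.1 = p.2 / q.2 * q.1
      field_simp
      linear_combination h1
    · show p.2 = p.2 / q.2 * q.2
      field_simp

lemma fm_iter_pt (c : ℂ) (n : ℕ) (p : ℂ × ℂ) :
    (fm c)^[n] (pt p.1 p.2) = pt ((AA c)^[n] p).1 ((AA c)^[n] p).2 := by
  induction n with
  | zero => rfl
  | succ n ih =>
    rw [Function.iterate_succ_apply', ih, fm_pt, Function.iterate_succ_apply']
    rfl

/-! ### Polynomials along curves -/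

lemma eval_aeval_poly {σ : Type*} (f : σ → ℂ[X]) (h : MvPolynomial σ ℂ) (t : ℂ) :
    (MvPolynomial.aeval f h).eval t = MvPolynomial.eval (fun i => (f i).eval t) h := by
  induction h using MvPolynomial.induction_on with
  | C r => simp
  | add p q hp hq => rw [map_add, eval_add, map_add, hp, hq]
  | mul_X p i hp => rw [map_mul, eval_mul, map_mul, hp, MvPolynomial.aeval_X, MvPolynomial.eval_X]

lemma poly_zero_of_infinite {p : ℂ[X]} {S : Set ℂ} (hS : S.Infinite) (h : ∀ s ∈ S, p.eval s = 0)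
    (t : ℂ) : p.eval t = 0 := by
  have : p = 0 := eq_zero_of_infinite_isRoot p (hS.mono fun s hs => h s hs)
  rw [this, eval_zero]

lemma poly_zero_of_ne {p : ℂ[X]} (h : ∀ s : ℂ, s ≠ 0 → p.eval s = 0) (t : ℂ) : p.eval t = 0 := by
  refine poly_zero_of_infinite (S := {0}ᶜ) ?_ (fun s hs => h s hs) t
  exact (Set.finite_singleton (0 : ℂ)).infinite_compl

/-- a function of two variables which is a polynomial in each variable -/
def Sep (g : ℂ → ℂ → ℂ) : Prop :=
  (∀ v, ∃ p : ℂ[X], ∀ u, p.eval u = g u v) ∧ ∀ u, ∃ p : ℂ[X], ∀ v, p.eval v = g u v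

lemma Sep.vanish {g : ℂ → ℂ → ℂ} (hg : Sep g) {S : Set ℂ} (hS : S.Infinite)
    (h : ∀ s ∈ S, ∀ t, t ≠ 0 → g (t * s) t = 0) (u v : ℂ) : g u v = 0 := by
  have h1 : ∀ u v : ℂ, v ≠ 0 → g u v = 0 := by
    intro u v hv
    obtain ⟨p, hp⟩ := hg.1 v
    rw [← hp]
    refine poly_zero_of_infinite (S := (fun s => v * s) '' S) ?_ ?_ u
    · exact hS.image (fun x _ y _ hxy => mul_left_cancel₀ hv hxy)
    · rintro _ ⟨s, hs, rfl⟩
      rw [hp]
      exact h s hs v hv
  obtain ⟨p, hp⟩ := hg.2 u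
  rw [← hp]
  refine poly_zero_of_ne (fun s hs => ?_) v
  rw [hp]
  exact h1 u s hs

/-- the affine combination form of a separately polynomial function -/
lemma sep_of {f : MvPolynomial (Fin 5) ℂ} (L : ℂ → ℂ → Fin 5 → ℂ)
    (h1 : ∀ v, ∃ P : Fin 5 → ℂ[X], ∀ u i, (P i).eval u = L u v i)
    (h2 : ∀ u, ∃ P : Fin 5 → ℂ[X], ∀ v i, (P i).eval v = L u v i) :
    Sep fun u v => MvPolynomial.eval (L u v) f := by
  constructor
  · intro v
    obtain ⟨P, hP⟩ := h1 v
    refine ⟨MvPolynomial.aeval P f, fun u => ?_⟩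
    rw [eval_aeval_poly]
    congr 2
    exact funext fun i => hP u i
  · intro u
    obtain ⟨P, hP⟩ := h2 u
    refine ⟨MvPolynomial.aeval P f, fun v => ?_⟩
    rw [eval_aeval_poly]
    congr 2
    exact funext fun i => hP v i

end Pool.Agent.TH147.DM
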