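import Pool.Agent.TH147.DM.Vec

/-!
The forward images of the quadric are Zariski dense.
-/

set_option autoImplicit false
set_option linter.unusedSectionVars false

open Polynomial

namespace Pool.Agent.TH147.DM

open Pool.Agent.Results.MP_0a826e_ag.LattesDiagonal

variable {a b r : ℂ}

/-- vectors from a number and two pairs -/
def vec (ζ : ℂ) (p q : ℂ × ℂ) : Fin 5 → ℂ := Fin.cons ζ (quad p q)

lemma vec_eta (v : Fin 5 → ℂ) : vec (v 0) (v 1, v 2) (v 3, v 4) = v := by
  ext i; fin_cases i <;> rfl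

lemma PV_iter_vec (n : ℕ) (ζ : ℂ) (p q : ℂ × ℂ) : (PV a b)^[n] (vec ζ p q) =
    vec ((phi a b n (quad p q)).eval ζ) ((AA a)^[n] p) ((AA b)^[n] q) := by
  rw [vec, PV_iter_cons, FF_iter_quad]
  rfl

lemma level (ha : a ^ 2 = 2 * a - 5) (hr : r ^ 2 = a) {p : PLine} {i j : ℕ}
    (h1 : (fm a)^[i] p = (r : PLine)) (h2 : (fm a)^[j] p = (r : PLine)) : i = j := by
  have key : ∀ {i k : ℕ}, (fm a)^[i] p = (r : PLine) → (fm a)^[i + (k + 1)] p = (r : PLine) →
      False := by
    intro i k h1 h2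
    rw [show i + (k + 1) = (k + 1) + i by ring, Function.iterate_add_apply, h1,
      Function.iterate_succ_apply, (fm_root ha hr).2, iter_zero] at h2
    exact r_ne ha hr (OnePoint.coe_injective h2).symm
  rcases lt_trichotomy i j with h | h | h
  · obtain ⟨k, rfl⟩ := Nat.exists_eq_add_of_lt h
    exact (key h1 h2).elim
  · exact h
  · obtain ⟨k, rfl⟩ := Nat.exists_eq_add_of_lt h
    exact (key h2 h1).elim

lemma pair_ne (z : ℂ) : ((z, 1) : ℂ × ℂ) ≠ 0 := fun h => one_ne_zero (congrArg Prod.snd h)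

lemma sep_snd {f : MvPolynomial (Fin 5) ℂ} (ζ : ℂ) (p : ℂ × ℂ) :
    Sep fun u v => MvPolynomial.eval (vec ζ p (u, v)) f := by
  apply sep_of (fun u v => vec ζ p (u, v))
  · intro v
    refine ⟨![C ζ, C p.1, C p.2, X, C v], fun u i => ?_⟩
    fin_cases i <;> simp [vec, quad]
  · intro u
    refine ⟨![C ζ, C p.1, C p.2, C u, X], fun v i => ?_⟩
    fin_cases i <;> simp [vec, quad]

lemma sep_fst {f : MvPolynomial (Fin 5) ℂ} (ζ : ℂ) (q : ℂ × ℂ) :
    Sep fun u v => MvPolynomial.eval (vec ζ (u, v) q) f := by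
  apply sep_of (fun u v => vec ζ (u, v) q)
  · intro v
    refine ⟨![C ζ, X, C v, C q.1, C q.2], fun u i => ?_⟩
    fin_cases i <;> simp [vec, quad]
  · intro u
    refine ⟨![C ζ, C u, X, C q.1, C q.2], fun v i => ?_⟩
    fin_cases i <;> simp [vec, quad]

/-- **The forward images of the quadric are Zariski dense.** -/
theorem zall (ha : a ^ 2 = 2 * a - 5) (hb : b = 2 - a) (hr : r ^ 2 = a) {n : ℕ} (hn : 1 ≤ n)
    {f : MvPolynomial (Fin 5) ℂ}
    (h : ∀ (N : ℕ) (v : Fin 5 → ℂ), v ≠ 0 → v 1 * v 4 = v 2 * v 3 →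
      MvPolynomial.eval ((PV a b)^[n * N] v) f = 0) (v : Fin 5 → ℂ) :
    MvPolynomial.eval v f = 0 := by
  have hb2 : b ^ 2 = 2 * b - 5 := (a_facts ha hb).2.2.2.2.1
  obtain ⟨z, hz⟩ := exists_back ha r
  have hV : ∀ m N : ℕ, (fm a)^[m + n * N] ((fm b)^[n * N] (z (m + n * N) : PLine)) =
      (r : PLine) := by
    intro m N
    rw [commute ha hb, hz.iter', iter_b_root ha hb hr]
  have hY : ∀ m N : ℕ, ∃ y : ℂ, (fm b)^[n * N] (z (m + n * N) : PLine) = (y : PLine) := by
    intro m N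
    refine exists_coe fun h0 => ?_
    have := hV m N
    rw [h0, iter_infty] at this
    exact OnePoint.infty_ne_coe _ this
  choose Y hY using hY
  have hYinj : ∀ m, Function.Injective (Y m) := by
    intro m N N' hNN
    have h1 := hV m N
    have h2 := hV m N'
    rw [hY] at h1 h2
    rw [← hNN] at h2
    have h3 := level ha hr h1 h2
    have h4 : n * N = n * N' := by omega
    exact Nat.eq_of_mul_eq_mul_left (by omega) h4
  have claim1 : ∀ (m N : ℕ) (ζ α β : ℂ), α ≠ 0 → β ≠ 0 →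
      MvPolynomial.eval (vec ζ (α * z m, α) (β * Y m N, β)) f = 0 := by
    intro m N ζ α β hα hβ
    set M := n * N with hM
    obtain ⟨c, hc, hc1⟩ := exists_smul_of_pt (p := (AA a)^[M] (z (m + M), 1)) (q := (z m, 1))
      (AA_iter_ne ha (pair_ne _) M) (pair_ne _) (by
        rw [← fm_iter_pt]
        show (fm a)^[M] (pt (z (m + M)) 1) = pt (z m) 1
        rw [pt_one, pt_one]
        exact hz.iter m M)
    obtain ⟨d, hd, hd1⟩ := exists_smul_of_pt (p := (AA b)^[M] (z (m + M), 1)) (q := (Y m N, 1))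
      (AA_iter_ne hb2 (pair_ne _) M) (pair_ne _) (by
        rw [← fm_iter_pt]
        show (fm b)^[M] (pt (z (m + M)) 1) = pt (Y m N) 1
        rw [pt_one, pt_one]
        exact hY m N)
    have hpos : 0 < 5 ^ M := by positivity
    obtain ⟨α0, hα0⟩ := IsAlgClosed.exists_pow_nat_eq (α / c) hpos
    obtain ⟨β0, hβ0⟩ := IsAlgClosed.exists_pow_nat_eq (β / d) hpos
    obtain ⟨ζ0, hζ0⟩ := phi_surj (a := a) (b := b) M
      (quad (α0 * z (m + M), α0 * 1) (β0 * z (m + M), β0 * 1)) ζ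
    have hα00 : α0 ≠ 0 := by
      rintro rfl
      rw [zero_pow hpos.ne'] at hα0
      exact div_ne_zero hα hc hα0.symm
    have h1 := h N (vec ζ0 (α0 * z (m + M), α0 * 1) (β0 * z (m + M), β0 * 1)) (by
        intro h0
        have := congrFun h0 2
        apply hα00
        have h2 : α0 * 1 = 0 := this
        linear_combination h2) (by
        show α0 * z (m + M) * (β0 * 1) = α0 * 1 * (β0 * z (m + M))
        ring)
    rw [PV_iter_vec] at h1
    rw [← hM, hζ0] at h1
    have e1 := AA_iter_smul (c := a) M α0 ((z (m + M), 1) : ℂ × ℂ)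
    have e2 := AA_iter_smul (c := b) M β0 ((z (m + M), 1) : ℂ × ℂ)
    rw [hc1] at e1
    rw [hd1] at e2
    rw [e1, e2, hα0, hβ0] at h1
    have e3 : ∀ (s t w : ℂ), t ≠ 0 → s / t * (t * w) = s * w := by
      intro s t w ht
      field_simp
    simp only [e3 _ _ _ hc, e3 _ _ _ hd, mul_one, div_mul_cancel₀ _ hc, div_mul_cancel₀ _ hd] at h1
    exact h1
  have claim2 : ∀ (m : ℕ) (ζ α : ℂ) (q : ℂ × ℂ), α ≠ 0 →
      MvPolynomial.eval (vec ζ (α * z m, α) q) f = 0 := by
    intro m ζ α q hα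
    refine (sep_snd ζ (α * z m, α)).vanish (S := Set.range (Y m))
      (Set.infinite_range_of_injective (hYinj m)) ?_ q.1 q.2
    rintro _ ⟨N, rfl⟩ t ht
    exact claim1 m N ζ α t hα ht
  have claim3 : ∀ (ζ : ℂ) (p q : ℂ × ℂ), MvPolynomial.eval (vec ζ p q) f = 0 := by
    intro ζ p q
    refine (sep_fst ζ q).vanish (S := Set.range z)
      (Set.infinite_range_of_injective (hz.injective ha hr)) ?_ p.1 p.2
    rintro _ ⟨m, rfl⟩ t ht
    exact claim2 m ζ t q ht
  rw [← vec_eta v]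
  exact claim3 _ _ _

/-- pointwise form of non-preperiodicity of the diagonal -/
lemma no_incl (ha : a ^ 2 = 2 * a - 5) (hb : b = 2 - a) (hr : r ^ 2 = a) (m n : ℕ) (hn : 1 ≤ n) :
    ∃ w : ℂ, ∀ w' : PLine, (fm a)^[m] w' = (fm a)^[m + n] (w : PLine) →
      (fm b)^[m] w' = (fm b)^[m + n] (w : PLine) → False := by
  obtain ⟨z, hz⟩ := exists_back ha r
  obtain ⟨k, rfl⟩ : ∃ k, n = k + 1 := ⟨n - 1, by omega⟩
  refine ⟨z (k + m), fun w h1 h2 => ?_⟩
  have h3 : (fm a)^[m + (k + 1)] (z (k + m) : PLine) = ((0 : ℂ) : PLine) := by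
    rw [show m + (k + 1) = (k + m) + 1 by ring]
    exact hz.iter_succ ha hr _
  rw [h3] at h1
  have h4 : (fm a)^[m] ((fm b)^[m] w) = ((0 : ℂ) : PLine) := by
    rw [commute ha hb, h1, iter_zero]
  rw [h2, commute ha hb, hz.iter k m] at h4
  have h5 : (fm a)^[k] ((fm b)^[m + (k + 1)] (z k : PLine)) = (r : PLine) := by
    rw [commute ha hb, hz.iter', iter_b_root ha hb hr]
  rw [h4, iter_zero] at h5
  exact r_ne ha hr (OnePoint.coe_injective h5).symm

end Pool.Agent.TH147.DM
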